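import Mathlib

/-!
# Commutative algebra for MP_b6294e: places of finitely generated rings
-/

set_option linter.style.haveILetI false

namespace Pool.Agent.MP_b6294e

/-- `ℤ` is a Jacobson ring. -/
theorem jacobson_int : IsJacobsonRing ℤ := by
  rw [isJacobsonRing_iff_prime_eq]
  intro P hP
  by_cases h : P = ⊥
  · subst h
    rw [eq_bot_iff]
    intro x hx
    by_contra hx0
    obtain ⟨p, hple, hp⟩ := Nat.exists_infinite_primes (x.natAbs + 1)
    have hmax : (Ideal.span {(p : ℤ)}).IsMaximal :=
      PrincipalIdealRing.isMaximal_of_irreducible (Nat.prime_iff_prime_int.mp hp).irreducible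
    have hmem : x ∈ Ideal.span {(p : ℤ)} := by
      have h1 : x ∈ sInf {J : Ideal ℤ | ⊥ ≤ J ∧ J.IsMaximal} := hx
      rw [Submodule.mem_sInf] at h1
      exact h1 _ ⟨bot_le, hmax⟩
    rw [Ideal.mem_span_singleton] at hmem
    have h2 : p ∣ x.natAbs := Int.natCast_dvd.mp hmem
    have h3 : x.natAbs ≠ 0 := by
      intro h0
      exact hx0 (by simpa using Int.natAbs_eq_zero.mp h0)
    have := Nat.le_of_dvd (Nat.pos_of_ne_zero h3) h2
    omega
  · have hm : P.IsMaximal := hP.isMaximal h
    exact Ideal.jacobson_eq_self_of_isMaximal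

/-- A field of finite type over `ℤ` is finite. -/
theorem finite_of_finiteType_int (k : Type*) [Field k] [Algebra.FiniteType ℤ k] : Finite k := by
  have := jacobson_int
  have : Module.Finite ℤ k := finite_of_finite_type_of_isJacobsonRing ℤ k
  obtain ⟨p, hp⟩ := CharP.exists k
  rcases CharP.char_is_prime_or_zero k p with hp' | hp'
  · haveI : Fact p.Prime := ⟨hp'⟩
    letI : Algebra (ZMod p) k := ZMod.algebra k p
    haveI : Module.Finite (ZMod p) k := Module.Finite.of_restrictScalars_finite ℤ (ZMod p) k
    exact Module.finite_of_finite (ZMod p)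
  · subst hp'
    haveI : CharZero k := CharP.charP_to_charZero k
    exfalso
    have hinj : Function.Injective (algebraMap ℤ k) := by
      simpa using (Int.cast_injective : Function.Injective (Int.cast : ℤ → k))
    have : IsField ℤ := isField_of_isIntegral_of_isField hinj (Field.toIsField k)
    obtain ⟨b, hb⟩ := this.mul_inv_cancel (show (2 : ℤ) ≠ 0 by norm_num)
    omega

/-- A Jacobson domain that is not a field has a maximal ideal outside any finite set. -/
theorem exists_maximal_notMem {T : Type*} [CommRing T] [IsDomain T] [IsJacobsonRing T]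
    (hT : ¬ IsField T) (S : Finset (Ideal T)) : ∃ M : Ideal T, M.IsMaximal ∧ M ∉ S := by
  classical
  by_contra hcon
  push Not at hcon
  have hne : ∀ M : Ideal T, ∃ x : T, x ≠ 0 ∧ (M.IsMaximal → x ∈ M) := by
    intro M
    by_cases hM : M.IsMaximal
    · have : M ≠ ⊥ := by
        intro h
        subst h
        exact hT (Ring.isField_iff_maximal_bot.mpr hM)
      obtain ⟨x, hx, hx0⟩ := Submodule.exists_mem_ne_zero_of_ne_bot this
      exact ⟨x, hx0, fun _ => hx⟩
    · exact ⟨1, one_ne_zero, fun h => absurd h hM⟩
  choose x hx0 hx using hne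
  have hprod : ∏ M ∈ S, x M ≠ 0 := Finset.prod_ne_zero_iff.mpr fun M _ => hx0 M
  have hmem : ∏ M ∈ S, x M ∈ Ideal.jacobson (⊥ : Ideal T) := by
    unfold Ideal.jacobson
    rw [Submodule.mem_sInf]
    rintro M ⟨-, hM⟩
    exact Ideal.mem_of_dvd M (Finset.dvd_prod_of_mem x (hcon M hM)) (hx M hM)
  rw [isJacobsonRing_iff_prime_eq.mp inferInstance ⊥ Ideal.isPrime_bot] at hmem
  exact hprod (by simpa using hmem)

section Integral

variable (R : Type*) (K : Type*) [CommRing R] [Field K] [IsAlgClosed K] [Algebra R K]

/-- Residue fields of the integral closure in an algebraically closed field are algebraically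
closed. -/
theorem isAlgClosed_quotient (M : Ideal (integralClosure R K)) [hM : M.IsMaximal] :
    letI := Ideal.Quotient.field M
    IsAlgClosed (integralClosure R K ⧸ M) := by
  letI := Ideal.Quotient.field M
  refine IsAlgClosed.of_exists_root _ fun p hp hirr => ?_
  obtain ⟨P, hPp, hPdeg, hPm⟩ : ∃ P : Polynomial (integralClosure R K),
      P.map (Ideal.Quotient.mk M) = p ∧ P.degree = p.degree ∧ P.Monic := by
    have := Polynomial.lifts_and_degree_eq_and_monic (f := Ideal.Quotient.mk M) (p := p)
      ((Polynomial.lifts_iff_coeff_lifts _).mpr fun n => Ideal.Quotient.mk_surjective _) hp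
    exact this
  have hdeg : (P.map (algebraMap (integralClosure R K) K)).degree ≠ 0 := by
    rw [Polynomial.degree_map_eq_of_injective
      (FaithfulSMul.algebraMap_injective (integralClosure R K) K), hPdeg]
    exact (Polynomial.degree_pos_of_irreducible hirr).ne'
  obtain ⟨x, hx⟩ := IsAlgClosed.exists_root _ hdeg
  rw [Polynomial.IsRoot.def, Polynomial.eval_map] at hx
  have hxint : IsIntegral (integralClosure R K) x := ⟨P, hPm, hx⟩
  have hxR : IsIntegral R x := isIntegral_trans x hxint
  refine ⟨Ideal.Quotient.mk M ⟨x, hxR⟩, ?_⟩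
  rw [← hPp, Polynomial.eval_map, Polynomial.eval₂_hom]
  have h0 : P.eval (⟨x, hxR⟩ : integralClosure R K) = 0 := by
    apply FaithfulSMul.algebraMap_injective (integralClosure R K) K
    rw [map_zero, ← Polynomial.eval₂_hom]
    exact hx
  rw [h0, map_zero]

end Integral

end Pool.Agent.MP_b6294e
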