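import Pool.Agent.Lib.MP_b6294e.Alg

/-!
# Residue fields and local models for MP_b6294e
-/

set_option linter.style.haveILetI false

namespace Pool.Agent.MP_b6294e

theorem finite_of_finiteType_int' (k : Type*) [Field k] (h : (Int.castRingHom k).FiniteType) :
    Finite k := by
  have h' : Algebra.FiniteType ℤ k := by
    have e : (Int.castRingHom k).toAlgebra = (inferInstance : Algebra ℤ k) := Subsingleton.elim _ _
    unfold RingHom.FiniteType at h
    rw [e] at h
    exact h
  exact finite_of_finiteType_int k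

theorem finite_quotient_maximal (R : Type*) [CommRing R] [Algebra.FiniteType ℤ R]
    (𝔪 : Ideal R) [h𝔪 : 𝔪.IsMaximal] : Finite (R ⧸ 𝔪) := by
  have h0 : (algebraMap ℤ R).FiniteType := RingHom.finiteType_algebraMap.mpr inferInstance
  have h1 : ((Ideal.Quotient.mk 𝔪).comp (algebraMap ℤ R)).FiniteType :=
    h0.comp_surjective Ideal.Quotient.mk_surjective
  letI i2 : Field (R ⧸ 𝔪) := Ideal.Quotient.field 𝔪
  apply finite_of_finiteType_int'
  have h2 : Int.castRingHom (R ⧸ 𝔪) = (Ideal.Quotient.mk 𝔪).comp (algebraMap ℤ R) :=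
    RingHom.ext_int _ _
  rw [h2]
  exact h1

theorem pow_facts (F k : Type*) [Field F] [Finite F] [Field k] [Algebra F k]
    (hint : ∀ z : k, IsIntegral F z) :
    ∃ p r : ℕ, p.Prime ∧ 0 < r ∧ CharP k p ∧ (∀ c : F, c ^ (p ^ r) = c) ∧
      ∀ z : k, ∃ m, 0 < m ∧ z ^ ((p ^ r) ^ m) = z := by
  obtain ⟨p, hp⟩ := CharP.exists F
  haveI := Fintype.ofFinite F
  obtain ⟨r, hpp, hcard⟩ := FiniteField.card F p
  refine ⟨p, r, hpp, r.pos, charP_of_injective_algebraMap (algebraMap F k).injective p,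
    fun c => by rw [← hcard]; exact FiniteField.pow_card _, fun z => ?_⟩
  let L := IntermediateField.adjoin F {z}
  haveI : FiniteDimensional F L := IntermediateField.adjoin.finiteDimensional (hint z)
  haveI : Finite L := Module.finite_of_finite F
  haveI := Fintype.ofFinite L
  refine ⟨Module.finrank F L, Module.finrank_pos, ?_⟩
  have h1 : (⟨z, IntermediateField.mem_adjoin_simple_self _ z⟩ : L) ^ Fintype.card L =
    ⟨z, IntermediateField.mem_adjoin_simple_self _ z⟩ := FiniteField.pow_card _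
  have h2 : Fintype.card L = (p ^ (r : ℕ)) ^ Module.finrank F L := by
    rw [← hcard]
    exact Module.card_eq_pow_finrank
  rw [← h2]
  exact congrArg Subtype.val h1

/-- Structure of the residue field at a maximal ideal of an integral extension. -/
theorem residue_facts (R T : Type*) [CommRing R] [Algebra.FiniteType ℤ R] [CommRing T]
    [Algebra R T] [Algebra.IsIntegral R T] (M : Ideal T) [hM : M.IsMaximal] :
    ∃ p r : ℕ, p.Prime ∧ 0 < r ∧ CharP (T ⧸ M) p ∧
      (∀ c : R, (algebraMap R (T ⧸ M) c) ^ (p ^ r) = algebraMap R (T ⧸ M) c) ∧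
      ∀ z : T ⧸ M, ∃ m, 0 < m ∧ z ^ ((p ^ r) ^ m) = z := by
  let 𝔪 : Ideal R := M.comap (algebraMap R T)
  haveI h𝔪 : 𝔪.IsMaximal := Ideal.isMaximal_comap_of_isIntegral_of_isMaximal M
  haveI : Finite (R ⧸ 𝔪) := finite_quotient_maximal R 𝔪
  letI : Field (R ⧸ 𝔪) := Ideal.Quotient.field 𝔪
  letI : Field (T ⧸ M) := Ideal.Quotient.field M
  let f : R ⧸ 𝔪 →+* T ⧸ M := Ideal.Quotient.lift 𝔪 (algebraMap R (T ⧸ M)) (fun a ha => by
    rw [IsScalarTower.algebraMap_apply R T (T ⧸ M)]
    exact Ideal.Quotient.eq_zero_iff_mem.mpr ha)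
  letI : Algebra (R ⧸ 𝔪) (T ⧸ M) := f.toAlgebra
  haveI : IsScalarTower R (R ⧸ 𝔪) (T ⧸ M) := IsScalarTower.of_algebraMap_eq (fun x => rfl)
  have hint : ∀ z : T ⧸ M, IsIntegral (R ⧸ 𝔪) z := by
    intro z
    obtain ⟨t, rfl⟩ := Ideal.Quotient.mk_surjective z
    have h1 : IsIntegral R t := Algebra.IsIntegral.isIntegral t
    have h2 : IsIntegral R (algebraMap T (T ⧸ M) t) := h1.algebraMap
    exact h2.tower_top
  obtain ⟨p, r, hp, hr, hc, h1, h2⟩ := pow_facts (R ⧸ 𝔪) (T ⧸ M) hint
  refine ⟨p, r, hp, hr, hc, fun c => ?_, h2⟩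
  have h3 := h1 (algebraMap R (R ⧸ 𝔪) c)
  rw [IsScalarTower.algebraMap_apply R (R ⧸ 𝔪) (T ⧸ M), ← map_pow, h3]

universe u

/-- A Noetherian local domain with finite residue field, mapping to `K` and to `k`. -/
structure LocModel (R : Type u) (K k : Type u) [CommRing R] [Field K] [CommRing k] [Algebra R K]
    [Algebra R k] where
  A : Type u
  [ring : CommRing A]
  [dom : IsDomain A]
  [loc : IsLocalRing A]
  [noeth : IsNoetherianRing A]
  [alg : Algebra R A]
  ι : A →ₐ[R] K
  ρ : A →ₐ[R] k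
  inj : Function.Injective ι
  mem : ∀ x, x ∈ IsLocalRing.maximalIdeal A ↔ ρ x = 0
  fin : Finite (A ⧸ IsLocalRing.maximalIdeal A)

attribute [instance] LocModel.ring LocModel.dom LocModel.loc LocModel.noeth LocModel.alg

/-- Localization at a maximal ideal of a subring of finite type. -/
theorem exists_locModel_aux (R K k B : Type u) [CommRing R] [Algebra.FiniteType ℤ R] [Field K]
    [Field k] [Algebra R K] [Algebra R k] [CommRing B] [IsDomain B] [Algebra R B]
    [Algebra.FiniteType R B] (i : B →ₐ[R] K) (hi : Function.Injective i) (j : B →ₐ[R] k)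
    [hm : (RingHom.ker (j : B →+* k)).IsMaximal] :
    ∃ L : LocModel R K k, ∀ u v : B, j v ≠ 0 → ∃ x : L.A, L.ι x * i v = i u ∧
      L.ρ x * j v = j u := by
  haveI : Algebra.FiniteType ℤ B := Algebra.FiniteType.trans (S := R) inferInstance inferInstance
  haveI : IsNoetherianRing B := Algebra.FiniteType.isNoetherianRing ℤ B
  set 𝔪 : Ideal B := RingHom.ker (j : B →+* k) with h𝔪
  haveI h𝔪p : 𝔪.IsPrime := hm.isPrime
  haveI : Finite (B ⧸ 𝔪) := finite_quotient_maximal B 𝔪
  have hmem : ∀ y : B, y ∈ 𝔪 ↔ j y = 0 := fun y => RingHom.mem_ker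
  have hunitK : ∀ y : 𝔪.primeCompl, IsUnit (i y) := by
    intro y
    rw [isUnit_iff_ne_zero]
    intro h
    have : (y : B) = 0 := hi (by rw [h, map_zero])
    exact y.2 (by rw [this]; exact 𝔪.zero_mem)
  have hunitk : ∀ y : 𝔪.primeCompl, IsUnit (j y) := by
    intro y
    rw [isUnit_iff_ne_zero]
    intro h
    exact y.2 ((hmem _).mpr h)
  let A := Localization.AtPrime 𝔪
  haveI : IsDomain A := IsLocalization.isDomain_localization 𝔪.primeCompl_le_nonZeroDivisors
  haveI : IsNoetherianRing A := IsLocalization.isNoetherianRing 𝔪.primeCompl A inferInstance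
  let ι : A →ₐ[R] K := IsLocalization.liftAlgHom (M := 𝔪.primeCompl) (f := i) hunitK
  let ρ : A →ₐ[R] k := IsLocalization.liftAlgHom (M := 𝔪.primeCompl) (f := j) hunitk
  have hι : ∀ b : B, ι (algebraMap B A b) = i b := fun b => IsLocalization.lift_eq _ _
  have hρ : ∀ b : B, ρ (algebraMap B A b) = j b := fun b => IsLocalization.lift_eq _ _
  have hinj : Function.Injective ι := by
    rw [injective_iff_map_eq_zero]
    intro a ha
    obtain ⟨⟨u, v⟩, huv⟩ := IsLocalization.surj 𝔪.primeCompl a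
    have h1 : ι (algebraMap B A u) = 0 := by rw [← huv, map_mul, ha, zero_mul]
    rw [hι] at h1
    have h2 : u = 0 := hi (by rw [h1, map_zero])
    simp only [h2, map_zero] at huv
    have h3 : algebraMap B A v ≠ 0 := by
      intro h0
      have : i (v : B) = 0 := by rw [← hι, h0, map_zero]
      exact (hunitK v).ne_zero this
    exact (mul_eq_zero.mp huv).resolve_right h3
  have hmemA : ∀ x : A, x ∈ IsLocalRing.maximalIdeal A ↔ ρ x = 0 := by
    intro x
    constructor
    · intro hx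
      have h1 : Ideal.map (algebraMap B A) 𝔪 = IsLocalRing.maximalIdeal A :=
        Localization.AtPrime.map_eq_maximalIdeal
      have h2 : Ideal.map (algebraMap B A) 𝔪 ≤ RingHom.ker (ρ : A →+* k) := by
        rw [Ideal.map_le_iff_le_comap]
        intro b hb
        rw [Ideal.mem_comap, RingHom.mem_ker]
        change ρ (algebraMap B A b) = 0
        rw [hρ]
        exact (hmem b).mp hb
      rw [← h1] at hx
      exact RingHom.mem_ker.mp (h2 hx)
    · intro hx
      rw [IsLocalRing.mem_maximalIdeal, mem_nonunits_iff]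
      intro hu
      exact (hu.map ρ).ne_zero hx
  have hfin : Finite (A ⧸ IsLocalRing.maximalIdeal A) :=
    Finite.of_equiv (B ⧸ 𝔪) (IsLocalization.AtPrime.equivQuotMaximalIdeal 𝔪 A).toEquiv
  refine ⟨⟨A, ι, ρ, hinj, hmemA, hfin⟩, fun u v hv => ?_⟩
  have hv' : v ∈ 𝔪.primeCompl := fun h => hv ((hmem v).mp h)
  refine ⟨IsLocalization.mk' A u ⟨v, hv'⟩, ?_, ?_⟩
  · change ι _ * _ = _
    rw [← hι v, ← map_mul]
    have := IsLocalization.mk'_spec A u ⟨v, hv'⟩
    simp only at this
    rw [this, hι]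
  · change ρ _ * _ = _
    rw [← hρ v, ← map_mul]
    have := IsLocalization.mk'_spec A u ⟨v, hv'⟩
    simp only at this
    rw [this, hρ]

/-- Local models for finitely many elements of an integral extension. -/
theorem exists_locModel (R K T : Type u) [CommRing R] [Algebra.FiniteType ℤ R] [Field K]
    [Algebra R K] [CommRing T] [IsDomain T] [Algebra R T] [Algebra.IsIntegral R T]
    (iT : T →ₐ[R] K) (hiT : Function.Injective iT) (M : Ideal T) [hM : M.IsMaximal]
    (s : Finset T) :
    ∃ L : LocModel R K (T ⧸ M), ∀ u ∈ s, ∀ v ∈ s, v ∉ M →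
      ∃ x : L.A, L.ι x * iT v = iT u ∧
        L.ρ x * Ideal.Quotient.mk M v = Ideal.Quotient.mk M u := by
  classical
  letI := Ideal.Quotient.field M
  let B : Subalgebra R T := Algebra.adjoin R (s : Set T)
  haveI : Algebra.FiniteType R B := B.fg_iff_finiteType.mp (Subalgebra.fg_adjoin_finset s)
  haveI : Algebra.IsIntegral B T := Algebra.IsIntegral.tower_top R
  haveI hm : (RingHom.ker (((Ideal.Quotient.mkₐ R M).comp B.val : B →ₐ[R] T ⧸ M) :
      B →+* T ⧸ M)).IsMaximal := by
    have h1 : (M.comap (algebraMap B T)).IsMaximal :=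
      Ideal.isMaximal_comap_of_isIntegral_of_isMaximal M
    convert h1 using 1
    ext b
    rw [RingHom.mem_ker, Ideal.mem_comap]
    exact Ideal.Quotient.eq_zero_iff_mem
  obtain ⟨L, hL⟩ := exists_locModel_aux R K (T ⧸ M) B (iT.comp B.val)
    (hiT.comp Subtype.val_injective) ((Ideal.Quotient.mkₐ R M).comp B.val)
  refine ⟨L, fun u hu v hv hvM => ?_⟩
  have hsub : ∀ w ∈ s, w ∈ B := fun w hw => Algebra.subset_adjoin hw
  exact hL ⟨u, hsub u hu⟩ ⟨v, hsub v hv⟩ (fun h => hvM (Ideal.Quotient.eq_zero_iff_mem.mp h))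

end Pool.Agent.MP_b6294e
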