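import Pool.Agent.Lib.MP_b6294e.Step
import Pool.Agent.Lib.MP_b6294e.Place

/-!
# Zariski dense orbits for triangular maps: the induction over the coordinates
-/

set_option linter.style.haveILetI false

namespace Pool.Agent.MP_b6294e

open MvPolynomial

theorem wr_ne_zero {S : Type*} [CommRing S] [IsDomain S] (a b : Polynomial S)
    (hlt : b.natDegree < a.natDegree) (hb : b ≠ 0)
    (hc : ((a.natDegree - b.natDegree : ℕ) : S) ≠ 0) : wr a b ≠ 0 := by
  have ha : a ≠ 0 := by
    rintro rfl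
    simp at hlt
  obtain ⟨d, hd⟩ : ∃ d, a.natDegree = d + 1 := ⟨_, (Nat.succ_pred_eq_of_pos (by omega)).symm⟩
  have h1 : (Polynomial.derivative a * b).coeff (d + b.natDegree) =
      a.leadingCoeff * (d + 1) * b.leadingCoeff := by
    rw [Polynomial.coeff_mul_add_eq_of_natDegree_le _ le_rfl, Polynomial.coeff_derivative]
    · rw [Polynomial.leadingCoeff, hd, Polynomial.leadingCoeff]
    · have := Polynomial.natDegree_derivative_le a
      omega
  have h2 : (a * Polynomial.derivative b).coeff (d + b.natDegree) =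
      a.leadingCoeff * (b.leadingCoeff * (b.natDegree : S)) := by
    rcases Nat.eq_zero_or_pos b.natDegree with h0 | h0
    · have : Polynomial.derivative b = 0 := by
        rw [Polynomial.eq_C_of_natDegree_eq_zero h0, Polynomial.derivative_C]
      rw [this, h0]
      simp
    · obtain ⟨e, he⟩ : ∃ e, b.natDegree = e + 1 := ⟨_, (Nat.succ_pred_eq_of_pos h0).symm⟩
      rw [show d + b.natDegree = a.natDegree + e by omega,
        Polynomial.coeff_mul_add_eq_of_natDegree_le le_rfl, Polynomial.coeff_derivative]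
      · rw [Polynomial.leadingCoeff, Polynomial.leadingCoeff, he]
        push_cast
        ring
      · have := Polynomial.natDegree_derivative_le b
        omega
  intro h
  have h3 : (wr a b).coeff (d + b.natDegree) = 0 := by rw [h, Polynomial.coeff_zero]
  unfold wr at h3
  rw [Polynomial.coeff_sub, h1, h2] at h3
  have h4 : a.leadingCoeff * b.leadingCoeff * ((a.natDegree - b.natDegree : ℕ) : S) = 0 := by
    rw [Nat.cast_sub hlt.le, hd]
    push_cast
    linear_combination h3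
  rcases mul_eq_zero.mp h4 with h5 | h5
  · rcases mul_eq_zero.mp h5 with h6 | h6
    · exact ha (Polynomial.leadingCoeff_eq_zero.mp h6)
    · exact hb (Polynomial.leadingCoeff_eq_zero.mp h6)
  · exact hc h5

theorem map_ne_zero_of_isUnit {R k : Type*} [CommRing R] [CommRing k] [Nontrivial k] [Algebra R k]
    {n : ℕ} (Q : MvPolynomial (Fin n) R) (h : ∃ μ, IsUnit (coeff μ Q)) :
    map (algebraMap R k) Q ≠ 0 := by
  obtain ⟨μ, hμ⟩ := h
  intro h0
  have := congrArg (coeff μ) h0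
  rw [coeff_map, coeff_zero] at this
  exact (hμ.map (algebraMap R k)).ne_zero this

universe u

section

variable (R K : Type u) [CommRing R] [Algebra.FiniteType ℤ R] [Field K]
  [Algebra R K] (T : Type u) [CommRing T] [IsDomain T] [Algebra R T] [Algebra.IsIntegral R T]
  (iT : T →ₐ[R] K)

/-- `α` is congruent to `z` at the place given by `M`. -/
def Cong (M : Ideal T) (α : K) (z : T) : Prop :=
  ∃ u v : T, v ∉ M ∧ α * iT v = iT u ∧ u - z * v ∈ M

/-- The inductive statement. -/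
def Good (a b : ∀ i : ℕ, Polynomial (MvPolynomial (Fin i) R)) (n : ℕ) : Prop :=
  ∀ S : Finset (Ideal T), (∀ M ∈ S, M.IsMaximal) → ∀ z : Ideal T → ℕ → T,
    ∃ α : ℕ → K, (∀ M ∈ S, ∀ j < n, Cong R K T iT M (α j) (z M j)) ∧
      (∀ t, ∀ i < n, EP ((Phi a b)^[t] α) i (b i) ((Phi a b)^[t] α i) ≠ 0) ∧
      ∀ Q : MvPolynomial (Fin n) K,
        (∀ t, eval (fun j : Fin n => (Phi a b)^[t] α j) Q = 0) → Q = 0

/-- The inductive statement, with the orbit avoiding `G = 0`. -/
def GoodAt (a b : ∀ i : ℕ, Polynomial (MvPolynomial (Fin i) R)) (n : ℕ)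
    (G : MvPolynomial (Fin n) R) : Prop :=
  ∀ S : Finset (Ideal T), (∀ M ∈ S, M.IsMaximal) → ∀ z : Ideal T → ℕ → T,
    ∃ α : ℕ → K, (∀ M ∈ S, ∀ j < n, Cong R K T iT M (α j) (z M j)) ∧
      (∀ t, ∀ i < n, EP ((Phi a b)^[t] α) i (b i) ((Phi a b)^[t] α i) ≠ 0) ∧
      (∀ Q : MvPolynomial (Fin n) K,
        (∀ t, eval (fun j : Fin n => (Phi a b)^[t] α j) Q = 0) → Q = 0) ∧
      ∀ t, E ((Phi a b)^[t] α) n G ≠ 0

omit [Algebra.FiniteType ℤ R] [IsDomain T] [Algebra.IsIntegral R T] in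
theorem GoodAt.good {a b : ∀ i : ℕ, Polynomial (MvPolynomial (Fin i) R)} {n : ℕ}
    {G : MvPolynomial (Fin n) R} (h : GoodAt R K T iT a b n G) : Good R K T iT a b n := by
  intro S hS z
  obtain ⟨α, h1, h2, h3, -⟩ := h S hS z
  exact ⟨α, h1, h2, h3⟩

omit [Algebra.FiniteType ℤ R] [IsDomain T] [Algebra.IsIntegral R T] in
theorem goodAt_zero (a b : ∀ i : ℕ, Polynomial (MvPolynomial (Fin i) R))
    (G : MvPolynomial (Fin 0) R) (hG : ∃ μ, IsUnit (coeff μ G)) :
    GoodAt R K T iT a b 0 G := by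
  intro S _ z
  refine ⟨0, fun M _ j hj => absurd hj (Nat.not_lt_zero j),
    fun t i hi => absurd hi (Nat.not_lt_zero i), fun Q hQ => ?_, fun t => ?_⟩
  · have := hQ 0
    rw [eq_C_of_isEmpty Q] at this ⊢
    rw [eval_C] at this
    rw [this, C_0]
  · rw [E_eq_eval]
    intro h0
    apply map_ne_zero_of_isUnit (k := K) G hG
    rw [eq_C_of_isEmpty (map (algebraMap R K) G)] at h0 ⊢
    rw [eval_C] at h0
    rw [h0, C_0]

omit [Algebra.FiniteType ℤ R] [IsDomain T] [Algebra.IsIntegral R T] in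
theorem good_zero (a b : ∀ i : ℕ, Polynomial (MvPolynomial (Fin i) R)) :
    Good R K T iT a b 0 := by
  intro S _ z
  refine ⟨0, fun M _ j hj => absurd hj (Nat.not_lt_zero j),
    fun t i hi => absurd hi (Nat.not_lt_zero i), fun Q hQ => ?_⟩
  have := hQ 0
  rw [eq_C_of_isEmpty Q] at this ⊢
  rw [eval_C] at this
  rw [this, C_0]

theorem pow_iter_fixed {k : Type*} [Monoid k] (z : k) (N : ℕ) (h : z ^ N = z) (c : ℕ) :
    z ^ (N ^ c) = z := by
  induction c with
  | zero => simp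
  | succ c ih => rw [pow_succ, pow_mul, ih, h]

omit [IsDomain T] in
theorem isCoprime_of_maximal_ne {M M' : Ideal T} (hM : M.IsMaximal) (hM' : M'.IsMaximal)
    (h : M ≠ M') : IsCoprime M M' := by
  rw [Ideal.isCoprime_iff_sup_eq]
  exact hM.coprime_of_ne hM' h

/-- Residue data and local models over a base orbit. -/
theorem base_data (hiT : Function.Injective iT) [IsJacobsonRing T] (hTF : ¬ IsField T)
    (hcl : ∀ (M : Ideal T) [hM : M.IsMaximal],
      letI := Ideal.Quotient.field M; IsAlgClosed (T ⧸ M))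
    (a b : ∀ i : ℕ, Polynomial (MvPolynomial (Fin i) R)) (n m' : ℕ) (hnm : n ≤ m')
    (hb : ∀ i < m', ∃ j μ, IsUnit (coeff μ ((b i).coeff j)))
    (hw : ∀ i < m', ∃ j μ, IsUnit (coeff μ ((wr (a i) (b i)).coeff j)))
    (G : MvPolynomial (Fin m') R)
    (hG : ∀ (k : Type u) [Field k] [Algebra R k], map (algebraMap R k) G ≠ 0)
    (hn : Good R K T iT a b n) (S : Finset (Ideal T)) (hS : ∀ M ∈ S, M.IsMaximal)
    (z : Ideal T → ℕ → T) :
    ∃ (M M' : Ideal T) (k : Type u) (_ : Field k) (_ : Algebra R k) (π : T →ₐ[R] k)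
      (F : k →ₐ[R] k) (xb : ℕ → k) (T0 : ℕ) (α' : ℕ → K),
      M.IsMaximal ∧ M'.IsMaximal ∧ M ∉ S ∧ M' ∉ S ∧ M' ≠ M ∧ (∀ x, x ∈ M ↔ π x = 0) ∧
      Function.Surjective π ∧
      (∀ i < m', EP xb i (b i) (xb i) * F (xb i) = EP xb i (a i) (xb i)) ∧
      (∀ i < m', EP xb i (b i) (xb i) ≠ 0) ∧
      (∀ i < m', EP xb i (wr (a i) (b i)) (xb i) ≠ 0) ∧
      E xb m' G ≠ 0 ∧ 0 < T0 ∧ (∀ i < m', F^[T0] (xb i) = xb i) ∧
      (∀ M ∈ S, ∀ j < n, Cong R K T iT M (α' j) (z M j)) ∧
      (∀ t, ∀ i < n, EP ((Phi a b)^[t] α') i (b i) ((Phi a b)^[t] α' i) ≠ 0) ∧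
      (∀ Q : MvPolynomial (Fin n) K,
        (∀ t, eval (fun j : Fin n => (Phi a b)^[t] α' j) Q = 0) → Q = 0) ∧
      ∀ s : Finset T, ∃ (L : LocModel R K k) (x0 : ℕ → L.A),
        (∀ i < n, L.ι (x0 i) = α' i ∧ L.ρ (x0 i) = xb i) ∧
        ∀ u ∈ s, ∀ v ∈ s, π v ≠ 0 → ∃ x : L.A, L.ι x * iT v = iT u ∧ L.ρ x * π v = π u := by
  classical
  obtain ⟨M, hM, hMS⟩ := exists_maximal_notMem hTF S
  obtain ⟨M', hM', hM'S⟩ := exists_maximal_notMem hTF (insert M S)
  letI := Ideal.Quotient.field M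
  haveI : IsAlgClosed (T ⧸ M) := hcl M
  obtain ⟨p, r, hp, hr, hchar, hfix, hper⟩ := residue_facts R T M
  -- nonvanishing modulo `M`
  have hb0 : ∀ i < m', (b i).map (map (algebraMap R (T ⧸ M))) ≠ 0 := by
    intro i hi h0
    obtain ⟨j, μ, hμ⟩ := hb i hi
    have := congrArg (fun P => P.coeff j) h0
    simp only [Polynomial.coeff_map, Polynomial.coeff_zero] at this
    exact map_ne_zero_of_isUnit _ ⟨μ, hμ⟩ this
  have hw0 : ∀ i < m', (wr (a i) (b i)).map (map (algebraMap R (T ⧸ M))) ≠ 0 := by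
    intro i hi h0
    obtain ⟨j, μ, hμ⟩ := hw i hi
    have := congrArg (fun P => P.coeff j) h0
    simp only [Polynomial.coeff_map, Polynomial.coeff_zero] at this
    exact map_ne_zero_of_isUnit _ ⟨μ, hμ⟩ this
  obtain ⟨Q0, hQ0⟩ := residue_point p a b m' hb0 hw0 (map (algebraMap R (T ⧸ M)) G) (hG _)
  set m := r * (Q0 + 1) with hm
  have hmpos : 0 < m := Nat.mul_pos hr (Nat.succ_pos _)
  have hQle : Q0 ≤ p ^ m := by
    have e1 : m < p ^ m := Nat.lt_pow_self hp.one_lt
    have e2 : Q0 + 1 ≤ m := Nat.le_mul_of_pos_left _ hr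
    omega
  obtain ⟨xb, hx1, hx2, hx3, hx4⟩ := hQ0 (p ^ m) (dvd_pow_self p hmpos.ne') hQle
  haveI : ExpChar (T ⧸ M) p := ExpChar.prime hp
  let F : (T ⧸ M) →ₐ[R] (T ⧸ M) :=
    { iterateFrobenius (T ⧸ M) p m with
      commutes' := by
        intro c
        change (algebraMap R (T ⧸ M) c) ^ (p ^ m) = _
        rw [hm, pow_mul]
        exact pow_iter_fixed _ _ (hfix c) _ }
  have hF : ∀ x, F x = x ^ (p ^ m) := fun x => rfl
  have hFt : ∀ (t : ℕ) (x : T ⧸ M), F^[t] x = x ^ ((p ^ m) ^ t) := by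
    intro t x
    induction t with
    | zero => simp
    | succ t ih => rw [Function.iterate_succ_apply', ih, hF, ← pow_mul, ← pow_succ]
  choose mm hmm1 hmm2 using hper
  have hT0 : 0 < ∏ i ∈ Finset.range m', mm (xb i) :=
    Finset.prod_pos fun i _ => hmm1 _
  have hperF : ∀ i < m', F^[∏ i ∈ Finset.range m', mm (xb i)] (xb i) = xb i := by
    intro i hi
    rw [hFt]
    obtain ⟨c, hc⟩ := Finset.dvd_prod_of_mem (fun i => mm (xb i)) (Finset.mem_range.mpr hi)
    rw [hc, ← pow_mul, hm, show r * (Q0 + 1) * (mm (xb i) * c) =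
      r * mm (xb i) * ((Q0 + 1) * c) by ring, pow_mul p (r * mm (xb i)), pow_mul p r]
    exact pow_iter_fixed _ _ (hmm2 _) _
  have hsurj : ∀ x : T ⧸ M, ∃ y : T, Ideal.Quotient.mk M y = x := Ideal.Quotient.mk_surjective
  choose lift hlift using hsurj
  -- the base point
  obtain ⟨α', hα1, hα2, hα3⟩ := hn (insert M S)
    (fun M0 hM0 => (Finset.mem_insert.mp hM0).elim (fun h => h ▸ hM) (fun h => hS M0 h))
    (fun M0 => if M0 = M then fun j => lift (xb j) else z M0)
  have hMM' : M' ≠ M := fun h => hM'S (by rw [h]; exact Finset.mem_insert_self _ _)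
  have hSM : ∀ M0 ∈ S, M0 ≠ M := fun M0 h0 h => hMS (h ▸ h0)
  refine ⟨M, M', T ⧸ M, inferInstance, inferInstance, Ideal.Quotient.mkₐ R M, F, xb, _, α', hM,
    hM', hMS, fun h => hM'S (Finset.mem_insert_of_mem h), hMM',
    fun x => Ideal.Quotient.eq_zero_iff_mem.symm, Ideal.Quotient.mk_surjective,
    hx1, hx2, hx3, by rw [E_eq_eval]; exact hx4, hT0, hperF, ?_, hα2, hα3, ?_⟩
  · intro M0 hM0 j hj
    have h4 := hα1 M0 (Finset.mem_insert_of_mem hM0) j hj
    simpa [if_neg (hSM M0 hM0)] using h4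
  · intro s0
    -- local model
    have hcong : ∀ j, ∃ u v : T, j < n → v ∉ M ∧ α' j * iT v = iT u ∧ u - lift (xb j) * v ∈ M := by
      intro j
      by_cases hj : j < n
      · obtain ⟨u, v, h⟩ := hα1 M (Finset.mem_insert_self _ _) j hj
        refine ⟨u, v, fun _ => ?_⟩
        simpa using h
      · exact ⟨0, 0, fun h => absurd h hj⟩
    choose uu vv huv using hcong
    let s : Finset T := ((Finset.range n).image uu ∪ (Finset.range n).image vv) ∪ s0
    obtain ⟨L, hL⟩ := exists_locModel R K T iT hiT M s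
    have hpt : ∀ j, ∃ x : L.A, j < n → L.ι x = α' j ∧ L.ρ x = xb j := by
      intro j
      by_cases hj : j < n
      · obtain ⟨g1, g2, g3⟩ := huv j hj
        obtain ⟨x, hx, hx'⟩ := hL (uu j)
          (by simp only [s, Finset.mem_union, Finset.mem_image]
              exact Or.inl (Or.inl ⟨j, Finset.mem_range.mpr hj, rfl⟩)) (vv j)
          (by simp only [s, Finset.mem_union, Finset.mem_image]
              exact Or.inl (Or.inr ⟨j, Finset.mem_range.mpr hj, rfl⟩)) g1
        refine ⟨x, fun _ => ⟨?_, ?_⟩⟩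
        · have hv0 : iT (vv j) ≠ 0 := by
            intro h0
            apply g1
            have : vv j = 0 := hiT (by rw [h0, map_zero])
            rw [this]
            exact M.zero_mem
          apply mul_right_cancel₀ hv0
          rw [hx, g2]
        · have hv0 : Ideal.Quotient.mk M (vv j) ≠ 0 := fun h0 =>
            g1 (Ideal.Quotient.eq_zero_iff_mem.mp h0)
          apply mul_right_cancel₀ hv0
          rw [hx', ← hlift (xb j), ← map_mul]
          exact Ideal.Quotient.eq.mpr g3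
      · exact ⟨0, fun h => absurd h hj⟩
    choose x0 hx0 using hpt
    refine ⟨L, x0, hx0, fun u hu v hv hπ => ?_⟩
    exact hL u (Finset.mem_union_right _ hu) v (Finset.mem_union_right _ hv)
      (fun h => hπ (Ideal.Quotient.eq_zero_iff_mem.mpr h))

omit [Algebra.FiniteType ℤ R] [Algebra.IsIntegral R T] [Algebra R T] [IsDomain T] in
/-- Chinese remainders. -/
theorem crt (S : Finset (Ideal T)) (hS : ∀ M ∈ S, M.IsMaximal) (M M' : Ideal T)
    (hM : M.IsMaximal) (hM' : M'.IsMaximal) (hMS : M ∉ S) (hM'S : M' ∉ S) (hMM' : M' ≠ M)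
    (zS : Ideal T → T) (w w' : T) :
    ∃ β : T, β - w ∈ M ∧ β - w' ∈ M' ∧ ∀ M0 ∈ S, β - zS M0 ∈ M0 := by
  classical
  let U : Finset (Ideal T) := insert M' (insert M S)
  have hUmax : ∀ i : U, i.1.IsMaximal := by
    rintro ⟨i, hi⟩
    rcases Finset.mem_insert.mp hi with h | h
    · exact h ▸ hM'
    · rcases Finset.mem_insert.mp h with h | h
      · exact h ▸ hM
      · exact hS i h
  have hcop : Pairwise (Function.onFun IsCoprime (fun i : U => i.1)) := by
    intro i j hij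
    exact isCoprime_of_maximal_ne T (hUmax i) (hUmax j) (fun h => hij (Subtype.ext h))
  obtain ⟨β, hβ⟩ := Ideal.exists_forall_sub_mem_ideal hcop
    (fun i : U => if i.1 = M then w else if i.1 = M' then w' else zS i.1)
  refine ⟨β, ?_, ?_, ?_⟩
  · have := hβ ⟨M, by simp [U]⟩
    simpa using this
  · have := hβ ⟨M', by simp [U]⟩
    simpa [if_neg hMM'] using this
  · intro M0 hM0
    have h1 : M0 ≠ M := fun h => hMS (h ▸ hM0)
    have h2 : M0 ≠ M' := fun h => hM'S (h ▸ hM0)
    have := hβ ⟨M0, by simp [U, hM0]⟩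
    simpa [if_neg h1, if_neg h2] using this

end

end Pool.Agent.MP_b6294e
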