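import Pool.Agent.Lib.MP_b6294e.MoebiusDense

/-!
# Triangular maps are dominant: existence of the pull back
-/

namespace Pool.Agent.MP_b6294e

open MvPolynomial

section

variable {K : Type*} [Field K]

theorem E_cx_injective {n N : ℕ} (h : n ≤ N) :
    Function.Injective (E (R := K) (cx K N) n) := by
  have h1 : E (R := K) (cx K N) n =
      ((Algebra.ofId (MvPolynomial (Fin N) K) (FF K N)).restrictScalars K).comp
        (rename (Fin.castLE h)) := by
    apply algHom_ext
    intro i
    unfold E
    rw [aeval_X, AlgHom.comp_apply, rename_X]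
    unfold cx cA
    rw [dif_pos (i.2.trans_le h)]
    rfl
  rw [h1]
  exact incl_injective K h

theorem EP_cx_ne_zero [Infinite K] {n N : ℕ} (hn : n < N) (P : Polynomial (MvPolynomial (Fin n) K))
    (hP : P ≠ 0) : EP (R := K) (cx K N) n P (cx K N n) ≠ 0 := by
  have hEx : (P.map (algebraMap _ (FF K n))).eval₂ (J K hn.le : FF K n →+* FF K N)
      (cx K N n) = EP (cx K N) n P (cx K N n) := by
    unfold EP
    rw [Polynomial.eval₂_map, Polynomial.eval_map]
    congr 1
    apply MvPolynomial.ringHom_ext
    · intro c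
      simp only [RingHom.comp_apply]
      have h1 : (algebraMap (MvPolynomial (Fin n) K) (FF K n)) (C c) =
          algebraMap K (FF K n) c := by
        rw [IsScalarTower.algebraMap_apply K (MvPolynomial (Fin n) K) (FF K n)]
        rfl
      rw [h1]
      have h2 : (J K hn.le : FF K n →+* FF K N) (algebraMap K (FF K n) c) =
        algebraMap K (FF K N) c := (J K hn.le).commutes c
      rw [h2]
      unfold E
      simp
    · intro i
      have h1 : (algebraMap (MvPolynomial (Fin n) K) (FF K n)) (X i) = cx K n i := by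
        unfold cx cA
        rw [dif_pos i.2]
      simp only [RingHom.comp_apply]
      rw [h1]
      have h2 : (J K hn.le : FF K n →+* FF K N) (cx K n i) = cx K N i := J_cx K hn.le i.2
      rw [h2]
      unfold E
      simp
  rw [← hEx]
  intro h0
  have h1 := cx_transcendental hn _ h0
  exact (Polynomial.map_ne_zero_iff (IsFractionRing.injective _ (FF K n))).mpr hP h1

theorem cx_isTranscendenceBasis (N : ℕ) :
    IsTranscendenceBasis K (fun i : Fin N => cx K N i) := by
  have h1 := IsTranscendenceBasis.mvPolynomial (R := K) (ι := Fin N)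
  haveI : Algebra.IsAlgebraic (MvPolynomial (Fin N) K) (FF K N) :=
    IsLocalization.isAlgebraic _ (nonZeroDivisors (MvPolynomial (Fin N) K))
  have h2 := h1.algebraMap_comp (A := FF K N)
  convert h2 using 1
  funext i
  unfold cx cA
  rw [dif_pos i.2]
  rfl

theorem key_algebraic [Infinite K] (N : ℕ) (S : Type*) [CommRing S] [IsDomain S] [Algebra K S]
    [Algebra S (FF K N)] [IsScalarTower K S (FF K N)]
    (a b : ∀ i : ℕ, Polynomial (MvPolynomial (Fin i) K))
    (hb : ∀ i < N, b i ≠ 0) (hw : ∀ i < N, wr (a i) (b i) ≠ 0)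
    (Φ : ℕ → FF K N) (hΦ : ∀ i < N, EP (R := K) (cx K N) i (a i) (cx K N i) =
      Φ i * EP (R := K) (cx K N) i (b i) (cx K N i))
    (hS : ∀ i < N, IsAlgebraic S (Φ i)) :
    ∀ i : ℕ, i < N → IsAlgebraic S (cx K N i) := by
  let Cl := Subalgebra.algebraicClosure S (FF K N)
  letI : Algebra K Cl := ((algebraMap S Cl).comp (algebraMap K S)).toAlgebra
  haveI : IsScalarTower K Cl (FF K N) := IsScalarTower.of_algebraMap_eq fun x => by
    rw [IsScalarTower.algebraMap_apply K S (FF K N)]
    rfl
  intro i
  induction i using Nat.strong_induction_on with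
  | _ i ih =>
    intro hi
    haveI : Algebra.IsAlgebraic S Cl := inferInstance
    refine IsAlgebraic.restrictScalars (S := Cl) S ?_
    let h : MvPolynomial (Fin i) K →ₐ[K] Cl :=
      aeval fun j : Fin i => (⟨cx K N j, ih j j.2 (j.2.trans hi)⟩ : Cl)
    have hcomp : (algebraMap Cl (FF K N)).comp (h : MvPolynomial (Fin i) K →+* Cl) =
        (E (R := K) (cx K N) i : MvPolynomial (Fin i) K →+* FF K N) := by
      apply MvPolynomial.ringHom_ext
      · intro c
        simp only [RingHom.comp_apply]
        have h1 : (h : MvPolynomial (Fin i) K →+* Cl) (C c) = algebraMap K Cl c := by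
          change h (C c) = _
          rw [← MvPolynomial.algebraMap_eq, h.commutes]
        have h2 : (E (R := K) (cx K N) i : MvPolynomial (Fin i) K →+* FF K N) (C c) =
            algebraMap K (FF K N) c := by
          change E (R := K) (cx K N) i (C c) = _
          rw [← MvPolynomial.algebraMap_eq, AlgHom.commutes]
        rw [h1, h2, ← IsScalarTower.algebraMap_apply K Cl (FF K N)]
      · intro j
        simp only [RingHom.comp_apply]
        have h1 : (h : MvPolynomial (Fin i) K →+* Cl) (X j) =
            (⟨cx K N j, ih j j.2 (j.2.trans hi)⟩ : Cl) := aeval_X _ j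
        have h2 : (E (R := K) (cx K N) i : MvPolynomial (Fin i) K →+* FF K N) (X j) =
            cx K N j := aeval_X _ j
        rw [h1, h2]
        rfl
    have hinj : Function.Injective (h : MvPolynomial (Fin i) K →+* Cl) := by
      have h1 : Function.Injective ((algebraMap Cl (FF K N)).comp
          (h : MvPolynomial (Fin i) K →+* Cl)) := by
        rw [hcomp]
        exact E_cx_injective hi.le
      rw [RingHom.coe_comp] at h1
      exact Function.Injective.of_comp h1
    refine ⟨(a i).map (h : MvPolynomial (Fin i) K →+* Cl) -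
      Polynomial.C (⟨Φ i, hS i hi⟩ : Cl) * (b i).map (h : MvPolynomial (Fin i) K →+* Cl),
      ?_, ?_⟩
    · intro h0
      have h1 : (a i).map (h : MvPolynomial (Fin i) K →+* Cl) =
        Polynomial.C (⟨Φ i, hS i hi⟩ : Cl) *
          (b i).map (h : MvPolynomial (Fin i) K →+* Cl) := sub_eq_zero.mp h0
      have h2 : (wr (a i) (b i)).map (h : MvPolynomial (Fin i) K →+* Cl) = 0 := by
        unfold wr
        rw [Polynomial.map_sub, Polynomial.map_mul, Polynomial.map_mul,
          ← Polynomial.derivative_map, ← Polynomial.derivative_map, h1,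
          Polynomial.derivative_C_mul]
        ring
      exact (Polynomial.map_ne_zero_iff hinj).mpr (hw i hi) h2
    · have hEPeq : ∀ P : Polynomial (MvPolynomial (Fin i) K),
          Polynomial.aeval (cx K N i) (P.map (h : MvPolynomial (Fin i) K →+* Cl)) =
          EP (R := K) (cx K N) i P (cx K N i) := by
        intro P
        unfold EP
        rw [Polynomial.aeval_def, Polynomial.eval₂_map, Polynomial.eval_map, hcomp]
      rw [map_sub, map_mul, hEPeq, hEPeq, Polynomial.aeval_C, hΦ i hi]
      exact sub_self _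

/-- The components of a triangular map are algebraically independent. -/
theorem pull_algebraicIndependent [Infinite K] (N : ℕ)
    (a b : ∀ i : ℕ, Polynomial (MvPolynomial (Fin i) K))
    (hb : ∀ i < N, b i ≠ 0) (hw : ∀ i < N, wr (a i) (b i) ≠ 0) :
    AlgebraicIndependent K (fun i : Fin N =>
      EP (R := K) (cx K N) i (a i) (cx K N i) / EP (R := K) (cx K N) i (b i) (cx K N i)) := by
  set Φ : ℕ → FF K N := fun i =>
      EP (R := K) (cx K N) i (a i) (cx K N i) / EP (R := K) (cx K N) i (b i) (cx K N i) with hΦ
  let Φ' : Fin N → FF K N := fun i => Φ i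
  have hk := key_algebraic N (Algebra.adjoin K (Set.range Φ')) a b hb hw Φ
    (by
      intro i hi
      rw [hΦ]
      simp only
      rw [div_mul_cancel₀ _ (EP_cx_ne_zero hi _ (hb i hi))])
    (by
      intro i hi
      have h1 : Φ i ∈ Algebra.adjoin K (Set.range Φ') :=
        Algebra.subset_adjoin ⟨⟨i, hi⟩, rfl⟩
      exact (isAlgebraic_algebraMap (⟨Φ i, h1⟩ : Algebra.adjoin K (Set.range Φ'))))
  have halg : Algebra.IsAlgebraic (Algebra.adjoin K (Set.range Φ')) (FF K N) := by
    rw [(cx_isTranscendenceBasis (K := K) N).isAlgebraic_iff]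
    intro i
    exact hk i i.2
  have hcard := (cx_isTranscendenceBasis (K := K) N).lift_cardinalMk_eq_trdeg
  exact (Algebra.IsAlgebraic.isTranscendenceBasis_of_lift_le_trdeg_of_finite K Φ' hcard.le).1

/-- The pull back. -/
theorem exists_pullback [Infinite K] (N : ℕ)
    (a b : ∀ i : ℕ, Polynomial (MvPolynomial (Fin i) K))
    (hb : ∀ i < N, b i ≠ 0) (hw : ∀ i < N, wr (a i) (b i) ≠ 0) :
    ∃ σ : FF K N →ₐ[K] FF K N, ∀ i < N,
      σ (cx K N i) = EP (R := K) (cx K N) i (a i) (cx K N i) /
        EP (R := K) (cx K N) i (b i) (cx K N i) := by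
  have h1 := pull_algebraicIndependent N a b hb hw
  refine ⟨IsFractionRing.liftAlgHom (g := aeval (fun i : Fin N =>
      EP (R := K) (cx K N) i (a i) (cx K N i) / EP (R := K) (cx K N) i (b i) (cx K N i))) h1,
    fun i hi => ?_⟩
  have h2 : cx K N i = algebraMap (MvPolynomial (Fin N) K) (FF K N) (X ⟨i, hi⟩) := by
    unfold cx cA
    rw [dif_pos hi]
  rw [IsFractionRing.liftAlgHom_apply]
  conv_lhs => rw [h2, IsFractionRing.lift_algebraMap]
  exact aeval_X _ (⟨i, hi⟩ : Fin N)

end

end Pool.Agent.MP_b6294e
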