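import Pool.Agent.Lib.MP_b6294e.FunField

/-!
# A Moebius fibre over a dense orbit
-/

namespace Pool.Agent.MP_b6294e

open MvPolynomial

section

variable {K : Type*} [Field K]

theorem E_cA {n i : ℕ} (hi : i ≤ n) (P : MvPolynomial (Fin i) K) :
    E (R := K) (cx K n) i P = algebraMap _ (FF K n) (E (R := K) (cA K n) i P) := by
  have h1 := map_E (R := K) ((Algebra.ofId (MvPolynomial (Fin n) K) (FF K n)).restrictScalars K)
    (cA K n) i P
  exact h1.symm

theorem EP_cA {n i : ℕ} (P : Polynomial (MvPolynomial (Fin i) K))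
    (z : MvPolynomial (Fin n) K) :
    EP (R := K) (cx K n) i P (algebraMap _ (FF K n) z) =
      algebraMap _ (FF K n) (EP (R := K) (cA K n) i P z) := by
  have h1 := map_EP (R := K) ((Algebra.ofId (MvPolynomial (Fin n) K) (FF K n)).restrictScalars K)
    (cA K n) i P z
  exact h1.symm

theorem eval_EP {n i : ℕ} (hi : i < n) (P : Polynomial (MvPolynomial (Fin i) K)) (z : ℕ → K) :
    eval (fun j : Fin n => z j) (EP (R := K) (cA K n) i P (cA K n i)) = EP (R := K) z i P (z i) := by
  have h1 := map_EP (R := K) (aeval (R := K) (fun j : Fin n => z j)) (cA K n) i P (cA K n i)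
  have h2 : ∀ j < n, (aeval (R := K) (fun j : Fin n => z j)) (cA K n j) = z j := by
    intro j hj
    unfold cA
    rw [dif_pos hj, aeval_X]
  have h3 : ∀ j < i, ((aeval (R := K) (fun j : Fin n => z j)) ∘ cA K n) j = z j :=
    fun j hj => h2 j (hj.trans hi)
  rw [h2 i hi, EP_congr h3] at h1
  rw [← h1]
  rfl

/-- The pull back on the function field of the first `n` coordinates. -/
theorem exists_sigma (a b : ∀ i : ℕ, Polynomial (MvPolynomial (Fin i) K)) {n N : ℕ} (hn : n ≤ N)
    (σ : FF K N →ₐ[K] FF K N)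
    (hX : ∀ i < N, σ (cx K N i) * EP (cx K N) i (b i) (cx K N i) =
      EP (cx K N) i (a i) (cx K N i))
    (hb : ∀ i < n, EP (cA K n) i (b i) (cA K n i) ≠ 0) :
    ∃ σ' : FF K n →ₐ[K] FF K n, (∀ x, J K hn (σ' x) = σ (J K hn x)) ∧
      ∀ i < n, σ' (cx K n i) * EP (cx K n) i (b i) (cx K n i) =
        EP (cx K n) i (a i) (cx K n i) := by
  classical
  have hb' : ∀ i < n, EP (cx K n) i (b i) (cx K n i) ≠ 0 := by
    intro i hi
    unfold cx
    rw [show (fun i => algebraMap (MvPolynomial (Fin n) K) (FF K n) (cA K n i)) = cx K n from rfl,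
      EP_cA, Ne, map_eq_zero_iff _ (IsFractionRing.injective _ (FF K n))]
    exact hb i hi
  let f : MvPolynomial (Fin n) K →ₐ[K] FF K n :=
    aeval fun i : Fin n => EP (cx K n) i (a i) (cx K n i) / EP (cx K n) i (b i) (cx K n i)
  have hJEP : ∀ i < n, ∀ P : Polynomial (MvPolynomial (Fin i) K),
      J K hn (EP (cx K n) i P (cx K n i)) = EP (cx K N) i P (cx K N i) := by
    intro i hi P
    rw [map_EP, J_cx K hn hi]
    exact EP_congr (fun j hj => J_cx K hn (hj.trans hi)) _ _
  have hf : ∀ P, J K hn (f P) = σ (J K hn (algebraMap _ _ P)) := by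
    intro P
    have h1 : (J K hn).comp f = (σ.comp (J K hn)).comp
        ((Algebra.ofId (MvPolynomial (Fin n) K) (FF K n)).restrictScalars K) := by
      apply algHom_ext
      intro i
      have h2 : J K hn (f (X i)) = σ (J K hn (cx K n i)) := by
        have h3 : f (X i) = EP (cx K n) i (a i) (cx K n i) / EP (cx K n) i (b i) (cx K n i) :=
          aeval_X _ i
        rw [h3, map_div₀, hJEP i i.2, hJEP i i.2, J_cx K hn i.2, div_eq_iff, hX i (i.2.trans_le hn)]
        rw [← hJEP i i.2]
        exact (map_ne_zero (J K hn)).mpr (hb' i i.2)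
      have h4 : cx K n i = algebraMap (MvPolynomial (Fin n) K) (FF K n) (X i) := by
        unfold cx cA
        rw [dif_pos i.2]
      rw [h4] at h2
      exact h2
    exact DFunLike.congr_fun h1 P
  have hfinj : Function.Injective f := by
    rw [injective_iff_map_eq_zero]
    intro P hP
    have h1 := hf P
    rw [hP, map_zero] at h1
    have h2 := (map_eq_zero σ).mp h1.symm
    have h3 := (map_eq_zero (J K hn)).mp h2
    exact (map_eq_zero_iff _ (IsFractionRing.injective _ (FF K n))).mp h3
  let σ' : FF K n →ₐ[K] FF K n := IsFractionRing.liftAlgHom hfinj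
  have hσ'A : ∀ P, σ' (algebraMap _ _ P) = f P := by
    intro P
    change IsFractionRing.liftAlgHom hfinj _ = _
    rw [IsFractionRing.liftAlgHom_apply, IsFractionRing.lift_algebraMap]
    rfl
  refine ⟨σ', fun x => ?_, fun i hi => ?_⟩
  · obtain ⟨P, Q, hQ, rfl⟩ := IsFractionRing.div_surjective (A := MvPolynomial (Fin n) K) x
    rw [map_div₀, map_div₀, map_div₀, map_div₀, hσ'A, hσ'A, hf, hf]
  · have h4 : cx K n i = algebraMap (MvPolynomial (Fin n) K) (FF K n) (X ⟨i, hi⟩) := by
      unfold cx cA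
      rw [dif_pos hi]
    have h5 : σ' (cx K n i) = EP (cx K n) i (a i) (cx K n i) / EP (cx K n) i (b i) (cx K n i) := by
      conv_lhs => rw [h4, hσ'A]
      exact aeval_X _ (⟨i, hi⟩ : Fin n)
    rw [h5, div_mul_cancel₀ _ (hb' i hi)]

theorem shift_sigma (a b : ∀ i : ℕ, Polynomial (MvPolynomial (Fin i) K)) {n : ℕ}
    (σ : FF K n →ₐ[K] FF K n)
    (hX : ∀ i < n, σ (cx K n i) * EP (cx K n) i (b i) (cx K n i) =
      EP (cx K n) i (a i) (cx K n i))
    (z : ℕ → ℕ → K) (hz : ∀ t, ∀ i < n, EP (z t) i (b i) (z t i) ≠ 0 ∧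
      z (t + 1) i * EP (z t) i (b i) (z t i) = EP (z t) i (a i) (z t i)) :
    Shift (σ : FF K n →+* FF K n)
      (fun t => (eval (fun j : Fin n => z t j) : MvPolynomial (Fin n) K →+* K)) := by
  intro x
  induction x using MvPolynomial.induction_on with
  | C c =>
    refine ⟨1, C c, ?_, fun t => ⟨by simp, by simp⟩⟩
    rw [map_one, one_mul]
    have h1 : (algebraMap (MvPolynomial (Fin n) K) (FF K n)) (C c) =
        algebraMap K (FF K n) c := by
      rw [IsScalarTower.algebraMap_apply K (MvPolynomial (Fin n) K) (FF K n)]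
      rfl
    rw [h1]
    exact σ.commutes c
  | add p q hp hq =>
    obtain ⟨s, x, hx, hs⟩ := hp
    obtain ⟨s', x', hx', hs'⟩ := hq
    refine ⟨s * s', s' * x + s * x', ?_, fun t => ⟨?_, ?_⟩⟩
    · simp only [map_add, map_mul]
      rw [← hx, ← hx']
      ring
    · rw [map_mul]
      exact mul_ne_zero (hs t).1 (hs' t).1
    · simp only [map_add, map_mul]
      rw [← (hs t).2, ← (hs' t).2]
      ring
  | mul_X p i hp =>
    obtain ⟨s, x, hx, hs⟩ := hp
    refine ⟨s * EP (cA K n) i (b i) (cA K n i), x * EP (cA K n) i (a i) (cA K n i), ?_,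
      fun t => ⟨?_, ?_⟩⟩
    · have h1 := hX i i.2
      have h2 : cx K n i = algebraMap (MvPolynomial (Fin n) K) (FF K n) (X i) := by
        unfold cx cA
        rw [dif_pos i.2]
      have h3 : ∀ P, EP (cx K n) i P (cx K n i) =
          algebraMap _ (FF K n) (EP (cA K n) i P (cA K n i)) := fun P => EP_cA P _
      rw [h3, h3, h2] at h1
      have h4 : (σ : FF K n →+* FF K n)
          (algebraMap (MvPolynomial (Fin n) K) (FF K n) (p * X i)) =
          (σ : FF K n →+* FF K n) (algebraMap (MvPolynomial (Fin n) K) (FF K n) p) *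
          σ (algebraMap (MvPolynomial (Fin n) K) (FF K n) (X i)) := by
        rw [map_mul, map_mul]
        rfl
      rw [h4, map_mul, map_mul, ← hx, ← h1]
      ring
    · rw [map_mul, eval_EP i.2]
      exact mul_ne_zero (hs t).1 (hz t i i.2).1
    · rw [map_mul, map_mul, map_mul, eval_EP i.2, eval_EP i.2, ← (hs t).2, ← (hz t i i.2).2,
        eval_X]
      ring

theorem EP_eq_map_eval (z : ℕ → K) (n : ℕ) (P : Polynomial (MvPolynomial (Fin n) K)) (y : K) :
    EP (R := K) z n P y = (P.map (eval fun j : Fin n => z j)).eval y := by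
  unfold EP
  congr 2

theorem moeb_map {A L : Type*} [CommRing A] [IsDomain A] [Field L] [Algebra A L]
    [IsFractionRing A L] (a b : Polynomial A) (ha : a.natDegree ≤ 1) (hb : b.natDegree ≤ 1)
    (hw : wr a b ≠ 0) : Moeb (a.map (algebraMap A L)) (b.map (algebraMap A L)) := by
  have e1 := Polynomial.eq_X_add_C_of_natDegree_le_one ha
  have e2 := Polynomial.eq_X_add_C_of_natDegree_le_one hb
  have h1 : wr a b = Polynomial.C (a.coeff 1 * b.coeff 0 - a.coeff 0 * b.coeff 1) := by
    unfold wr
    conv_lhs => rw [e1, e2]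
    simp only [Polynomial.derivative_add, Polynomial.derivative_mul, Polynomial.derivative_C,
      Polynomial.derivative_X, Polynomial.C_sub, Polynomial.C_mul]
    ring
  refine ⟨⟨algebraMap A L (a.coeff 1), algebraMap A L (a.coeff 0), algebraMap A L (b.coeff 1),
    algebraMap A L (b.coeff 0), ?_, ?_, ?_⟩⟩
  · conv_lhs => rw [e1]
    simp
  · conv_lhs => rw [e2]
    simp
  · rw [← map_mul, ← map_mul, ← map_sub, Ne,
      map_eq_zero_iff _ (IsFractionRing.injective A L)]
    intro h0
    rw [h0, Polynomial.C_0] at h1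
    exact hw h1

/-- One of infinitely many candidates in a Moebius fibre has a dense orbit. -/
theorem moebius_dense [Infinite K] (a b : ∀ i : ℕ, Polynomial (MvPolynomial (Fin i) K))
    {n N : ℕ} (hn : n < N) (σ : FF K N →ₐ[K] FF K N)
    (hX : ∀ i < N, σ (cx K N i) * EP (cx K N) i (b i) (cx K N i) =
      EP (cx K N) i (a i) (cx K N i))
    (hfix : ∀ h, σ h = h → ∃ c : K, h = algebraMap K (FF K N) c)
    (ha1 : (a n).natDegree ≤ 1) (hb1 : (b n).natDegree ≤ 1) (hw : wr (a n) (b n) ≠ 0)
    (z : ℕ → ℕ → K) (hz : ∀ t, ∀ i < n, EP (z t) i (b i) (z t i) ≠ 0 ∧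
      z (t + 1) i * EP (z t) i (b i) (z t i) = EP (z t) i (a i) (z t i))
    (hdens : ∀ Q : MvPolynomial (Fin n) K, (∀ t, eval (fun j : Fin n => z t j) Q = 0) → Q = 0)
    (y : ℕ → ℕ → K) (hy : ∀ j t, EP (z t) n (b n) (y j t) ≠ 0 ∧
      y j (t + 1) * EP (z t) n (b n) (y j t) = EP (z t) n (a n) (y j t))
    (hwt : ∀ j t, EP (z t) n (wr (a n) (b n)) (y j t) ≠ 0)
    (hinj : ∀ i j, i ≠ j → y i 0 ≠ y j 0) :
    ∃ j, ∀ P : Polynomial (MvPolynomial (Fin n) K),
      (∀ t, (P.map (eval fun j : Fin n => z t j)).eval (y j t) = 0) → P = 0 := by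
  classical
  by_contra hcon
  push Not at hcon
  have hbA : ∀ i < n, EP (cA K n) i (b i) (cA K n i) ≠ 0 := by
    intro i hi h0
    have h1 := eval_EP hi (b i) (z 0)
    rw [h0, map_zero] at h1
    exact (hz 0 i hi).1 h1.symm
  obtain ⟨σ', hJσ, hσ'X⟩ := exists_sigma a b hn.le σ hX hbA
  have hsh := shift_sigma a b σ' hσ'X z hz
  have hab : Moeb ((a n).map (algebraMap _ (FF K n))) ((b n).map (algebraMap _ (FF K n))) :=
    moeb_map _ _ ha1 hb1 hw
  -- coefficients
  have e1 := Polynomial.eq_X_add_C_of_natDegree_le_one ha1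
  have e2 := Polynomial.eq_X_add_C_of_natDegree_le_one hb1
  have hwr : wr (a n) (b n) = Polynomial.C ((a n).coeff 1 * (b n).coeff 0 -
      (a n).coeff 0 * (b n).coeff 1) := by
    unfold wr
    conv_lhs => rw [e1, e2]
    simp only [Polynomial.derivative_add, Polynomial.derivative_mul, Polynomial.derivative_C,
      Polynomial.derivative_X, Polynomial.C_sub, Polynomial.C_mul]
    ring
  have hinj' : ∀ t i j, i ≠ j → y i t ≠ y j t := by
    intro t i j hij
    induction t with
    | zero => exact hinj i j hij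
    | succ t ih =>
      intro heq
      apply ih
      have h1 := (hy i t)
      have h2 := (hy j t)
      have h3 := hwt i t
      rw [EP_eq_map_eval] at h1 h2 h3
      rw [EP_eq_map_eval] at h1 h2
      rw [hwr] at h3
      rw [e1, e2] at h1 h2
      simp only [Polynomial.map_C, Polynomial.map_add, Polynomial.map_mul, Polynomial.map_X,
        Polynomial.eval_add, Polynomial.eval_mul, Polynomial.eval_C, Polynomial.eval_X,
        map_sub, map_mul, Polynomial.map_sub, Polynomial.eval_sub] at h1 h2 h3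
      obtain ⟨h1a, h1b⟩ := h1
      obtain ⟨h2a, h2b⟩ := h2
      rw [heq] at h1b
      apply mul_left_cancel₀ h3
      generalize (eval fun j : Fin n => z t j) ((b n).coeff 1) = B1 at *
      generalize (eval fun j : Fin n => z t j) ((b n).coeff 0) = B0 at *
      generalize (eval fun j : Fin n => z t j) ((a n).coeff 1) = A1 at *
      generalize (eval fun j : Fin n => z t j) ((a n).coeff 0) = A0 at *
      linear_combination (B1 * y j t + B0) * (-h1b) + (B1 * y i t + B0) * h2b
  obtain ⟨p, q, c, d, r, m, hcop, hp, hq, hc, hd, hr, hm, hpc, hqd, hrel⟩ :=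
    moebius_invariant hsh hdens (a n) (b n) hab y
      (fun j t => by
        have := (hy j t).2
        rwa [EP_eq_map_eval, EP_eq_map_eval] at this) hinj'
      (fun j => by
        obtain ⟨P, hP, hP0⟩ := hcon j
        exact ⟨P, hP0, hP⟩)
  -- the invariant function
  set j' : FF K n →+* FF K N := (J K hn.le : FF K n →+* FF K N) with hj'
  set x : FF K N := cx K N n with hx
  have htr : ∀ p : Polynomial (FF K n), p ≠ 0 → p.eval₂ j' x ≠ 0 := fun p hp h0 =>
    hp (cx_transcendental hn p h0)
  have hEx : ∀ P : Polynomial (MvPolynomial (Fin n) K),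
      (P.map (algebraMap _ (FF K n))).eval₂ j' x = EP (cx K N) n P x := by
    intro P
    unfold EP
    rw [Polynomial.eval₂_map, Polynomial.eval_map]
    congr 1
    apply MvPolynomial.ringHom_ext
    · intro c
      simp only [RingHom.comp_apply]
      have h1 : (algebraMap (MvPolynomial (Fin n) K) (FF K n)) (C c) =
          algebraMap K (FF K n) c := by
        rw [IsScalarTower.algebraMap_apply K (MvPolynomial (Fin n) K) (FF K n)]
        rfl
      rw [h1]
      have h2 : j' (algebraMap K (FF K n) c) = algebraMap K (FF K N) c := (J K hn.le).commutes c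
      rw [h2]
      unfold E
      simp
    · intro i
      have h1 : (algebraMap (MvPolynomial (Fin n) K) (FF K n)) (X i) = cx K n i := by
        unfold cx cA
        rw [dif_pos i.2]
      simp only [RingHom.comp_apply]
      rw [h1]
      have h2 : j' (cx K n i) = cx K N i := J_cx K hn.le i.2
      rw [h2]
      unfold E
      simp
  have hbx : EP (cx K N) n (b n) x ≠ 0 := by
    rw [← hEx]
    exact htr _ hab.b_ne_zero
  have hσx : σ x * EP (cx K N) n (b n) x = EP (cx K N) n (a n) x := hX n hn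
  have hσeval : ∀ (f : Polynomial (FF K n)) (e : FF K n),
      Hm ((a n).map (algebraMap _ (FF K n))) ((b n).map (algebraMap _ (FF K n))) f.natDegree
        (f.map (σ' : FF K n →+* FF K n)) = Polynomial.C e * f →
      EP (cx K N) n (b n) x ^ f.natDegree * σ (f.eval₂ j' x) = j' e * f.eval₂ j' x := by
    intro f e hf
    have h1 := Hm_hom (Polynomial.eval₂RingHom j' x) ((a n).map (algebraMap _ (FF K n)))
      ((b n).map (algebraMap _ (FF K n))) f.natDegree (f.map (σ' : FF K n →+* FF K n))
      Polynomial.natDegree_map_le (σ x)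
      (by rw [Polynomial.coe_eval₂RingHom, hEx, hEx, hσx])
    rw [hf, Polynomial.coe_eval₂RingHom, hEx, Polynomial.eval₂_mul, Polynomial.eval₂_C] at h1
    rw [h1]
    congr 1
    rw [Polynomial.eval₂_map]
    have h2 := Polynomial.hom_eval₂ f j' (σ : FF K N →+* FF K N) x
    change σ (f.eval₂ j' x) = _ at h2
    rw [h2]
    congr 1
    ext w
    simp only [RingHom.comp_apply]
    have h3 := hJσ w
    change σ (J K hn.le w) = _
    rw [← h3]
    change _ = Polynomial.eval₂ j' x (Polynomial.C (σ' w))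
    rw [Polynomial.eval₂_C]
    rfl
  have hpx : p.eval₂ j' x ≠ 0 := htr p (by rintro rfl; simp at hp)
  have hqx : q.eval₂ j' x ≠ 0 := htr q (by rintro rfl; simp at hq)
  have hp' := hσeval p c hpc
  have hq' := hσeval q d hqd
  have hjr : j' r ≠ 0 := (map_ne_zero j').mpr hr
  have hjd : j' d ≠ 0 := (map_ne_zero j').mpr hd
  have hjc : j' c ≠ 0 := (map_ne_zero j').mpr hc
  have hσr : σ (j' r) * j' d ^ (p.natDegree * m) = j' c ^ (q.natDegree * m) * j' r := by
    have h1 := congrArg j' hrel
    rw [map_mul, map_mul, map_pow, map_pow] at h1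
    have h2 : j' ((σ' : FF K n →+* FF K n) r) = σ (j' r) := hJσ r
    rw [h2] at h1
    exact h1
  set H : FF K N := (p.eval₂ j' x) ^ (q.natDegree * m) /
    ((q.eval₂ j' x) ^ (p.natDegree * m) * j' r) with hH
  have hσH : σ H = H := by
    have e3 := congrArg (fun w => w ^ (q.natDegree * m)) hp'
    have e4 := congrArg (fun w => w ^ (p.natDegree * m)) hq'
    simp only [mul_pow, ← pow_mul] at e3 e4
    have hσq : σ (q.eval₂ j' x) ≠ 0 := (map_ne_zero σ).mpr hqx
    have hσr0 : σ (j' r) ≠ 0 := (map_ne_zero σ).mpr hjr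
    rw [hH, map_div₀, map_mul, map_pow, map_pow,
      div_eq_div_iff (mul_ne_zero (pow_ne_zero _ hσq) hσr0)
        (mul_ne_zero (pow_ne_zero _ hqx) hjr)]
    have hB : EP (cx K N) n (b n) x ^ (p.natDegree * q.natDegree * m) ≠ 0 := pow_ne_zero _ hbx
    have hDD : j' d ^ (p.natDegree * m) ≠ 0 := pow_ne_zero _ hjd
    apply mul_left_cancel₀ hB
    apply mul_left_cancel₀ hDD
    have e5 : p.natDegree * (q.natDegree * m) = p.natDegree * q.natDegree * m := by ring
    have e6 : q.natDegree * (p.natDegree * m) = p.natDegree * q.natDegree * m := by ring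
    rw [e5] at e3
    rw [e6] at e4
    linear_combination (j' d ^ (p.natDegree * m) * (q.eval₂ j' x) ^ (p.natDegree * m) * j' r) * e3
      - ((p.eval₂ j' x) ^ (q.natDegree * m) * j' d ^ (p.natDegree * m) * σ (j' r)) * e4
      - ((p.eval₂ j' x) ^ (q.natDegree * m) * j' d ^ (p.natDegree * m) *
        (q.eval₂ j' x) ^ (p.natDegree * m)) * hσr
  obtain ⟨κ, hκ⟩ := hfix H hσH
  have hκ' : (p.eval₂ j' x) ^ (q.natDegree * m) =
      algebraMap K (FF K N) κ * ((q.eval₂ j' x) ^ (p.natDegree * m) * j' r) := by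
    rw [hH, div_eq_iff (mul_ne_zero (pow_ne_zero _ hqx) hjr)] at hκ
    exact hκ
  have hκj : algebraMap K (FF K N) κ = j' (algebraMap K (FF K n) κ) :=
    ((J K hn.le).commutes κ).symm
  have hpoly : p ^ (q.natDegree * m) -
      Polynomial.C (algebraMap K (FF K n) κ * r) * q ^ (p.natDegree * m) = 0 := by
    apply cx_transcendental hn
    change Polynomial.eval₂ j' x _ = 0
    rw [Polynomial.eval₂_sub, Polynomial.eval₂_mul, Polynomial.eval₂_pow, Polynomial.eval₂_pow,
      Polynomial.eval₂_C, hκ', hκj, map_mul]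
    ring
  have hcop' : IsCoprime (p ^ (q.natDegree * m)) (q ^ (p.natDegree * m)) :=
    hcop.pow
  have hunit : IsUnit (q ^ (p.natDegree * m)) := by
    have h1 : q ^ (p.natDegree * m) ∣ p ^ (q.natDegree * m) := by
      rw [sub_eq_zero.mp hpoly]
      exact Dvd.intro_left _ rfl
    exact hcop'.symm.isUnit_of_dvd h1
  have h1 := Polynomial.natDegree_eq_zero_of_isUnit hunit
  rw [Polynomial.natDegree_pow] at h1
  have h2 : 0 < p.natDegree * m * q.natDegree := Nat.mul_pos (Nat.mul_pos hp hm) hq
  omega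

end

end Pool.Agent.MP_b6294e
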