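import Pool.Agent.Lib.MP_b6294e.Base
import Pool.Agent.Lib.MP_b6294e.MoebiusDense

/-!
# Adding a coordinate on which the map is fractional linear
-/

set_option linter.style.haveILetI false

namespace Pool.Agent.MP_b6294e

open MvPolynomial

universe u

section Local

variable {R K : Type*} [CommRing R] [Field K] [Algebra R K]
variable {A k : Type*} [CommRing A] [IsLocalRing A] [Algebra R A] [Field k] [Algebra R k]

theorem local_defined (a b : ∀ i : ℕ, Polynomial (MvPolynomial (Fin i) R)) (n : ℕ)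
    (ι : A →ₐ[R] K) (hι : Function.Injective ι) (ρ : A →ₐ[R] k)
    (hmem : ∀ x, x ∈ IsLocalRing.maximalIdeal A ↔ ρ x = 0)
    (F : k →ₐ[R] k) (xb : ℕ → k)
    (hx1 : ∀ i < n, EP xb i (b i) (xb i) * F (xb i) = EP xb i (a i) (xb i))
    (hx2 : ∀ i < n, EP xb i (b i) (xb i) ≠ 0)
    (α : ℕ → K) (x0 : ℕ → A) (hx0 : ∀ i < n, ι (x0 i) = α i) (hx0' : ∀ i < n, ρ (x0 i) = xb i)
    (i : ℕ) (hi : i < n) (Q : Polynomial (MvPolynomial (Fin i) R))
    (hQ : EP xb i Q (xb i) ≠ 0) (t : ℕ) :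
    EP ((Phi a b)^[t] α) i Q ((Phi a b)^[t] α i) ≠ 0 := by
  obtain ⟨X, hX1, hX2⟩ := local_orbit a b n ι ρ hmem F xb hx1 hx2 α x0 hx0 hx0'
  intro h0
  have h1 : ι (EP (X t) i Q (X t i)) = EP ((Phi a b)^[t] α) i Q ((Phi a b)^[t] α i) := by
    rw [map_EP, hX1 t i hi]
    exact EP_congr (fun j hj => hX1 t j (hj.trans hi)) _ _
  have h2 : EP (X t) i Q (X t i) = 0 := hι (by rw [h1, h0, map_zero])
  have h3 : ρ (EP (X t) i Q (X t i)) = F^[t] (EP xb i Q (xb i)) := by
    rw [map_EP, hX2 t i hi, ← iter_EP]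
    exact EP_congr (fun j hj => hX2 t j (hj.trans hi)) _ _
  rw [h2, map_zero] at h3
  exact iter_ne_zero F t _ hQ h3.symm

/-- Extension of scalars to `K`. -/
noncomputable def toK (K : Type*) [Field K] [Algebra R K]
    (a : ∀ i : ℕ, Polynomial (MvPolynomial (Fin i) R)) (i : ℕ) :
    Polynomial (MvPolynomial (Fin i) K) := (a i).map (map (algebraMap R K))

theorem EP_toK (a : ∀ i : ℕ, Polynomial (MvPolynomial (Fin i) R)) (x : ℕ → K) (i : ℕ) (y : K) :
    EP (R := K) x i (toK K a i) y = EP (R := R) x i (a i) y := by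
  rw [EP_eq_map_eval]
  unfold EP toK
  rw [EP_map]

end Local

section

variable (R K : Type u) [CommRing R] [Algebra.FiniteType ℤ R] [Field K] [CharZero K]
  [Algebra R K] (T : Type u) [CommRing T] [IsDomain T] [Algebra R T] [Algebra.IsIntegral R T]
  (iT : T →ₐ[R] K)

theorem good_succ_M (hiT : Function.Injective iT) [IsJacobsonRing T] (hTF : ¬ IsField T)
    (hcl : ∀ (M : Ideal T) [hM : M.IsMaximal],
      letI := Ideal.Quotient.field M; IsAlgClosed (T ⧸ M))
    (hRK : Function.Injective (algebraMap R K))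
    (a b : ∀ i : ℕ, Polynomial (MvPolynomial (Fin i) R)) (n N : ℕ) (hnN : n < N)
    (σ : FF K N →ₐ[K] FF K N)
    (hX : ∀ i < N, σ (cx K N i) * EP (R := K) (cx K N) i (toK K b i) (cx K N i) =
      EP (R := K) (cx K N) i (toK K a i) (cx K N i))
    (hfix : ∀ h, σ h = h → ∃ c : K, h = algebraMap K (FF K N) c)
    (ha1 : (a n).natDegree ≤ 1) (hb1 : (b n).natDegree ≤ 1)
    (hb : ∀ i < n + 1, ∃ j μ, IsUnit (coeff μ ((b i).coeff j)))
    (hw : ∀ i < n + 1, ∃ j μ, IsUnit (coeff μ ((wr (a i) (b i)).coeff j)))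
    (G : MvPolynomial (Fin (n + 1)) R) (hG : ∃ μ, IsUnit (coeff μ G))
    (hn : Good R K T iT a b n) : GoodAt R K T iT a b (n + 1) G := by
  classical
  intro S hS z
  obtain ⟨M, M', k, _, _, π, F, xb, T0, α', hM, hM', hMS, hM'S, hMM', hπM, hπs, hx1, hx2, hx3,
    hxG, hT0, hper, hα1, hα2, hα3, hL⟩ := base_data R K T iT hiT hTF hcl a b n (n + 1)
    (Nat.le_succ n) hb hw G (fun k _ _ => map_ne_zero_of_isUnit _ hG) hn S hS z
  obtain ⟨w, hw'⟩ := hπs (xb n)
  obtain ⟨β, hβM, -, hβS⟩ := crt T S hS M M' hM hM' hMS hM'S hMM' (fun M0 => z M0 n) w 1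
  obtain ⟨γ, hγM, hγM', hγS⟩ := crt T S hS M M' hM hM' hMS hM'S hMM' (fun _ => 0) 0 1
  have hγ0 : γ ≠ 0 := by
    rintro rfl
    rw [zero_sub] at hγM'
    exact hM'.ne_top ((Ideal.eq_top_iff_one _).mpr ((Ideal.neg_mem_iff _).mp hγM'))
  have hiγ : iT γ ≠ 0 := fun h => hγ0 (hiT (by rw [h, map_zero]))
  let βj : ℕ → T := fun j => β + j * γ
  let αj : ℕ → ℕ → K := fun j => Function.update α' n (iT (βj j))
  have hlow : ∀ j, ∀ i < n, αj j i = α' i := fun j i hi => Function.update_of_ne (by omega) _ _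
  have hαn : ∀ j, αj j n = iT (βj j) := fun j => Function.update_self _ _ _
  have hΦ : ∀ j t, ∀ i < n, (Phi a b)^[t] (αj j) i = (Phi a b)^[t] α' i := fun j t =>
    Phi_iter_congr a b n (hlow j) t
  have hloc : ∀ j, ∃ (L : LocModel R K k) (x0 : ℕ → L.A),
      (∀ i < n + 1, L.ι (x0 i) = αj j i) ∧ (∀ i < n + 1, L.ρ (x0 i) = xb i) := by
    intro j
    obtain ⟨L, x0, hx0, hLs⟩ := hL {βj j, 1}
    obtain ⟨βA, hβA, hβA'⟩ := hLs (βj j) (by simp) 1 (by simp)
      (by rw [map_one]; exact one_ne_zero)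
    rw [map_one, mul_one] at hβA hβA'
    refine ⟨L, Function.update x0 n βA, ?_, ?_⟩
    · intro i hi
      rcases Nat.lt_succ_iff_lt_or_eq.mp hi with h | h
      · rw [Function.update_of_ne (by omega), (hx0 i h).1, hlow j i h]
      · subst h
        rw [Function.update_self, hβA, hαn]
    · intro i hi
      rcases Nat.lt_succ_iff_lt_or_eq.mp hi with h | h
      · rw [Function.update_of_ne (by omega), (hx0 i h).2]
      · subst h
        have e1 := (hπM _).mp hβM
        have e2 := (hπM _).mp hγM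
        rw [sub_zero] at e2
        rw [map_sub, sub_eq_zero] at e1
        rw [Function.update_self, hβA', ← hw', ← e1]
        simp only [βj]
        rw [map_add, map_mul, e2, mul_zero, add_zero]
  have hdef : ∀ j, ∀ i < n + 1, ∀ Q : Polynomial (MvPolynomial (Fin i) R),
      EP xb i Q (xb i) ≠ 0 → ∀ t,
      EP ((Phi a b)^[t] (αj j)) i Q ((Phi a b)^[t] (αj j) i) ≠ 0 := by
    intro j i hi Q hQ t
    obtain ⟨L, x0, hx0, hx0'⟩ := hloc j
    exact local_defined a b (n + 1) L.ι L.inj L.ρ L.mem F xb hx1 hx2 (αj j) x0 hx0 hx0' i hi Q hQ t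
  have hEPlow : ∀ j t (Q : Polynomial (MvPolynomial (Fin n) R)) (y : K),
      EP ((Phi a b)^[t] (αj j)) n Q y = EP ((Phi a b)^[t] α') n Q y := fun j t Q y =>
    EP_congr (hΦ j t) Q y
  have hwrK : wr (toK K a n) (toK K b n) = (wr (a n) (b n)).map (map (algebraMap R K)) := by
    unfold wr toK
    simp only [Polynomial.map_sub, Polynomial.map_mul, Polynomial.derivative_map]
  have hwr0 : wr (toK K a n) (toK K b n) ≠ 0 := by
    rw [hwrK]
    intro h0
    obtain ⟨j, μ, hμ⟩ := hw n (Nat.lt_succ_self n)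
    have h1 := congrArg (fun P => P.coeff j) h0
    simp only [Polynomial.coeff_map, Polynomial.coeff_zero] at h1
    exact map_ne_zero_of_isUnit _ ⟨μ, hμ⟩ h1
  obtain ⟨j, hj⟩ := moebius_dense (toK K a) (toK K b) hnN σ hX hfix
    (Polynomial.natDegree_map_le.trans ha1) (Polynomial.natDegree_map_le.trans hb1) hwr0
    (fun t => (Phi a b)^[t] α')
    (by
      intro t i hi
      rw [EP_toK, EP_toK]
      refine ⟨hα2 t i hi, ?_⟩
      rw [Function.iterate_succ_apply', Phi_apply, div_mul_cancel₀ _ (hα2 t i hi)])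
    hα3 (fun j t => (Phi a b)^[t] (αj j) n)
    (by
      intro j t
      have h1 := hdef j n (Nat.lt_succ_self n) (b n) (hx2 n (Nat.lt_succ_self n)) t
      rw [hEPlow] at h1
      rw [EP_toK, EP_toK]
      refine ⟨h1, ?_⟩
      rw [Function.iterate_succ_apply', Phi_apply, hEPlow, hEPlow, div_mul_cancel₀ _ h1])
    (by
      intro j t
      have h1 := hdef j n (Nat.lt_succ_self n) (wr (a n) (b n)) (hx3 n (Nat.lt_succ_self n)) t
      rw [hEPlow] at h1
      rw [hwrK]
      have h2 := EP_toK (K := K) (fun i => wr (a i) (b i)) ((Phi a b)^[t] α') n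
        ((Phi a b)^[t] (αj j) n)
      unfold toK at h2
      rw [h2]
      exact h1)
    (by
      intro i j hij
      simp only [Function.iterate_zero, id_eq]
      rw [hαn, hαn]
      simp only [βj]
      intro h0
      apply hij
      rw [map_add, map_add, map_mul, map_mul, map_natCast, map_natCast] at h0
      have h1 := mul_right_cancel₀ hiγ (add_left_cancel h0)
      exact_mod_cast h1)
  refine ⟨αj j, ?_, ?_, ?_, ?_⟩
  · intro M0 hM0 i hi
    rcases Nat.lt_succ_iff_lt_or_eq.mp hi with h | h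
    · rw [hlow j i h]
      exact hα1 M0 hM0 i h
    · subst h
      rw [hαn]
      refine ⟨βj j, 1, ?_, by rw [map_one, mul_one], ?_⟩
      · intro h1
        exact (hS M0 hM0).ne_top ((Ideal.eq_top_iff_one _).mpr h1)
      · have h1 := hβS M0 hM0
        have h2 := hγS M0 hM0
        rw [sub_zero] at h2
        have h3 : βj j - z M0 i * 1 = (β - z M0 i) + j * γ := by
          simp only [βj]
          ring
        rw [h3]
        exact Ideal.add_mem _ h1 (Ideal.mul_mem_left _ _ h2)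
  · intro t i hi
    exact hdef j i hi (b i) (hx2 i hi) t
  · intro P hP
    by_contra hP0
    refine lastVar_ne_zero hP0 (hj _ fun t => ?_)
    rw [← hP t, eval_lastVar]
    congr 3
    funext i
    exact (hΦ j t i i.2).symm
  · intro t
    obtain ⟨L, x0, hx0, hx0'⟩ := hloc j
    exact local_ne_zero a b (n + 1) L.ι L.inj L.ρ L.mem F xb hx1 hx2 (αj j) x0 hx0 hx0' G hxG t

end

end Pool.Agent.MP_b6294e
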