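import Pool.Agent.Lib.MP_b6294e.StepA
import Pool.Agent.Lib.MP_b6294e.StepM
import Pool.Agent.Lib.MP_b6294e.Alg

/-!
# Zariski dense orbits for triangular maps
-/

set_option linter.style.haveILetI false

namespace Pool.Agent.MP_b6294e

open MvPolynomial

universe u

section

variable {K : Type u} [Field K]

theorem exists_lift_mv (n : ℕ) (P : MvPolynomial (Fin n) K) : ∃ s : Finset K,
    ∀ R : Subalgebra ℤ K, (s : Set K) ⊆ R → ∃ Q : MvPolynomial (Fin n) R,
      map (algebraMap R K) Q = P := by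
  classical
  induction P using MvPolynomial.induction_on with
  | C c => exact ⟨{c}, fun R hR => ⟨C ⟨c, hR (by simp)⟩, by rw [map_C]; rfl⟩⟩
  | add p q hp hq =>
    obtain ⟨s, hs⟩ := hp
    obtain ⟨s', hs'⟩ := hq
    refine ⟨s ∪ s', fun R hR => ?_⟩
    rw [Finset.coe_union] at hR
    obtain ⟨Q, hQ⟩ := hs R (Set.subset_union_left.trans hR)
    obtain ⟨Q', hQ'⟩ := hs' R (Set.subset_union_right.trans hR)
    exact ⟨Q + Q', by rw [map_add, hQ, hQ']⟩
  | mul_X p i hp =>
    obtain ⟨s, hs⟩ := hp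
    refine ⟨s, fun R hR => ?_⟩
    obtain ⟨Q, hQ⟩ := hs R hR
    exact ⟨Q * X i, by rw [map_mul, hQ, map_X]⟩

theorem exists_lift (n : ℕ) (P : Polynomial (MvPolynomial (Fin n) K)) : ∃ s : Finset K,
    ∀ R : Subalgebra ℤ K, (s : Set K) ⊆ R → ∃ Q : Polynomial (MvPolynomial (Fin n) R),
      Q.map (map (algebraMap R K)) = P := by
  classical
  induction P using Polynomial.induction_on' with
  | add p q hp hq =>
    obtain ⟨s, hs⟩ := hp
    obtain ⟨s', hs'⟩ := hq
    refine ⟨s ∪ s', fun R hR => ?_⟩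
    rw [Finset.coe_union] at hR
    obtain ⟨Q, hQ⟩ := hs R (Set.subset_union_left.trans hR)
    obtain ⟨Q', hQ'⟩ := hs' R (Set.subset_union_right.trans hR)
    exact ⟨Q + Q', by rw [Polynomial.map_add, hQ, hQ']⟩
  | monomial m c =>
    obtain ⟨s, hs⟩ := exists_lift_mv n c
    refine ⟨s, fun R hR => ?_⟩
    obtain ⟨Q, hQ⟩ := hs R hR
    exact ⟨Polynomial.monomial m Q, by rw [Polynomial.map_monomial, hQ]⟩

/-- One inverse makes a coefficient a unit. -/
theorem exists_unit_coeff (n : ℕ) (P : MvPolynomial (Fin n) K) (hP : P ≠ 0) : ∃ s : Finset K,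
    ∀ R : Subalgebra ℤ K, (s : Set K) ⊆ R → ∀ Q : MvPolynomial (Fin n) R,
      map (algebraMap R K) Q = P → ∃ μ, IsUnit (coeff μ Q) := by
  classical
  obtain ⟨μ, hμ⟩ : ∃ μ, coeff μ P ≠ 0 := by
    by_contra hcon
    push Not at hcon
    exact hP (MvPolynomial.ext _ _ (by simpa using hcon))
  refine ⟨{(coeff μ P)⁻¹}, fun R hR Q hQ => ⟨μ, ?_⟩⟩
  have h1 : (coeff μ P)⁻¹ ∈ R := hR (by simp)
  refine IsUnit.of_mul_eq_one (⟨_, h1⟩ : R) ?_
  apply Subtype.ext
  change ((coeff μ Q : R) : K) * (coeff μ P)⁻¹ = 1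
  have h2 : ((coeff μ Q : R) : K) = coeff μ P := by
    rw [← hQ, coeff_map]
    rfl
  rw [h2, mul_inv_cancel₀ hμ]

theorem exists_unit_coeff' (n : ℕ) (P : Polynomial (MvPolynomial (Fin n) K)) (hP : P ≠ 0) :
    ∃ s : Finset K, ∀ R : Subalgebra ℤ K, (s : Set K) ⊆ R →
      ∀ Q : Polynomial (MvPolynomial (Fin n) R), Q.map (map (algebraMap R K)) = P →
      ∃ j μ, IsUnit (coeff μ (Q.coeff j)) := by
  obtain ⟨j, hj⟩ : ∃ j, P.coeff j ≠ 0 := by
    by_contra hcon
    push Not at hcon
    exact hP (Polynomial.ext (by simpa using hcon))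
  obtain ⟨s, hs⟩ := exists_unit_coeff n _ hj
  refine ⟨s, fun R hR Q hQ => ⟨j, hs R hR _ ?_⟩⟩
  rw [← hQ, Polynomial.coeff_map]

/-- Conditions on the fibre maps. -/
def FibreOK {S : Type*} [CommRing S] (a b : Polynomial S) : Prop :=
  (b ≠ 0 ∧ b.natDegree + 2 ≤ a.natDegree) ∨
    (a.natDegree ≤ 1 ∧ b.natDegree ≤ 1 ∧ a.coeff 1 * b.coeff 0 ≠ a.coeff 0 * b.coeff 1)

theorem wr_of_le_one {S : Type*} [CommRing S] {a b : Polynomial S} (ha : a.natDegree ≤ 1)
    (hb : b.natDegree ≤ 1) : wr a b =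
      Polynomial.C (a.coeff 1 * b.coeff 0 - a.coeff 0 * b.coeff 1) := by
  have e1 := Polynomial.eq_X_add_C_of_natDegree_le_one ha
  have e2 := Polynomial.eq_X_add_C_of_natDegree_le_one hb
  unfold wr
  conv_lhs => rw [e1, e2]
  simp only [Polynomial.derivative_add, Polynomial.derivative_mul, Polynomial.derivative_C,
    Polynomial.derivative_X, Polynomial.C_sub, Polynomial.C_mul]
  ring

theorem FibreOK.wr_ne_zero {n : ℕ} [CharZero K] {a b : Polynomial (MvPolynomial (Fin n) K)}
    (h : FibreOK a b) : wr a b ≠ 0 := by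
  rcases h with ⟨hb, hd⟩ | ⟨ha, hb, hd⟩
  · refine Pool.Agent.MP_b6294e.wr_ne_zero a b (by omega) hb ?_
    rw [Nat.cast_ne_zero]
    omega
  · rw [wr_of_le_one ha hb, Ne, Polynomial.C_eq_zero, sub_eq_zero]
    exact hd

theorem FibreOK.b_ne_zero {n : ℕ} {a b : Polynomial (MvPolynomial (Fin n) K)}
    (h : FibreOK a b) : b ≠ 0 := by
  rcases h with ⟨hb, hd⟩ | ⟨ha, hb, hd⟩
  · exact hb
  · rintro rfl
    simp at hd

variable [IsAlgClosed K] [CharZero K]

theorem main_K (n₀ : ℕ) (N : ℕ) (hN : N = n₀ + 1)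
    (a b : ∀ i : ℕ, Polynomial (MvPolynomial (Fin i) K))
    (h0 : ∀ i, N ≤ i → a i = 0 ∧ b i = 0)
    (hab : ∀ i < N, FibreOK (a i) (b i))
    (σ : FF K N →ₐ[K] FF K N)
    (hX : ∀ i < N, σ (cx K N i) * EP (R := K) (cx K N) i (b i) (cx K N i) =
      EP (R := K) (cx K N) i (a i) (cx K N i))
    (hfix : ∀ h, σ h = h → ∃ c : K, h = algebraMap K (FF K N) c)
    (G : MvPolynomial (Fin (n₀ + 1)) K) (hG0 : G ≠ 0) :
    ∃ α : ℕ → K,
      (∀ t, ∀ i < N, EP (R := K) ((Phi a b)^[t] α) i (b i) ((Phi a b)^[t] α i) ≠ 0) ∧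
      (∀ t, eval (fun j : Fin (n₀ + 1) => (Phi a b)^[t] α j) G ≠ 0) ∧
      ∀ Q : MvPolynomial (Fin (n₀ + 1)) K,
        (∀ t, eval (fun j : Fin (n₀ + 1) => (Phi a b)^[t] α j) Q = 0) → Q = 0 := by
  classical
  obtain ⟨sG, hsG⟩ := exists_lift_mv (n₀ + 1) G
  obtain ⟨sG1, hsG1⟩ := exists_unit_coeff (n₀ + 1) G hG0
  obtain ⟨sG2, hsG2⟩ := exists_unit_coeff n₀ (lastVar n₀ G).leadingCoeff
    (Polynomial.leadingCoeff_ne_zero.mpr (lastVar_ne_zero hG0))
  -- the finite set of generators
  choose sa hsa using fun i => exists_lift i (a i)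
  choose sb hsb using fun i => exists_lift i (b i)
  have hub : ∀ i, ∃ s : Finset K, i < N → ∀ R : Subalgebra ℤ K, (s : Set K) ⊆ R →
      ∀ Q : Polynomial (MvPolynomial (Fin i) R), Q.map (map (algebraMap R K)) = b i →
      ∃ j μ, IsUnit (coeff μ (Q.coeff j)) := by
    intro i
    by_cases hi : i < N
    · obtain ⟨s, hs⟩ := exists_unit_coeff' i (b i) (hab i hi).b_ne_zero
      exact ⟨s, fun _ => hs⟩
    · exact ⟨∅, fun h => absurd h hi⟩
  choose sub hsub using hub
  have huw : ∀ i, ∃ s : Finset K, i < N → ∀ R : Subalgebra ℤ K, (s : Set K) ⊆ R →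
      ∀ Q : Polynomial (MvPolynomial (Fin i) R), Q.map (map (algebraMap R K)) = wr (a i) (b i) →
      ∃ j μ, IsUnit (coeff μ (Q.coeff j)) := by
    intro i
    by_cases hi : i < N
    · obtain ⟨s, hs⟩ := exists_unit_coeff' i (wr (a i) (b i)) (hab i hi).wr_ne_zero
      exact ⟨s, fun _ => hs⟩
    · exact ⟨∅, fun h => absurd h hi⟩
  choose suw hsuw using huw
  have hla : ∀ i, ∃ s : Finset K, a i ≠ 0 → ∀ R : Subalgebra ℤ K, (s : Set K) ⊆ R →
      ∀ Q : MvPolynomial (Fin i) R, map (algebraMap R K) Q = (a i).leadingCoeff →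
      ∃ μ, IsUnit (coeff μ Q) := by
    intro i
    by_cases hi : a i = 0
    · exact ⟨∅, fun h => absurd hi h⟩
    · obtain ⟨s, hs⟩ := exists_unit_coeff i _ (Polynomial.leadingCoeff_ne_zero.mpr hi)
      exact ⟨s, fun _ => hs⟩
  choose sla hsla using hla
  have hlb : ∀ i, ∃ s : Finset K, b i ≠ 0 → ∀ R : Subalgebra ℤ K, (s : Set K) ⊆ R →
      ∀ Q : MvPolynomial (Fin i) R, map (algebraMap R K) Q = (b i).leadingCoeff →
      ∃ μ, IsUnit (coeff μ Q) := by
    intro i
    by_cases hi : b i = 0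
    · exact ⟨∅, fun h => absurd hi h⟩
    · obtain ⟨s, hs⟩ := exists_unit_coeff i _ (Polynomial.leadingCoeff_ne_zero.mpr hi)
      exact ⟨s, fun _ => hs⟩
  choose slb hslb using hlb
  let s : Finset K := ((Finset.range N).biUnion fun i =>
    (sa i ∪ sb i) ∪ (sub i ∪ suw i) ∪ (sla i ∪ slb i)) ∪ (sG ∪ (sG1 ∪ sG2))
  let R : Subalgebra ℤ K := Algebra.adjoin ℤ (s : Set K)
  have hsR : ∀ i < N, ∀ s' : Finset K,
      s' ⊆ (sa i ∪ sb i) ∪ (sub i ∪ suw i) ∪ (sla i ∪ slb i) → (s' : Set K) ⊆ R := by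
    intro i hi s' hs' x hx
    apply Algebra.subset_adjoin
    exact Finset.mem_coe.mpr (Finset.mem_union_left _
      (Finset.mem_biUnion.mpr ⟨i, Finset.mem_range.mpr hi, hs' hx⟩))
  have hsGR : ∀ s' : Finset K, s' ⊆ sG ∪ (sG1 ∪ sG2) → (s' : Set K) ⊆ R := by
    intro s' hs' x hx
    apply Algebra.subset_adjoin
    exact Finset.mem_coe.mpr (Finset.mem_union_right _ (hs' hx))
  haveI hft : Algebra.FiniteType ℤ R := R.fg_iff_finiteType.mp (Subalgebra.fg_adjoin_finset s)
  -- lifts
  have haR : ∀ i, ∃ Q : Polynomial (MvPolynomial (Fin i) R), Q.map (map (algebraMap R K)) = a i := by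
    intro i
    by_cases hi : i < N
    · refine hsa i R (hsR i hi _ ?_)
      intro x hx
      simp only [Finset.mem_union]
      tauto
    · exact ⟨0, by rw [Polynomial.map_zero, (h0 i (not_lt.mp hi)).1]⟩
  have hbR : ∀ i, ∃ Q : Polynomial (MvPolynomial (Fin i) R), Q.map (map (algebraMap R K)) = b i := by
    intro i
    by_cases hi : i < N
    · refine hsb i R (hsR i hi _ ?_)
      intro x hx
      simp only [Finset.mem_union]
      tauto
    · exact ⟨0, by rw [Polynomial.map_zero, (h0 i (not_lt.mp hi)).2]⟩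
  choose aR haR using haR
  choose bR hbR using hbR
  have hRK : Function.Injective (algebraMap R K) := Subtype.val_injective
  have hinj : ∀ i, Function.Injective (map (σ := Fin i) (algebraMap R K)) := fun i =>
    map_injective _ hRK
  have hwR : ∀ i, (wr (aR i) (bR i)).map (map (algebraMap R K)) = wr (a i) (b i) := by
    intro i
    rw [← haR i, ← hbR i]
    unfold wr
    simp only [Polynomial.map_sub, Polynomial.map_mul, Polynomial.derivative_map]
  have hda : ∀ i, (aR i).natDegree = (a i).natDegree := by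
    intro i
    rw [← haR i, Polynomial.natDegree_map_eq_of_injective (hinj i)]
  have hdb : ∀ i, (bR i).natDegree = (b i).natDegree := by
    intro i
    rw [← hbR i, Polynomial.natDegree_map_eq_of_injective (hinj i)]
  have hlca : ∀ i, map (algebraMap R K) (aR i).leadingCoeff = (a i).leadingCoeff := by
    intro i
    conv_rhs => rw [← haR i, Polynomial.leadingCoeff_map_of_injective (hinj i)]
  have hlcb : ∀ i, map (algebraMap R K) (bR i).leadingCoeff = (b i).leadingCoeff := by
    intro i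
    conv_rhs => rw [← hbR i, Polynomial.leadingCoeff_map_of_injective (hinj i)]
  have hubR : ∀ i < N, ∃ j μ, IsUnit (coeff μ ((bR i).coeff j)) := by
    intro i hi
    refine hsub i hi R (hsR i hi _ ?_) _ (hbR i)
    intro x hx
    simp only [Finset.mem_union]
    tauto
  have huwR : ∀ i < N, ∃ j μ, IsUnit (coeff μ ((wr (aR i) (bR i)).coeff j)) := by
    intro i hi
    refine hsuw i hi R (hsR i hi _ ?_) _ (hwR i)
    intro x hx
    simp only [Finset.mem_union]
    tauto
  obtain ⟨GR, hGR⟩ := hsG R (hsGR _ (by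
    intro x hx
    simp only [Finset.mem_union]
    tauto))
  have hGR1 : ∃ μ, IsUnit (coeff μ GR) := hsG1 R (hsGR _ (by
    intro x hx
    simp only [Finset.mem_union]
    tauto)) GR hGR
  have hGR2 : ∃ μ, IsUnit (coeff μ (lastVar n₀ GR).leadingCoeff) := hsG2 R (hsGR _ (by
    intro x hx
    simp only [Finset.mem_union]
    tauto)) _ (by
      rw [← hGR, lastVar_map, Polynomial.leadingCoeff_map_of_injective (hinj n₀)])
  -- the integral closure
  let T := integralClosure R K
  let iT : T →ₐ[R] K := T.val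
  have hiT : Function.Injective iT := Subtype.val_injective
  haveI : Algebra.IsIntegral R T := inferInstance
  haveI hJR : IsJacobsonRing R := by
    haveI := jacobson_int
    exact isJacobsonRing_of_finiteType (A := ℤ)
  haveI hJT : IsJacobsonRing T := isJacobsonRing_of_isIntegral (R := R)
  have hTF : ¬ IsField T := by
    intro hF
    have h1 : IsField R := isField_of_isIntegral_of_isField
      (R := R) (S := T) (by
        intro x y hxy
        apply hRK
        have := congrArg iT hxy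
        rwa [AlgHom.commutes, AlgHom.commutes] at this) hF
    letI := h1.toField
    have h2 : Finite R := finite_of_finiteType_int R
    haveI : CharZero R := ⟨fun m n h => by
      have := congrArg (algebraMap R K) h
      rw [map_natCast, map_natCast] at this
      exact_mod_cast this⟩
    exact not_finite R
  have hcl : ∀ (M : Ideal T) [hM : M.IsMaximal],
      letI := Ideal.Quotient.field M; IsAlgClosed (T ⧸ M) := fun M hM =>
    isAlgClosed_quotient R K M
  have htoKa : toK K aR = a := funext haR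
  have htoKb : toK K bR = b := funext hbR
  have hstep : ∀ n < N, Good R K T iT aR bR n → ∀ G' : MvPolynomial (Fin (n + 1)) R,
      (∃ μ, IsUnit (coeff μ G')) → (∃ μ, IsUnit (coeff μ (lastVar n G').leadingCoeff)) →
      GoodAt R K T iT aR bR (n + 1) G' := by
    intro n hn' ih G' hG1 hG2
    rcases hab n hn' with ⟨hb0, hd⟩ | ⟨hd1, hd2, -⟩
    · have ha0 : a n ≠ 0 := by
        intro h
        rw [h] at hd
        simp at hd
      refine good_succ_A R K T iT hiT hTF hcl aR bR n (by rw [hda, hdb]; exact hd) ?_ ?_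
        (fun i hi => hubR i (hi.trans hn')) (fun i hi => huwR i (hi.trans hn')) G' hG2 ih
      · refine hsla n ha0 R (hsR n hn' _ ?_) _ (hlca n)
        intro x hx
        simp only [Finset.mem_union]
        tauto
      · refine hslb n hb0 R (hsR n hn' _ ?_) _ (hlcb n)
        intro x hx
        simp only [Finset.mem_union]
        tauto
    · refine good_succ_M R K T iT hiT hTF hcl hRK aR bR n N hn' σ ?_ hfix
        (by rw [hda]; exact hd1) (by rw [hdb]; exact hd2)
        (fun i hi => hubR i (by omega)) (fun i hi => huwR i (by omega)) G' hG1 ih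
      rw [htoKa, htoKb]
      exact hX
  have hone : ∀ n, lastVar (k := R) n 1 = 1 := by
    intro n
    unfold lastVar
    simp
  have hgood : ∀ n < N, Good R K T iT aR bR n := by
    intro n
    induction n with
    | zero => intro _; exact good_zero R K T iT aR bR
    | succ n ih =>
      intro hn
      have hn' : n < N := by omega
      refine (hstep n hn' (ih hn') 1 ⟨0, ?_⟩ ⟨0, ?_⟩).good
      · simp
      · rw [hone, Polynomial.leadingCoeff_one]
        simp
  obtain ⟨α, -, hα2, hα3, hα4⟩ := hstep n₀ (by omega) (hgood n₀ (by omega)) GR hGR1 hGR2 ∅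
    (by simp) (fun _ _ => 0)
  have hPhi : Phi (K := K) aR bR = Phi (R := K) a b := by
    funext x i
    rw [Phi_apply, Phi_apply, ← EP_toK aR, ← EP_toK bR, htoKa, htoKb]
  rw [hPhi] at hα2 hα3 hα4
  refine ⟨α, fun t i hi => ?_, fun t => ?_, hα3⟩
  · have := hα2 t i (by omega)
    rwa [← EP_toK bR, htoKb] at this
  · have := hα4 t
    rwa [E_eq_eval, hGR] at this

end

end Pool.Agent.MP_b6294e
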