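import Pool.Agent.Lib.MP_b6294e.Rec

/-!
# Frobenius-twisted points of triangular systems over algebraically closed fields
-/

set_option linter.style.haveILetI false

namespace Pool.Agent.MP_b6294e

section Root

variable {k : Type*} [Field k] [IsAlgClosed k]

open Polynomial in
theorem root_exists (p : ℕ) [CharP k p] (q : ℕ) (hq : p ∣ q) (A B g : k[X])
    (hB : B ≠ 0) (hW : wr A B ≠ 0) (hg : g ≠ 0)
    (hdeg : g.natDegree + 4 * A.natDegree + 4 * B.natDegree < q) :
    ∃ y : k, B.eval y * y ^ q = A.eval y ∧ g.eval y ≠ 0 ∧ B.eval y ≠ 0 ∧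
      (wr A B).eval y ≠ 0 := by
  classical
  by_contra hcon
  push Not at hcon
  set H : k[X] := B * X ^ q - A with hH
  have hdA : A.natDegree < q + B.natDegree := by omega
  have hnat : H.natDegree = q + B.natDegree := by
    have h1 : (B * X ^ q).natDegree = q + B.natDegree := by
      rw [natDegree_mul_X_pow q hB, add_comm]
    rw [hH, natDegree_sub_eq_left_of_natDegree_lt]
    · exact h1
    · rw [h1]; exact hdA
  have hder : derivative H = derivative B * X ^ q - derivative A := by
    have h0 : (q : k) = 0 := (CharP.cast_eq_zero_iff k p q).mpr hq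
    rw [hH, derivative_sub, derivative_mul, derivative_X_pow, h0]
    simp
  have hcomb : B * derivative H - derivative B * H = - wr A B := by
    rw [hder, hH]
    unfold wr
    ring
  have hH0 : H ≠ 0 := by
    intro h
    rw [h] at hnat
    simp only [natDegree_zero] at hnat
    omega
  have hw : g * B * wr A B * wr A B ≠ 0 :=
    mul_ne_zero (mul_ne_zero (mul_ne_zero hg hB) hW) hW
  have hle : H.roots ≤ (g * B * wr A B * wr A B).roots := by
    rw [Multiset.le_iff_count]
    intro y
    rw [count_roots, count_roots]
    by_cases hy : H.IsRoot y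
    · have h1 : H.rootMultiplicity y - 1 ≤ (wr A B).rootMultiplicity y := by
        rw [le_rootMultiplicity_iff hW]
        have h2 : (X - C y) ^ (H.rootMultiplicity y - 1) ∣ derivative H :=
          pow_sub_one_dvd_derivative_of_pow_dvd (H.pow_rootMultiplicity_dvd y)
        have h3 : (X - C y) ^ (H.rootMultiplicity y - 1) ∣ H :=
          (pow_dvd_pow _ (Nat.sub_le _ _)).trans (H.pow_rootMultiplicity_dvd y)
        have h4 : (X - C y) ^ (H.rootMultiplicity y - 1) ∣ - wr A B := by
          rw [← hcomb]
          exact dvd_sub (h2.mul_left _) (h3.mul_left _)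
        exact (dvd_neg.mp h4)
      rw [rootMultiplicity_mul hw, rootMultiplicity_mul (mul_ne_zero (mul_ne_zero hg hB) hW),
        rootMultiplicity_mul (mul_ne_zero hg hB)]
      have hy' : B.eval y * y ^ q = A.eval y := by
        have : H.eval y = 0 := hy
        rw [hH] at this
        simp only [eval_sub, eval_mul, eval_pow, eval_X] at this
        exact sub_eq_zero.mp this
      by_cases hgy : g.eval y = 0
      · have h2 : 0 < g.rootMultiplicity y := (rootMultiplicity_pos hg).mpr hgy
        omega
      · by_cases hBy : B.eval y = 0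
        · have h2 : 0 < B.rootMultiplicity y := (rootMultiplicity_pos hB).mpr hBy
          omega
        · have h3 := hcon y hy' hgy hBy
          have h2 : 0 < (wr A B).rootMultiplicity y := (rootMultiplicity_pos hW).mpr h3
          omega
    · rw [rootMultiplicity_eq_zero hy]
      exact Nat.zero_le _
  have h4 := Multiset.card_le_card hle
  have h5 : Multiset.card H.roots = q + B.natDegree := by
    rw [← hnat]
    exact (splits_iff_card_roots.mp (IsAlgClosed.splits H))
  have h6 := card_roots' (g * B * wr A B * wr A B)
  have hWdeg : (wr A B).natDegree ≤ A.natDegree + B.natDegree := by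
    unfold wr
    refine (natDegree_sub_le _ _).trans (max_le ?_ ?_)
    · refine natDegree_mul_le.trans ?_
      have h9 := natDegree_derivative_le A
      omega
    · refine natDegree_mul_le.trans ?_
      have h9 := natDegree_derivative_le B
      omega
  have h7 : (g * B * wr A B * wr A B).natDegree ≤
      g.natDegree + B.natDegree + 2 * (A.natDegree + B.natDegree) := by
    refine natDegree_mul_le.trans ?_
    have h8 : (g * B * wr A B).natDegree ≤ g.natDegree + B.natDegree +
        (A.natDegree + B.natDegree) := by
      refine natDegree_mul_le.trans ?_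
      have h10 : (g * B).natDegree ≤ g.natDegree + B.natDegree := natDegree_mul_le
      omega
    omega
  omega

end Root

open MvPolynomial

section LastVar

variable {k : Type*} [CommRing k]

/-- Isolate the last variable. -/
noncomputable def lastVar (n : ℕ) (G : MvPolynomial (Fin (n + 1)) k) :
    Polynomial (MvPolynomial (Fin n) k) :=
  finSuccEquiv k n (rename (finRotate (n + 1)) G)

theorem lastVar_ne_zero {n : ℕ} {G : MvPolynomial (Fin (n + 1)) k} (hG : G ≠ 0) :
    lastVar n G ≠ 0 := by
  unfold lastVar
  intro h
  apply hG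
  have h1 := (EmbeddingLike.map_eq_zero_iff (f := finSuccEquiv k n)).mp h
  exact (map_eq_zero_iff _ (rename_injective _ (finRotate (n + 1)).injective)).mp h1

theorem eval_lastVar (n : ℕ) (G : MvPolynomial (Fin (n + 1)) k) (x : ℕ → k) :
    eval (fun j : Fin (n + 1) => x j) G =
      ((lastVar n G).map (eval fun j : Fin n => x j)).eval (x n) := by
  unfold lastVar
  rw [← eval_eq_eval_mv_eval', eval_rename]
  congr 2
  funext j
  refine Fin.lastCases ?_ (fun j' => ?_) j
  · simp [finRotate_last]
  · have h1 : finRotate (n + 1) (Fin.castSucc j') = Fin.succ j' := by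
      apply Fin.ext
      rw [coe_finRotate_of_ne_last (Fin.castSucc_lt_last j').ne]
      simp
    simp only [Function.comp_apply, h1, Fin.cons_succ, Fin.val_castSucc]

theorem lastVar_map {k' : Type*} [CommRing k'] (f : k →+* k') (n : ℕ)
    (G : MvPolynomial (Fin (n + 1)) k) :
    lastVar n (map f G) = (lastVar n G).map (map f) := by
  unfold lastVar
  rw [← map_rename]
  refine Polynomial.ext fun i => MvPolynomial.ext _ _ fun m => ?_
  rw [finSuccEquiv_coeff_coeff, coeff_map, Polynomial.coeff_map, coeff_map,
    finSuccEquiv_coeff_coeff]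

theorem E_lastVar {A : Type*} [CommRing A] [Algebra k A] (n : ℕ)
    (G : MvPolynomial (Fin (n + 1)) k) (x : ℕ → A) :
    E x (n + 1) G = EP x n (lastVar n G) (x n) := by
  have h1 : ((E (R := k) x (n + 1) : MvPolynomial (Fin (n + 1)) k →ₐ[k] A) :
      MvPolynomial (Fin (n + 1)) k →+* A) =
      ((Polynomial.evalRingHom (x n)).comp
        (Polynomial.mapRingHom (E (R := k) x n : MvPolynomial (Fin n) k →+* A))).comp
      (((finSuccEquiv k n).toAlgHom.comp (rename (finRotate (n + 1)))) :
        MvPolynomial (Fin (n + 1)) k →+* Polynomial (MvPolynomial (Fin n) k)) := by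
    apply MvPolynomial.ringHom_ext
    · intro c
      have e1 : (E (R := k) x (n + 1) : MvPolynomial (Fin (n + 1)) k →ₐ[k] A) (C c) =
          algebraMap k A c := by
        rw [← MvPolynomial.algebraMap_eq, AlgHom.commutes]
      have e2 : (E (R := k) x n : MvPolynomial (Fin n) k →ₐ[k] A) (C c) =
          algebraMap k A c := by
        rw [← MvPolynomial.algebraMap_eq, AlgHom.commutes]
      simp [e1, e2, finSuccEquiv_apply]
    · intro j
      have e1 : (E (R := k) x (n + 1) : MvPolynomial (Fin (n + 1)) k →ₐ[k] A) (X j) =
          x j := aeval_X _ j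
      have e2 : ∀ j, (E (R := k) x n : MvPolynomial (Fin n) k →ₐ[k] A) (X j) =
          x j := fun j => aeval_X _ j
      refine Fin.lastCases ?_ (fun j' => ?_) j
      · have e3 : (E (R := k) x (n + 1) : MvPolynomial (Fin (n + 1)) k →ₐ[k] A)
          (X (Fin.last n)) = x n := aeval_X _ _
        simp [e3, finSuccEquiv_X_zero, finRotate_last]
      · have h1 : finRotate (n + 1) (Fin.castSucc j') = Fin.succ j' := by
          apply Fin.ext
          rw [coe_finRotate_of_ne_last (Fin.castSucc_lt_last j').ne]
          simp
        have e3 : (E (R := k) x (n + 1) : MvPolynomial (Fin (n + 1)) k →ₐ[k] A)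
          (X (Fin.castSucc j')) = x j' := aeval_X _ _
        simp [e3, h1, e2, finSuccEquiv_X_succ]
  have h2 := RingHom.congr_fun h1 G
  exact h2

end LastVar


section Point

variable {R : Type*} [CommRing R] {k : Type*} [Field k] [IsAlgClosed k] [Algebra R k]

omit [IsAlgClosed k] in
theorem E_eq_eval (x : ℕ → k) (i : ℕ) (P : MvPolynomial (Fin i) R) :
    E x i P = eval (fun j : Fin i => x j) (map (algebraMap R k) P) := by
  unfold E
  rw [eval_map, aeval_def]

omit [IsAlgClosed k] in
theorem EP_map (x : ℕ → k) (i : ℕ) (f : Polynomial (MvPolynomial (Fin i) R)) :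
    f.map (E (R := R) x i : MvPolynomial (Fin i) R →+* k) =
      (f.map (map (algebraMap R k))).map (eval fun j : Fin i => x j) := by
  rw [Polynomial.map_map]
  congr 1
  ext P
  · simp [E]
  · simp [E]

theorem residue_point (p : ℕ) [CharP k p]
    (a b : ∀ i : ℕ, Polynomial (MvPolynomial (Fin i) R))
    (n : ℕ) (hb : ∀ i < n, (b i).map (map (algebraMap R k)) ≠ 0)
    (ha : ∀ i < n, (wr (a i) (b i)).map (map (algebraMap R k)) ≠ 0)
    (G : MvPolynomial (Fin n) k) (hG : G ≠ 0) :
    ∃ Q0 : ℕ, ∀ q, p ∣ q → Q0 ≤ q → ∃ x : ℕ → k,
      (∀ i < n, EP x i (b i) (x i) * x i ^ q = EP x i (a i) (x i)) ∧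
      (∀ i < n, EP x i (b i) (x i) ≠ 0) ∧
      (∀ i < n, EP x i (wr (a i) (b i)) (x i) ≠ 0) ∧
      eval (fun j : Fin n => x j) G ≠ 0 := by
  induction n with
  | zero =>
    refine ⟨0, fun q _ _ => ⟨0, fun i hi => absurd hi (Nat.not_lt_zero i),
      fun i hi => absurd hi (Nat.not_lt_zero i), fun i hi => absurd hi (Nat.not_lt_zero i), ?_⟩⟩
    intro h
    apply hG
    rw [eq_C_of_isEmpty G] at h ⊢
    rw [eval_C] at h
    rw [h, C_0]
  | succ n ih =>
    have h1 : (lastVar n G).leadingCoeff ≠ 0 :=
      Polynomial.leadingCoeff_ne_zero.mpr (lastVar_ne_zero hG)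
    have h2 := hb n (Nat.lt_succ_self n)
    have h2' := Polynomial.leadingCoeff_ne_zero.mpr h2
    have h3 := ha n (Nat.lt_succ_self n)
    have h3' := Polynomial.leadingCoeff_ne_zero.mpr h3
    obtain ⟨Q0, hQ0⟩ := ih (fun i hi => hb i (hi.trans (Nat.lt_succ_self n)))
      (fun i hi => ha i (hi.trans (Nat.lt_succ_self n)))
      ((lastVar n G).leadingCoeff * ((b n).map (map (algebraMap R k))).leadingCoeff *
        ((wr (a n) (b n)).map (map (algebraMap R k))).leadingCoeff)
      (mul_ne_zero (mul_ne_zero h1 h2') h3')
    refine ⟨max Q0 ((lastVar n G).natDegree + 4 * (a n).natDegree + 4 * (b n).natDegree + 1),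
      fun q hq hQ => ?_⟩
    obtain ⟨x, hx1, hx2, hx3, hx4⟩ := hQ0 q hq ((le_max_left _ _).trans hQ)
    have hQ' := (le_max_right _ _).trans hQ
    rw [map_mul, map_mul] at hx4
    have e1 : eval (fun j : Fin n => x j) (lastVar n G).leadingCoeff ≠ 0 := by
      intro h; apply hx4; rw [h]; ring
    have e2 : eval (fun j : Fin n => x j) ((b n).map (map (algebraMap R k))).leadingCoeff ≠ 0 := by
      intro h; apply hx4; rw [h]; ring
    have e3 : eval (fun j : Fin n => x j)
        ((wr (a n) (b n)).map (map (algebraMap R k))).leadingCoeff ≠ 0 := by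
      intro h; apply hx4; rw [h]; ring
    set g : Polynomial k := (lastVar n G).map (eval fun j : Fin n => x j) with hg
    set A : Polynomial k := (a n).map (E (R := R) x n : MvPolynomial (Fin n) R →+* k) with hA
    set B : Polynomial k := (b n).map (E (R := R) x n : MvPolynomial (Fin n) R →+* k) with hB
    have hne : ∀ P : Polynomial (MvPolynomial (Fin n) k),
        eval (fun j : Fin n => x j) P.leadingCoeff ≠ 0 →
        P.map (eval fun j : Fin n => x j) ≠ 0 := by
      intro P hP h
      apply hP
      have := congrArg (fun P' => P'.coeff P.natDegree) h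
      simpa [Polynomial.coeff_map] using this
    have hg0 : g ≠ 0 := hne _ e1
    have hB0 : B ≠ 0 := by
      rw [hB, EP_map]
      exact hne _ e2
    have hW : wr A B = ((wr (a n) (b n)).map (map (algebraMap R k))).map
          (eval fun j : Fin n => x j) := by
      rw [← EP_map, hA, hB]
      unfold wr
      simp only [Polynomial.map_sub, Polynomial.map_mul, Polynomial.derivative_map]
    have hW0 : wr A B ≠ 0 := by
      rw [hW]
      exact hne _ e3
    have hdeg : g.natDegree + 4 * A.natDegree + 4 * B.natDegree < q := by
      have d1 : g.natDegree ≤ (lastVar n G).natDegree := Polynomial.natDegree_map_le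
      have d2 : A.natDegree ≤ (a n).natDegree := Polynomial.natDegree_map_le
      have d3 : B.natDegree ≤ (b n).natDegree := Polynomial.natDegree_map_le
      omega
    obtain ⟨y, hy1, hy2, hy3, hy4⟩ := root_exists p q hq A B g hB0 hW0 hg0 hdeg
    have hlow : ∀ i, i ≤ n → ∀ j < i, (Function.update x n y) j = x j := by
      intro i hi j hj
      rw [Function.update_of_ne (by omega)]
    have hsame : ∀ i < n, (Function.update x n y) i = x i := fun i hi =>
      Function.update_of_ne (by omega) _ _
    have hEP : ∀ i, i ≤ n → ∀ (f : Polynomial (MvPolynomial (Fin i) R)) (z : k),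
        EP (Function.update x n y) i f z = EP x i f z := fun i hi f z => EP_congr (hlow i hi) f z
    refine ⟨Function.update x n y, ?_, ?_, ?_, ?_⟩
    · intro i hi
      rcases Nat.lt_succ_iff_lt_or_eq.mp hi with h | h
      · rw [hEP i h.le, hEP i h.le, hsame i h]; exact hx1 i h
      · subst h
        rw [hEP i le_rfl, hEP i le_rfl, Function.update_self]
        exact hy1
    · intro i hi
      rcases Nat.lt_succ_iff_lt_or_eq.mp hi with h | h
      · rw [hEP i h.le, hsame i h]; exact hx2 i h
      · subst h
        rw [hEP i le_rfl, Function.update_self]; exact hy3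
    · intro i hi
      rcases Nat.lt_succ_iff_lt_or_eq.mp hi with h | h
      · rw [hEP i h.le, hsame i h]; exact hx3 i h
      · subst h
        rw [hEP i le_rfl, Function.update_self]
        unfold EP
        rw [EP_map, ← hW]
        exact hy4
    · rw [eval_lastVar, Function.update_self]
      have : (fun j : Fin n => (Function.update x n y) j) = fun j : Fin n => x j := by
        funext j
        exact hsame j j.2
      rw [this]
      exact hy2

end Point

end Pool.Agent.MP_b6294e
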