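import Pool.Agent.Lib.MP_b6294e.MoebiusInv
import Pool.Agent.Lib.MP_b6294e.ResPoint

/-!
# The tower of rational function fields
-/

namespace Pool.Agent.MP_b6294e

open MvPolynomial

section

variable (K : Type*) [Field K]

/-- The rational function field in `n` variables. -/
abbrev FF (n : ℕ) := FractionRing (MvPolynomial (Fin n) K)

/-- The coordinates. -/
noncomputable def cA (n : ℕ) (i : ℕ) : MvPolynomial (Fin n) K :=
  if h : i < n then X ⟨i, h⟩ else 0

/-- The coordinate functions. -/
noncomputable def cx (n : ℕ) (i : ℕ) : FF K n := algebraMap (MvPolynomial (Fin n) K) (FF K n) (cA K n i)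

theorem incl_injective {n N : ℕ} (h : n ≤ N) : Function.Injective
    ((Algebra.ofId (MvPolynomial (Fin N) K) (FF K N)).restrictScalars K |>.comp
      (rename (Fin.castLE h)) : MvPolynomial (Fin n) K →ₐ[K] FF K N) := by
  intro x y hxy
  apply rename_injective _ (Fin.castLE_injective h)
  exact IsFractionRing.injective (MvPolynomial (Fin N) K) (FF K N) hxy

/-- The inclusion of function fields. -/
noncomputable def J {n N : ℕ} (h : n ≤ N) : FF K n →ₐ[K] FF K N :=
  IsFractionRing.liftAlgHom (incl_injective K h)

theorem J_algebraMap {n N : ℕ} (h : n ≤ N) (P : MvPolynomial (Fin n) K) :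
    J K h (algebraMap _ (FF K n) P) = algebraMap _ (FF K N) (rename (Fin.castLE h) P) := by
  unfold J
  rw [IsFractionRing.liftAlgHom_apply, IsFractionRing.lift_algebraMap]
  rfl

theorem J_cx {n N : ℕ} (h : n ≤ N) {i : ℕ} (hi : i < n) : J K h (cx K n i) = cx K N i := by
  unfold cx
  rw [J_algebraMap]
  congr 1
  unfold cA
  rw [dif_pos hi, dif_pos (hi.trans_le h), rename_X]
  rfl

variable {K}

theorem exists_denom {A L : Type*} [CommRing A] [IsDomain A] [Field L] [Algebra A L]
    [IsFractionRing A L] (p : Polynomial L) : ∃ (s : A) (P : Polynomial A), s ≠ 0 ∧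
      P.map (algebraMap A L) = Polynomial.C (algebraMap A L s) * p := by
  induction p using Polynomial.induction_on' with
  | add p q hp hq =>
    obtain ⟨s, P, hs, hP⟩ := hp
    obtain ⟨s', P', hs', hP'⟩ := hq
    refine ⟨s * s', Polynomial.C s' * P + Polynomial.C s * P', mul_ne_zero hs hs', ?_⟩
    simp only [Polynomial.map_add, Polynomial.map_mul, Polynomial.map_C, hP, hP', map_mul]
    ring
  | monomial n c =>
    obtain ⟨r1, r2, hr2, hr⟩ := IsFractionRing.div_surjective (A := A) c
    have hr20 : r2 ≠ 0 := nonZeroDivisors.ne_zero hr2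
    have hr2' : algebraMap A L r2 ≠ 0 := by
      rw [Ne, map_eq_zero_iff _ (IsFractionRing.injective A L)]; exact hr20
    refine ⟨r2, Polynomial.monomial n r1, hr20, ?_⟩
    rw [Polynomial.map_monomial, Polynomial.C_mul_monomial, ← hr]
    congr 1
    field_simp

/-- The next coordinate is transcendental. -/
theorem cx_transcendental [Infinite K] {n N : ℕ} (h : n < N) (p : Polynomial (FF K n))
    (hp : p.eval₂ (J K h.le : FF K n →+* FF K N) (cx K N n) = 0) : p = 0 := by
  obtain ⟨s, P, hs, hP⟩ := exists_denom (A := MvPolynomial (Fin n) K) p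
  have hs' : algebraMap (MvPolynomial (Fin n) K) (FF K n) s ≠ 0 := by
    rw [Ne, map_eq_zero_iff _ (IsFractionRing.injective _ (FF K n))]; exact hs
  have h1 : (P.map (algebraMap _ (FF K n))).eval₂ (J K h.le : FF K n →+* FF K N) (cx K N n) =
      0 := by
    rw [hP, Polynomial.eval₂_mul, hp, mul_zero]
  have h2 : P.eval₂ (rename (Fin.castLE h.le) : MvPolynomial (Fin n) K →ₐ[K] _).toRingHom
      (cA K N n) = 0 := by
    apply IsFractionRing.injective (MvPolynomial (Fin N) K) (FF K N)
    rw [map_zero, ← h1, Polynomial.eval₂_map, Polynomial.hom_eval₂]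
    congr 1
    ext x
    · simp only [AlgHom.toRingHom_eq_coe, RingHom.coe_comp, Function.comp_apply]
      exact (J_algebraMap K h.le _).symm
    · simp only [AlgHom.toRingHom_eq_coe, RingHom.coe_comp, Function.comp_apply]
      exact (J_algebraMap K h.le _).symm
  have hP0 : P = 0 := by
    by_contra hne
    obtain ⟨j, hj⟩ : ∃ j, P.coeff j ≠ 0 := by
      by_contra hcon
      push Not at hcon
      exact hne (Polynomial.ext (by simpa using hcon))
    obtain ⟨z, hz⟩ : ∃ z : Fin n → K, eval z (P.coeff j) ≠ 0 := by
      by_contra hcon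
      push Not at hcon
      exact hj (MvPolynomial.funext (by simpa using hcon))
    have h3 : P.map (eval z) ≠ 0 := by
      intro h0
      apply hz
      rw [← Polynomial.coeff_map, h0, Polynomial.coeff_zero]
    obtain ⟨y, hy⟩ : ∃ y : K, (P.map (eval z)).eval y ≠ 0 := by
      by_contra hcon
      push Not at hcon
      exact h3 (Polynomial.funext (by simpa using hcon))
    apply hy
    let w : Fin N → K := fun i => if h' : (i : ℕ) < n then z ⟨i, h'⟩ else y
    have h4 := congrArg (eval w) h2
    rw [Polynomial.hom_eval₂, map_zero] at h4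
    have h5 : eval w (cA K N n) = y := by
      unfold cA
      rw [dif_pos h, eval_X]
      simp [w]
    have h6 : (eval w).comp (rename (Fin.castLE h.le) : MvPolynomial (Fin n) K →ₐ[K] _).toRingHom
        = eval z := by
      ext x
      · simp
      · simp [w]
    rw [h5, h6] at h4
    rw [Polynomial.eval_map]
    exact h4
  rw [hP0, Polynomial.map_zero] at hP
  have := (mul_eq_zero.mp hP.symm).resolve_left (by simpa using hs)
  exact this

end

end Pool.Agent.MP_b6294e
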