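import Mathlib

/-!
# Moebius fibre maps: semi-invariant polynomials

`Hm a b k P` is the polynomial `b ^ k * P (a / b)` (for `P` of degree at most `k`).
-/

namespace Pool.Agent.MP_b6294e

open Polynomial

section Hm

variable {S : Type*} [CommRing S]

/-- `b ^ k * P (a / b)`. -/
noncomputable def Hm (a b : S[X]) (k : ℕ) (P : S[X]) : S[X] :=
  ∑ j ∈ Finset.range (k + 1), C (P.coeff j) * a ^ j * b ^ (k - j)

theorem Hm_hom {S' : Type*} [CommRing S'] (χ : S[X] →+* S') (a b : S[X]) (k : ℕ) (P : S[X])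
    (hP : P.natDegree ≤ k) (f : S') (hf : f * χ b = χ a) :
    χ (Hm a b k P) = χ b ^ k * P.eval₂ (χ.comp C) f := by
  rw [eval₂_eq_sum_range' _ (Nat.lt_succ_of_le hP), Finset.mul_sum]
  unfold Hm
  rw [map_sum]
  refine Finset.sum_congr rfl fun j hj => ?_
  have hj' : j ≤ k := Nat.lt_succ_iff.mp (Finset.mem_range.mp hj)
  have h1 : χ b ^ k = χ b ^ j * χ b ^ (k - j) := by rw [← pow_add, Nat.add_sub_cancel' hj']
  rw [map_mul, map_mul, map_pow, map_pow, ← hf, h1, mul_pow]
  simp only [RingHom.comp_apply]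
  ring

theorem Hm_map {S' : Type*} [CommRing S'] (φ : S →+* S') (a b : S[X]) (k : ℕ) (P : S[X]) :
    (Hm a b k P).map φ = Hm (a.map φ) (b.map φ) k (P.map φ) := by
  unfold Hm
  simp [Polynomial.map_sum]

theorem Hm_natDegree (a b : S[X]) (ha : a.natDegree ≤ 1) (hb : b.natDegree ≤ 1) (k : ℕ)
    (P : S[X]) : (Hm a b k P).natDegree ≤ k := by
  unfold Hm
  refine natDegree_sum_le_of_forall_le _ _ fun j hj => ?_
  have hj' : j ≤ k := Nat.lt_succ_iff.mp (Finset.mem_range.mp hj)
  refine natDegree_mul_le.trans ?_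
  have h1 : (C (P.coeff j) * a ^ j).natDegree ≤ j := by
    refine (natDegree_C_mul_le _ _).trans ?_
    exact (natDegree_pow_le_of_le j ha).trans (by omega)
  have h2 : (b ^ (k - j)).natDegree ≤ k - j := (natDegree_pow_le_of_le _ hb).trans (by omega)
  omega

theorem Hm_mod (a b : S[X]) (k : ℕ) (P : S[X]) :
    ∃ w, Hm a b k P = C (P.coeff k) * a ^ k + b * w := by
  refine ⟨∑ j ∈ Finset.range k, C (P.coeff j) * a ^ j * b ^ (k - j - 1), ?_⟩
  unfold Hm
  rw [Finset.sum_range_succ, Nat.sub_self, pow_zero, mul_one, add_comm, Finset.mul_sum]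
  congr 1
  refine Finset.sum_congr rfl fun j hj => ?_
  have hj' : k - j = (k - j - 1) + 1 := by
    have := Finset.mem_range.mp hj
    omega
  conv_lhs => rw [hj', pow_succ]
  ring

theorem Hm_smul (a b : S[X]) (k : ℕ) (c : S) (P : S[X]) :
    Hm a b k (C c * P) = C c * Hm a b k P := by
  unfold Hm
  rw [Finset.mul_sum]
  refine Finset.sum_congr rfl fun j _ => ?_
  rw [coeff_C_mul, C_mul]
  ring

end Hm

section Field

variable {L : Type*} [Field L]

/-- `a / b` as an element of the rational function field. -/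
noncomputable def fr (a b : L[X]) : FractionRing L[X] :=
  algebraMap L[X] (FractionRing L[X]) a / algebraMap L[X] (FractionRing L[X]) b

/-- the data of an invertible Moebius map -/
structure Moeb (a b : L[X]) : Prop where
  ex : ∃ a1 a0 b1 b0 : L, a = C a1 * X + C a0 ∧ b = C b1 * X + C b0 ∧ a1 * b0 - a0 * b1 ≠ 0

variable {a b : L[X]}

theorem Moeb.natDegree_a (h : Moeb a b) : a.natDegree ≤ 1 := by
  obtain ⟨a1, a0, b1, b0, rfl, -, -⟩ := h.ex
  exact natDegree_linear_le

theorem Moeb.natDegree_b (h : Moeb a b) : b.natDegree ≤ 1 := by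
  obtain ⟨a1, a0, b1, b0, -, rfl, -⟩ := h.ex
  exact natDegree_linear_le

theorem Moeb.b_ne_zero (h : Moeb a b) : b ≠ 0 := by
  obtain ⟨a1, a0, b1, b0, -, rfl, hd⟩ := h.ex
  intro h0
  have h1 : b1 = 0 := by simpa using congrArg (fun P => P.coeff 1) h0
  have h2 : b0 = 0 := by simpa using congrArg (fun P => P.coeff 0) h0
  apply hd
  rw [h1, h2]
  ring

theorem Moeb.isCoprime (h : Moeb a b) : IsCoprime a b := by
  obtain ⟨a1, a0, b1, b0, rfl, rfl, hd⟩ := h.ex
  refine ⟨C (-b1 / (a1 * b0 - a0 * b1)), C (a1 / (a1 * b0 - a0 * b1)), ?_⟩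
  have h1 : (C (-b1 / (a1 * b0 - a0 * b1)) * (C a1 * X + C a0) +
      C (a1 / (a1 * b0 - a0 * b1)) * (C b1 * X + C b0) : L[X]) =
      C ((-b1 / (a1 * b0 - a0 * b1)) * a1 + (a1 / (a1 * b0 - a0 * b1)) * b1) * X +
      C ((-b1 / (a1 * b0 - a0 * b1)) * a0 + (a1 / (a1 * b0 - a0 * b1)) * b0) := by
    simp only [C_add, C_mul]
    ring
  rw [h1]
  have h2 : (-b1 / (a1 * b0 - a0 * b1)) * a1 + (a1 / (a1 * b0 - a0 * b1)) * b1 = 0 := by
    field_simp
    ring
  have h3 : (-b1 / (a1 * b0 - a0 * b1)) * a0 + (a1 / (a1 * b0 - a0 * b1)) * b0 = 1 := by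
    have : (-b1 / (a1 * b0 - a0 * b1)) * a0 + (a1 / (a1 * b0 - a0 * b1)) * b0 =
        (a1 * b0 - a0 * b1) / (a1 * b0 - a0 * b1) := by ring
    rw [this, div_self hd]
  rw [h2, h3]
  simp

theorem Moeb.transcendental (h : Moeb a b) : Transcendental L (fr a b) := by
  have hb0 := h.b_ne_zero
  obtain ⟨a1, a0, b1, b0, ha, hb, hd⟩ := h.ex
  intro halg
  have hb' : algebraMap L[X] (FractionRing L[X]) b ≠ 0 := by
    rw [Ne, map_eq_zero_iff _ (IsFractionRing.injective L[X] (FractionRing L[X]))]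
    exact hb0
  have e1 : (C b0 * a - C a0 * b : L[X]) = C (a1 * b0 - a0 * b1) * X := by
    rw [ha, hb]
    simp only [C_sub, C_mul]
    ring
  have e2 : (C a1 * b - C b1 * a : L[X]) = C (a1 * b0 - a0 * b1) := by
    rw [ha, hb]
    simp only [C_sub, C_mul]
    ring
  have e1' := congrArg (algebraMap L[X] (FractionRing L[X])) e1
  have e2' := congrArg (algebraMap L[X] (FractionRing L[X])) e2
  simp only [map_sub, map_mul] at e1' e2'
  have hD : algebraMap L[X] (FractionRing L[X]) (C (a1 * b0 - a0 * b1)) ≠ 0 := by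
    rw [Ne, map_eq_zero_iff _ (IsFractionRing.injective L[X] (FractionRing L[X])), C_eq_zero]
    exact hd
  have hX : algebraMap L[X] (FractionRing L[X]) X =
      (algebraMap L (FractionRing L[X]) b0 * fr a b - algebraMap L (FractionRing L[X]) a0) /
      (algebraMap L (FractionRing L[X]) a1 - algebraMap L (FractionRing L[X]) b1 * fr a b) := by
    have hC : ∀ c : L, algebraMap L (FractionRing L[X]) c =
        algebraMap L[X] (FractionRing L[X]) (C c) := fun c => by
      rw [IsScalarTower.algebraMap_apply L L[X] (FractionRing L[X])]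
      rfl
    have h1 : (algebraMap L (FractionRing L[X]) a1 -
        algebraMap L (FractionRing L[X]) b1 * fr a b) *
        algebraMap L[X] (FractionRing L[X]) b =
        algebraMap L[X] (FractionRing L[X]) (C (a1 * b0 - a0 * b1)) := by
      rw [hC, hC, fr, sub_mul, mul_assoc, div_mul_cancel₀ _ hb', e2']
      simp only [map_sub, map_mul]
    have h2 : (algebraMap L (FractionRing L[X]) b0 * fr a b -
        algebraMap L (FractionRing L[X]) a0) *
        algebraMap L[X] (FractionRing L[X]) b =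
        algebraMap L[X] (FractionRing L[X]) (C (a1 * b0 - a0 * b1)) *
        algebraMap L[X] (FractionRing L[X]) X := by
      rw [hC, hC, fr, sub_mul, mul_assoc, div_mul_cancel₀ _ hb', e1']
      simp only [map_sub, map_mul]
    have h3 : (algebraMap L (FractionRing L[X]) a1 -
        algebraMap L (FractionRing L[X]) b1 * fr a b) ≠ 0 := by
      intro h0
      rw [h0, zero_mul] at h1
      exact hD h1.symm
    rw [eq_div_iff h3]
    apply mul_right_cancel₀ hb'
    rw [mul_assoc, h1, h2, mul_comm]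
  have hXalg : IsAlgebraic L (algebraMap L[X] (FractionRing L[X]) X) := by
    rw [hX, div_eq_mul_inv]
    exact (((isAlgebraic_algebraMap b0).mul halg).sub (isAlgebraic_algebraMap a0)).mul
      ((isAlgebraic_algebraMap a1).sub ((isAlgebraic_algebraMap b1).mul halg)).inv
  rw [isAlgebraic_algebraMap_iff (IsFractionRing.injective L[X] (FractionRing L[X]))] at hXalg
  exact Polynomial.transcendental_X (R := L) hXalg

/-- the value in the rational function field -/
theorem Hm_fr (h : Moeb a b) (k : ℕ) (P : L[X]) (hP : P.natDegree ≤ k) :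
    algebraMap L[X] (FractionRing L[X]) (Hm a b k P) =
      algebraMap L[X] (FractionRing L[X]) b ^ k * aeval (fr a b) P := by
  have hb' : algebraMap L[X] (FractionRing L[X]) b ≠ 0 := by
    rw [Ne, map_eq_zero_iff _ (IsFractionRing.injective L[X] (FractionRing L[X]))]
    exact h.b_ne_zero
  rw [Hm_hom (algebraMap L[X] (FractionRing L[X])) a b k P hP (fr a b)
    (div_mul_cancel₀ _ hb')]
  congr 1

theorem Hm_ne_zero (h : Moeb a b) (k : ℕ) (P : L[X]) (hP : P.natDegree ≤ k) (hP0 : P ≠ 0) :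
    Hm a b k P ≠ 0 := by
  intro h0
  have h1 := Hm_fr h k P hP
  have hb' : algebraMap L[X] (FractionRing L[X]) b ≠ 0 := by
    rw [Ne, map_eq_zero_iff _ (IsFractionRing.injective L[X] (FractionRing L[X]))]
    exact h.b_ne_zero
  rw [h0, map_zero] at h1
  have h2 := (mul_eq_zero.mp h1.symm).resolve_left (pow_ne_zero _ hb')
  exact h.transcendental ⟨P, hP0, h2⟩

theorem Hm_mul (h : Moeb a b) (k l : ℕ) (P Q : L[X]) (hP : P.natDegree ≤ k)
    (hQ : Q.natDegree ≤ l) : Hm a b (k + l) (P * Q) = Hm a b k P * Hm a b l Q := by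
  apply IsFractionRing.injective L[X] (FractionRing L[X])
  rw [map_mul, Hm_fr h _ _ (natDegree_mul_le.trans (by omega)), Hm_fr h _ _ hP, Hm_fr h _ _ hQ,
    map_mul, pow_add]
  ring

/-- semi-invariant polynomials -/
def Semi (σ : L →+* L) (a b p : L[X]) : Prop :=
  p ≠ 0 ∧ ∃ c : L, c ≠ 0 ∧ Hm a b p.natDegree (p.map σ) = C c * p

theorem Semi.mk' (h : Moeb a b) {σ : L →+* L} {p : L[X]} (hp : p ≠ 0)
    (hd : p ∣ Hm a b p.natDegree (p.map σ)) : Semi σ a b p := by
  refine ⟨hp, ?_⟩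
  obtain ⟨w, hw⟩ := hd
  have h1 : Hm a b p.natDegree (p.map σ) ≠ 0 :=
    Hm_ne_zero h _ _ (natDegree_map_le) ((Polynomial.map_ne_zero_iff σ.injective).mpr hp)
  have hw0 : w ≠ 0 := by
    rintro rfl
    rw [mul_zero] at hw
    exact h1 hw
  have h2 := Hm_natDegree a b h.natDegree_a h.natDegree_b p.natDegree (p.map σ)
  rw [hw, natDegree_mul hp hw0] at h2
  have h3 : w.natDegree = 0 := by omega
  rw [eq_C_of_natDegree_eq_zero h3] at hw hw0
  refine ⟨w.coeff 0, by simpa using hw0, ?_⟩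
  rw [hw, mul_comm]

theorem Semi.mul (h : Moeb a b) {σ : L →+* L} {p q : L[X]} (hp : Semi σ a b p)
    (hq : Semi σ a b q) : Semi σ a b (p * q) := by
  obtain ⟨hp0, c, hc, hp⟩ := hp
  obtain ⟨hq0, d, hd, hq⟩ := hq
  refine ⟨mul_ne_zero hp0 hq0, c * d, mul_ne_zero hc hd, ?_⟩
  rw [natDegree_mul hp0 hq0, Polynomial.map_mul, Hm_mul h _ _ _ _ natDegree_map_le
    natDegree_map_le, hp, hq, C_mul]
  ring

theorem Semi.of_mul (h : Moeb a b) {σ : L →+* L} {p q : L[X]} (hpq : Semi σ a b (p * q))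
    (hp : Semi σ a b p) : Semi σ a b q := by
  obtain ⟨hpq0, c, hc, hpq⟩ := hpq
  obtain ⟨hp0, d, hd, hp⟩ := hp
  have hq0 : q ≠ 0 := right_ne_zero_of_mul hpq0
  refine Semi.mk' h hq0 ⟨C (c / d), ?_⟩
  rw [natDegree_mul hp0 hq0, Polynomial.map_mul, Hm_mul h _ _ _ _ natDegree_map_le
    natDegree_map_le, hp] at hpq
  have h1 : C d * p ≠ 0 := mul_ne_zero (by simpa using hd) hp0
  apply mul_left_cancel₀ h1
  rw [hpq]
  have : c = d * (c / d) := by field_simp
  conv_lhs => rw [this, C_mul]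
  ring

theorem Semi.gcd [DecidableEq L] (h : Moeb a b) {σ : L →+* L} {p q : L[X]}
    (hp : Semi σ a b p) (hq : Semi σ a b q) : Semi σ a b (EuclideanDomain.gcd p q) := by
  have hg0 : EuclideanDomain.gcd p q ≠ 0 := by
    intro h0
    exact hp.1 (EuclideanDomain.gcd_eq_zero_iff.mp h0).1
  set g := EuclideanDomain.gcd p q with hg
  set G := Hm a b g.natDegree (g.map σ) with hG
  have hG0 : G ≠ 0 := Hm_ne_zero h _ _ natDegree_map_le
    ((Polynomial.map_ne_zero_iff σ.injective).mpr hg0)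
  have key : ∀ f : L[X], Semi σ a b f → g ∣ f → G ∣ f ∧ G.natDegree = g.natDegree := by
    rintro f ⟨hf0, c, hc, hf⟩ ⟨f', hf'⟩
    have hf'0 : f' ≠ 0 := by
      rintro rfl
      rw [mul_zero] at hf'
      exact hf0 hf'
    have e1 : G * Hm a b f'.natDegree (f'.map σ) = C c * f := by
      rw [← hf, hf', natDegree_mul hg0 hf'0, Polynomial.map_mul, Hm_mul h _ _ _ _ natDegree_map_le
        natDegree_map_le]
    have hF0 : Hm a b f'.natDegree (f'.map σ) ≠ 0 := Hm_ne_zero h _ _ natDegree_map_le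
      ((Polynomial.map_ne_zero_iff σ.injective).mpr hf'0)
    constructor
    · have : f = G * (C c⁻¹ * Hm a b f'.natDegree (f'.map σ)) := by
        have e2 : C c⁻¹ * (C c * f) = f := by
          rw [← mul_assoc, ← C_mul, inv_mul_cancel₀ hc, C_1, one_mul]
        rw [← e2, ← e1]
        ring
      exact ⟨_, this⟩
    · have e3 := congrArg natDegree e1
      rw [natDegree_mul hG0 hF0, natDegree_C_mul hc, hf', natDegree_mul hg0 hf'0] at e3
      have e4 : G.natDegree ≤ g.natDegree :=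
        Hm_natDegree a b h.natDegree_a h.natDegree_b g.natDegree (g.map σ)
      have e5 := Hm_natDegree a b h.natDegree_a h.natDegree_b f'.natDegree (f'.map σ)
      omega
  obtain ⟨k1, k2⟩ := key p hp (EuclideanDomain.gcd_dvd_left p q)
  obtain ⟨k3, -⟩ := key q hq (EuclideanDomain.gcd_dvd_right p q)
  obtain ⟨w, hw⟩ : G ∣ g := EuclideanDomain.dvd_gcd k1 k3
  have hw0 : w ≠ 0 := by
    rintro rfl
    rw [mul_zero] at hw
    exact hg0 hw
  have h3 : w.natDegree = 0 := by
    have := congrArg natDegree hw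
    rw [natDegree_mul hG0 hw0] at this
    omega
  rw [eq_C_of_natDegree_eq_zero h3] at hw hw0
  have hw0' : w.coeff 0 ≠ 0 := by simpa using hw0
  refine Semi.mk' h hg0 ⟨C (w.coeff 0)⁻¹, ?_⟩
  change G = _
  conv_rhs => rw [hw]
  rw [mul_assoc, ← C_mul, mul_inv_cancel₀ hw0', C_1, mul_one]

/-- a semi-invariant polynomial vanishing at `y`, coprime to a given one not vanishing at `y` -/
theorem Semi.exists_coprime {F : Type*} [Field F] (φ : L →+* F) (h : Moeb a b) {σ : L →+* L}
    (y : F) (P : L[X]) (hP : Semi σ a b P) (hPy : P.eval₂ φ y ≠ 0) (s : L[X])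
    (hs : Semi σ a b s) (hsy : s.eval₂ φ y = 0) :
    ∃ q, Semi σ a b q ∧ IsCoprime P q ∧ q.eval₂ φ y = 0 := by
  classical
  have hex : ∃ k, ∃ s : L[X], Semi σ a b s ∧ s.eval₂ φ y = 0 ∧ s.natDegree = k :=
    ⟨_, s, hs, hsy, rfl⟩
  obtain ⟨q, hq, hqy, hqk⟩ := Nat.find_spec hex
  have hmin : ∀ s : L[X], Semi σ a b s → s.eval₂ φ y = 0 → q.natDegree ≤ s.natDegree :=
    fun s h1 h2 => hqk ▸ Nat.find_min' hex ⟨s, h1, h2, rfl⟩
  refine ⟨q, hq, ?_, hqy⟩
  rw [← EuclideanDomain.gcd_isUnit_iff]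
  set g := EuclideanDomain.gcd P q with hg
  have hgS : Semi σ a b g := hP.gcd h hq
  obtain ⟨P', hP'⟩ : g ∣ P := EuclideanDomain.gcd_dvd_left P q
  obtain ⟨q', hq'⟩ : g ∣ q := EuclideanDomain.gcd_dvd_right P q
  have hgy : g.eval₂ φ y ≠ 0 := by
    intro h0
    apply hPy
    rw [hP', eval₂_mul, h0, zero_mul]
  have hq'y : q'.eval₂ φ y = 0 := by
    rw [hq', eval₂_mul] at hqy
    exact (mul_eq_zero.mp hqy).resolve_left hgy
  have hq'S : Semi σ a b q' := Semi.of_mul h (by rw [← hq']; exact hq) hgS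
  have h1 := hmin q' hq'S hq'y
  have h2 := congrArg natDegree hq'
  rw [natDegree_mul hgS.1 hq'S.1] at h2
  have h3 : g.natDegree = 0 := by omega
  rw [eq_C_of_natDegree_eq_zero h3, isUnit_C]
  have := hgS.1
  rw [eq_C_of_natDegree_eq_zero h3] at this
  exact IsUnit.mk0 _ (by simpa using this)

end Field

end Pool.Agent.MP_b6294e
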