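import Pool.Agent.Lib.MP_b6294e.MoebiusOrbit

/-!
# Moebius fibre maps: the invariant function
-/

namespace Pool.Agent.MP_b6294e

open Polynomial

section

universe u

variable {K : Type u} {A L : Type*} [Field K] [CommRing A] [IsDomain A] [Field L]
  [Algebra A L] [IsFractionRing A L]

omit [IsFractionRing A L] [Algebra A L] [Field L] in
theorem exists_big_field' {ev : ℕ → A →+* K} (hdens : ∀ a : A, (∀ t, ev t a = 0) → a = 0) :
    ∃ (G : Type u) (_ : Field G) (g : (ℕ → K) →+* G),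
      Function.Injective (g.comp (Pi.ringHom ev)) ∧
      ∀ f f' : ℕ → K, (∀ t, f t ≠ f' t) → g f ≠ g f' := by
  obtain ⟨𝒰, h𝒰⟩ := exists_big_field (ev := ev) hdens
  refine ⟨Filter.Germ (𝒰 : Filter ℕ) K, inferInstance, Filter.Germ.coeRingHom (𝒰 : Filter ℕ),
    ?_, ?_⟩
  · rw [injective_iff_map_eq_zero]
    intro x hx
    by_contra hx0
    rw [RingHom.comp_apply, Filter.Germ.coe_coeRingHom] at hx
    have h1 : ∀ᶠ t in (𝒰 : Filter ℕ), (Pi.ringHom ev x) t = (0 : ℕ → K) t :=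
      Filter.Germ.coe_eq.mp hx
    obtain ⟨t, ht1, ht2⟩ := (h1.and (h𝒰 x hx0)).exists
    exact ht2 ht1
  · intro f f' hff h
    rw [Filter.Germ.coe_coeRingHom] at h
    obtain ⟨t, ht⟩ := (Filter.Germ.coe_eq.mp h).exists
    exact hff t ht

/-- If infinitely many orbits in the fibres are not dense, then there is a semi-invariant
function whose multiplier is trivial up to a factor from the base. -/
theorem moebius_invariant {σ : L →+* L} {ev : ℕ → A →+* K} (hsh : Shift σ ev)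
    (hdens : ∀ a : A, (∀ t, ev t a = 0) → a = 0) (a b : A[X])
    (hab : Moeb (a.map (algebraMap A L)) (b.map (algebraMap A L))) (y : ℕ → ℕ → K)
    (hy : ∀ j t, y j (t + 1) * (b.map (ev t)).eval (y j t) = (a.map (ev t)).eval (y j t))
    (hinj : ∀ t i j, i ≠ j → y i t ≠ y j t)
    (hnd : ∀ j, ∃ P : A[X], P ≠ 0 ∧ ∀ t, (P.map (ev t)).eval (y j t) = 0) :
    ∃ (p q : L[X]) (c d r : L) (m : ℕ), IsCoprime p q ∧ 0 < p.natDegree ∧ 0 < q.natDegree ∧
      c ≠ 0 ∧ d ≠ 0 ∧ r ≠ 0 ∧ 0 < m ∧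
      Hm (a.map (algebraMap A L)) (b.map (algebraMap A L)) p.natDegree (p.map σ) = C c * p ∧
      Hm (a.map (algebraMap A L)) (b.map (algebraMap A L)) q.natDegree (q.map σ) = C d * q ∧
      σ r * d ^ (p.natDegree * m) = c ^ (q.natDegree * m) * r := by
  classical
  obtain ⟨G, _, g, hφA, hgne⟩ := exists_big_field' (ev := ev) hdens
  let φA : A →+* G := g.comp (Pi.ringHom ev)
  let φ : L →+* G := IsFractionRing.lift hφA
  have hφ : φ.comp (algebraMap A L) = φA := by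
    ext x
    exact IsFractionRing.lift_algebraMap hφA x
  let Y : ℕ → G := fun j => g (y j)
  have hY : Function.Injective Y := by
    intro i j hij
    by_contra hne
    exact hgne _ _ (fun t => hinj t i j hne) hij
  have hroot : ∀ (p : L[X]) (j : ℕ), InV ev (y j) p → p.eval₂ φ (Y j) = 0 := by
    rintro p j ⟨s, hs, P, hP, hv⟩
    have hs' : φ (algebraMap A L s) ≠ 0 := by
      rw [Ne, map_eq_zero_iff _ φ.injective, map_eq_zero_iff _ (IsFractionRing.injective A L)]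
      exact hs
    have h1 := congrArg (fun Q => Q.eval₂ φ (Y j)) hP
    simp only [eval₂_mul, eval₂_C, eval₂_map, hφ] at h1
    have h2 : P.eval₂ φA (Y j) = g (P.eval₂ (Pi.ringHom ev) (y j)) := by
      rw [hom_eval₂]
    have h3 : P.eval₂ (Pi.ringHom ev) (y j) = 0 := by
      funext t
      have h4 := hom_eval₂ P (Pi.ringHom ev) (Pi.evalRingHom (fun _ => K) t) (y j)
      rw [Pi.evalRingHom_apply] at h4
      rw [h4, Pi.zero_apply, ← hv t, eval_map]
      congr 1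
    rw [h2, h3, map_zero] at h1
    exact (mul_eq_zero.mp h1.symm).resolve_left hs'
  have hnonroot : ∀ P : L[X], P ≠ 0 → ∃ j, P.eval₂ φ (Y j) ≠ 0 := by
    intro P hP
    by_contra hcon
    push Not at hcon
    have h1 : (P.map φ) = 0 := by
      apply Polynomial.eq_zero_of_infinite_isRoot
      refine Set.infinite_of_injective_forall_mem hY fun j => ?_
      change (P.map φ).IsRoot (Y j)
      rw [IsRoot, eval_map]
      exact hcon j
    exact (Polynomial.map_ne_zero_iff φ.injective).mpr hP h1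
  have hdeg : ∀ (q : L[X]) (j : ℕ), q ≠ 0 → q.eval₂ φ (Y j) = 0 → 0 < q.natDegree := by
    intro q j hq hqj
    rw [Nat.pos_iff_ne_zero]
    intro h0
    rw [eq_C_of_natDegree_eq_zero h0, eval₂_C] at hqj
    rw [eq_C_of_natDegree_eq_zero h0] at hq
    apply hq
    rw [(map_eq_zero φ).mp hqj, C_0]
  obtain ⟨p1, hp1pos, hp1V, hp1⟩ := exists_min hsh hdens a b hab (hy 0) (hnd 0)
  obtain ⟨j2, hj2⟩ := hnonroot p1 hp1.1
  obtain ⟨s2, -, hs2V, hs2⟩ := exists_min hsh hdens a b hab (hy j2) (hnd j2)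
  obtain ⟨q2, hq2, hcop2, hq2y⟩ := Semi.exists_coprime φ hab (Y j2) p1 hp1 hj2 s2 hs2
    (hroot s2 j2 hs2V)
  obtain ⟨j3, hj3⟩ := hnonroot (p1 * q2) (mul_ne_zero hp1.1 hq2.1)
  obtain ⟨s3, -, hs3V, hs3⟩ := exists_min hsh hdens a b hab (hy j3) (hnd j3)
  obtain ⟨q3, hq3, hcop3, hq3y⟩ := Semi.exists_coprime φ hab (Y j3) (p1 * q2)
    (hp1.mul hab hq2) hj3 s3 hs3 (hroot s3 j3 hs3V)
  have hq2pos := hdeg q2 j2 hq2.1 hq2y
  have hq3pos := hdeg q3 j3 hq3.1 hq3y
  obtain ⟨ν, hν, hnorm⟩ := hq3.norm hab hq3pos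
  obtain ⟨-, c, hc, hpc⟩ := hp1
  obtain ⟨-, d, hd, hqd⟩ := hq2
  obtain ⟨N1, hN1, hN1'⟩ := hnorm p1 c hpc hcop3.of_mul_left_left.symm
  obtain ⟨N2, hN2, hN2'⟩ := hnorm q2 d hqd hcop3.of_mul_left_right.symm
  refine ⟨p1, q2, c, d, N1 ^ q2.natDegree / N2 ^ p1.natDegree, q3.natDegree, hcop2, hp1pos,
    hq2pos, hc, hd, div_ne_zero (pow_ne_zero _ hN1) (pow_ne_zero _ hN2), hq3pos, hpc, hqd, ?_⟩
  have hσ2 : σ N2 ≠ 0 := (map_ne_zero σ).mpr hN2
  have e1 := congrArg (fun z => z ^ q2.natDegree) hN1'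
  have e2 := congrArg (fun z => z ^ p1.natDegree) hN2'
  simp only [mul_pow, ← pow_mul] at e1 e2
  rw [map_div₀, map_pow, map_pow, div_mul_eq_mul_div, mul_div_assoc',
    div_eq_div_iff (pow_ne_zero _ hσ2) (pow_ne_zero _ hN2)]
  apply mul_left_cancel₀ (pow_ne_zero (p1.natDegree * q2.natDegree) hν)
  rw [mul_comm q2.natDegree p1.natDegree] at e2
  rw [mul_comm p1.natDegree q3.natDegree, mul_comm q2.natDegree q3.natDegree]
  linear_combination (d ^ (q3.natDegree * p1.natDegree) * N2 ^ p1.natDegree) * e1 -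
    (c ^ (q3.natDegree * q2.natDegree) * N1 ^ q2.natDegree) * e2

end

end Pool.Agent.MP_b6294e
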