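import Pool.Agent.Lib.MP_b6294e.Moebius

/-!
# Moebius fibre maps: norms
-/

namespace Pool.Agent.MP_b6294e

open Polynomial

theorem norm_semilinear {L B : Type*} [Field L] [CommRing B] [Algebra L B] {m : ℕ}
    (e : Module.Basis (Fin m) L B) (σ : L →+* L) (ψ : B →+* B)
    (hψ : ∀ c, ψ (algebraMap L B c) = algebraMap L B (σ c))
    (hli : LinearIndependent L (fun i => ψ (e i))) (g : B) :
    Algebra.norm L (ψ g) = σ (Algebra.norm L g) := by
  classical
  have hcard : Fintype.card (Fin m) = Module.finrank L B := by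
    rw [Module.finrank_eq_card_basis e]
  set e' : Module.Basis (Fin m) L B := by
    by_cases hm : Nonempty (Fin m)
    · exact basisOfLinearIndependentOfCardEqFinrank hli hcard
    · exact e with he'
  have he : ∀ i, e' i = ψ (e i) := by
    intro i
    have hm : Nonempty (Fin m) := ⟨i⟩
    rw [he', dif_pos hm]
    simp
  rw [Algebra.norm_eq_matrix_det e' (ψ g), Algebra.norm_eq_matrix_det e g, RingHom.map_det]
  congr 1
  ext i j
  rw [Algebra.leftMulMatrix_eq_repr_mul]
  have h1 : ψ g * e' j = ∑ i, (σ.mapMatrix (Algebra.leftMulMatrix e g)) i j • e' i := by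
    rw [he, ← map_mul, ← e.sum_repr (g * e j), map_sum]
    refine Finset.sum_congr rfl fun i _ => ?_
    rw [Algebra.smul_def, map_mul, hψ, he, RingHom.mapMatrix_apply, Matrix.map_apply,
      Algebra.leftMulMatrix_eq_repr_mul, Algebra.smul_def]
  rw [h1, e'.repr_sum_self]

variable {L : Type*} [Field L] {a b : L[X]}

theorem Semi.norm (h : Moeb a b) {σ : L →+* L} {p : L[X]} (hp : Semi σ a b p)
    (hpos : 0 < p.natDegree) :
    ∃ ν : L, ν ≠ 0 ∧ ∀ (q : L[X]) (c : L), Hm a b q.natDegree (q.map σ) = C c * q →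
      IsCoprime p q → ∃ N : L, N ≠ 0 ∧ ν ^ q.natDegree * σ N = c ^ p.natDegree * N := by
  classical
  obtain ⟨hp0, d, hd, hp⟩ := hp
  -- `b` is a unit modulo `p`
  have hbp : IsCoprime b p := by
    obtain ⟨w, hw⟩ := Hm_mod a b p.natDegree (p.map σ)
    have h1 : IsCoprime b (C ((p.map σ).coeff p.natDegree) * a ^ p.natDegree) := by
      apply IsCoprime.mul_right
      · have h2 : (p.map σ).coeff p.natDegree ≠ 0 := by
          rw [coeff_map]
          exact (map_ne_zero σ).mpr (leadingCoeff_ne_zero.mpr hp0)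
        have h3 : IsUnit (C ((p.map σ).coeff p.natDegree) : L[X]) :=
          isUnit_C.mpr (IsUnit.mk0 _ h2)
        obtain ⟨w', hw'⟩ := h3.exists_left_inv
        exact ⟨0, w', by rw [zero_mul, zero_add, hw']⟩
      · exact (h.isCoprime.symm).pow_right
    have h2 : IsCoprime b (C d * p) := by
      rw [← hp, hw]
      exact (IsCoprime.add_mul_left_right h1 w)
    exact h2.of_mul_right_right
  have hunit : IsUnit (AdjoinRoot.mk p b) := by
    obtain ⟨u, v, huv⟩ := hbp
    refine IsUnit.of_mul_eq_one (AdjoinRoot.mk p u) ?_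
    rw [← map_mul, mul_comm, ← map_one (AdjoinRoot.mk p), AdjoinRoot.mk_eq_mk]
    exact ⟨-v, by linear_combination huv⟩
  obtain ⟨β, hβ⟩ := hunit
  set θ : AdjoinRoot p := (↑β⁻¹ : AdjoinRoot p) * AdjoinRoot.mk p a with hθ
  have hθb : θ * AdjoinRoot.mk p b = AdjoinRoot.mk p a := by
    rw [hθ, ← hβ, mul_comm, Units.mul_inv_cancel_left]
  have hcomp : (AdjoinRoot.mk p).comp C = algebraMap L (AdjoinRoot p) := rfl
  have hHm : ∀ (k : ℕ) (P : L[X]), P.natDegree ≤ k → AdjoinRoot.mk p (Hm a b k P) =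
      AdjoinRoot.mk p b ^ k * P.eval₂ (algebraMap L (AdjoinRoot p)) θ := by
    intro k P hP
    rw [Hm_hom (AdjoinRoot.mk p) a b k P hP θ hθb, hcomp]
  have hψ0 : p.eval₂ ((algebraMap L (AdjoinRoot p)).comp σ) θ = 0 := by
    have h1 := hHm p.natDegree (p.map σ) natDegree_map_le
    rw [hp, map_mul, AdjoinRoot.mk_self, mul_zero, eval₂_map] at h1
    have h2 : IsUnit (AdjoinRoot.mk p b ^ p.natDegree) := (hβ ▸ β.isUnit).pow _
    exact (h2.mul_right_eq_zero.mp h1.symm)
  let ψ : AdjoinRoot p →+* AdjoinRoot p :=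
    AdjoinRoot.lift ((algebraMap L (AdjoinRoot p)).comp σ) θ hψ0
  have hψC : ∀ c, ψ (algebraMap L (AdjoinRoot p) c) = algebraMap L (AdjoinRoot p) (σ c) := by
    intro c
    exact AdjoinRoot.lift_of hψ0
  have hψmk : ∀ q : L[X], ψ (AdjoinRoot.mk p q) =
      q.eval₂ ((algebraMap L (AdjoinRoot p)).comp σ) θ := fun q => AdjoinRoot.lift_mk hψ0 q
  have hli : LinearIndependent L (fun i => ψ ((AdjoinRoot.powerBasis hp0).basis i)) := by
    rw [Fintype.linearIndependent_iff]
    intro g hg i
    have hbas : ∀ i, ψ ((AdjoinRoot.powerBasis hp0).basis i) = θ ^ (i : ℕ) := by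
      intro i
      rw [(AdjoinRoot.powerBasis hp0).basis_eq_pow, AdjoinRoot.powerBasis_gen, map_pow]
      congr 1
      exact AdjoinRoot.lift_root hψ0
    simp only [hbas] at hg
    set P : L[X] := ∑ i : Fin (AdjoinRoot.powerBasis hp0).dim, C (g i) * X ^ (i : ℕ) with hP
    have hPdeg : P.natDegree ≤ p.natDegree - 1 := by
      rw [hP]
      refine natDegree_sum_le_of_forall_le _ _ fun i _ => ?_
      refine (natDegree_C_mul_X_pow_le _ _).trans ?_
      have h5 : (i : ℕ) < (AdjoinRoot.powerBasis hp0).dim := i.2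
      have h6 : (AdjoinRoot.powerBasis hp0).dim = p.natDegree := AdjoinRoot.powerBasis_dim _
      omega
    have hPθ : P.eval₂ (algebraMap L (AdjoinRoot p)) θ = 0 := by
      rw [hP, eval₂_finsetSum, ← hg]
      refine Finset.sum_congr rfl fun i _ => ?_
      rw [eval₂_mul, eval₂_C, eval₂_pow, eval₂_X, Algebra.smul_def]
    have h1 := hHm _ P hPdeg
    rw [hPθ, mul_zero, AdjoinRoot.mk_eq_zero] at h1
    have h2 : Hm a b (p.natDegree - 1) P = 0 := by
      by_contra hne
      have h3 := natDegree_le_of_dvd h1 hne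
      have h4 := Hm_natDegree a b h.natDegree_a h.natDegree_b (p.natDegree - 1) P
      omega
    have h3 : P = 0 := by
      by_contra hne
      exact Hm_ne_zero h _ _ hPdeg hne h2
    have h4 : P.coeff (i : ℕ) = g i := by
      rw [hP, finset_sum_coeff]
      simp only [coeff_C_mul, coeff_X_pow]
      rw [Finset.sum_eq_single i]
      · simp
      · intro j _ hj
        rw [if_neg, mul_zero]
        exact fun h => hj (Fin.ext h.symm)
      · intro h; exact absurd (Finset.mem_univ _) h
    rw [← h4, h3, coeff_zero]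
  have hnorm := norm_semilinear (AdjoinRoot.powerBasis hp0).basis σ ψ hψC hli
  have hfr : Module.finrank L (AdjoinRoot p) = p.natDegree := by
    rw [(AdjoinRoot.powerBasis hp0).finrank, AdjoinRoot.powerBasis_dim]
  haveI : Module.Free L (AdjoinRoot p) := inferInstance
  have hmod : Module.Finite L (AdjoinRoot p) := (AdjoinRoot.powerBasis hp0).finite
  refine ⟨Algebra.norm L (AdjoinRoot.mk p b), ?_, fun q c hq hcop =>
    ⟨Algebra.norm L (AdjoinRoot.mk p q), ?_, ?_⟩⟩
  · have : IsUnit (AdjoinRoot.mk p b) := hβ ▸ β.isUnit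
    exact (this.map (Algebra.norm L)).ne_zero
  · have : IsUnit (AdjoinRoot.mk p q) := by
      obtain ⟨u, v, huv⟩ := hcop
      refine IsUnit.of_mul_eq_one (AdjoinRoot.mk p v) ?_
      rw [← map_mul, mul_comm, ← map_one (AdjoinRoot.mk p), AdjoinRoot.mk_eq_mk]
      exact ⟨-u, by linear_combination huv⟩
    exact (this.map (Algebra.norm L)).ne_zero
  · have h1 := hHm q.natDegree (q.map σ) natDegree_map_le
    rw [hq, eval₂_map, ← hψmk, map_mul] at h1
    have h2 := congrArg (Algebra.norm L) h1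
    rw [map_mul, map_mul, map_pow, hnorm] at h2
    have h3 : AdjoinRoot.mk p (C c) = algebraMap L (AdjoinRoot p) c := rfl
    rw [h3, Algebra.norm_algebraMap, hfr] at h2
    exact h2.symm

end Pool.Agent.MP_b6294e
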