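import Pool.Agent.Lib.MP_b6294e.MoebiusNorm

/-!
# Moebius fibre maps: infinitely many orbits that are not dense give an invariant function
-/

namespace Pool.Agent.MP_b6294e

open Polynomial

section

variable {K A L : Type*} [Field K] [CommRing A] [IsDomain A] [Field L]
  [Algebra A L] [IsFractionRing A L]

/-- `p` vanishes (up to a denominator) along the orbit `(x_t, y_t)`. -/
def InV (ev : ℕ → A →+* K) (y : ℕ → K) (p : L[X]) : Prop :=
  ∃ s : A, s ≠ 0 ∧ ∃ P : A[X], P.map (algebraMap A L) = C (algebraMap A L s) * p ∧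
    ∀ t, (P.map (ev t)).eval (y t) = 0

theorem InV.smul {ev : ℕ → A →+* K} {y : ℕ → K} {p : L[X]} (h : InV ev y p) (r : L) :
    InV ev y (C r * p) := by
  obtain ⟨s, hs, P, hP, hv⟩ := h
  obtain ⟨r1, r2, hr2, hr⟩ := IsFractionRing.div_surjective (A := A) r
  have hr20 : r2 ≠ 0 := nonZeroDivisors.ne_zero hr2
  have hr2' : algebraMap A L r2 ≠ 0 := by
    rw [Ne, map_eq_zero_iff _ (IsFractionRing.injective A L)]; exact hr20
  refine ⟨s * r2, mul_ne_zero hs hr20, C r1 * P, ?_, fun t => ?_⟩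
  · have h1 : algebraMap A L r1 = algebraMap A L r2 * r := by
      rw [← hr]; field_simp
    rw [Polynomial.map_mul, map_C, hP, h1]
    simp only [map_mul]
    ring
  · rw [Polynomial.map_mul, eval_mul, hv t, mul_zero]

omit [IsFractionRing A L] in
theorem InV.sub {ev : ℕ → A →+* K} {y : ℕ → K} {p q : L[X]} (hp : InV ev y p)
    (hq : InV ev y q) : InV ev y (p - q) := by
  obtain ⟨s, hs, P, hP, hv⟩ := hp
  obtain ⟨s', hs', P', hP', hv'⟩ := hq
  refine ⟨s * s', mul_ne_zero hs hs', C s' * P - C s * P', ?_, fun t => ?_⟩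
  · rw [Polynomial.map_sub, Polynomial.map_mul, Polynomial.map_mul, map_C, map_C, hP, hP',
      map_mul, C_mul]
    ring
  · rw [Polynomial.map_sub, Polynomial.map_mul, Polynomial.map_mul, eval_sub, eval_mul, eval_mul,
      hv t, hv' t, mul_zero, mul_zero, sub_zero]

omit [IsDomain A] in
theorem InV.natDegree_pos {ev : ℕ → A →+* K} {y : ℕ → K} {p : L[X]} (hp : InV ev y p)
    (hp0 : p ≠ 0) (hdens : ∀ a : A, (∀ t, ev t a = 0) → a = 0) : 0 < p.natDegree := by
  obtain ⟨s, hs, P, hP, hv⟩ := hp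
  rw [Nat.pos_iff_ne_zero]
  intro h0
  have hs' : algebraMap A L s ≠ 0 := by
    rw [Ne, map_eq_zero_iff _ (IsFractionRing.injective A L)]; exact hs
  have h1 : P.natDegree = 0 := by
    rw [← natDegree_map_eq_of_injective (IsFractionRing.injective A L) P, hP,
      natDegree_C_mul hs', h0]
  rw [eq_C_of_natDegree_eq_zero h1] at hP hv
  have h2 : P.coeff 0 = 0 := by
    apply hdens
    intro t
    simpa using hv t
  rw [h2] at hP
  simp only [C_0, Polynomial.map_zero] at hP
  have h3 := (mul_eq_zero.mp hP.symm).resolve_left (by simpa using hs')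
  exact hp0 h3

/-- the map `σ` on `L` is compatible with the shift of the evaluations -/
def Shift (σ : L →+* L) (ev : ℕ → A →+* K) : Prop :=
  ∀ x : A, ∃ s x' : A, algebraMap A L s * σ (algebraMap A L x) = algebraMap A L x' ∧
    ∀ t, ev t s ≠ 0 ∧ ev t s * ev (t + 1) x = ev t x'

omit [IsDomain A] [IsFractionRing A L] in
theorem Shift.poly {σ : L →+* L} {ev : ℕ → A →+* K} (h : Shift σ ev) (P : A[X]) :
    ∃ (s : A) (Q : A[X]), Q.map (algebraMap A L) =
      C (algebraMap A L s) * (P.map (algebraMap A L)).map σ ∧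
      ∀ t, ev t s ≠ 0 ∧ Q.map (ev t) = C (ev t s) * P.map (ev (t + 1)) := by
  induction P using Polynomial.induction_on' with
  | add P P' hP hP' =>
    obtain ⟨s, Q, hQ, hs⟩ := hP
    obtain ⟨s', Q', hQ', hs'⟩ := hP'
    refine ⟨s * s', C s' * Q + C s * Q', ?_, fun t => ⟨?_, ?_⟩⟩
    · simp only [Polynomial.map_add, Polynomial.map_mul, map_C, hQ, hQ', map_mul]
      ring
    · rw [map_mul]
      exact mul_ne_zero (hs t).1 (hs' t).1
    · simp only [Polynomial.map_add, Polynomial.map_mul, map_C, (hs t).2, (hs' t).2, map_mul]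
      ring
  | monomial n c =>
    obtain ⟨s, x', hx', hs⟩ := h c
    refine ⟨s, monomial n x', ?_, fun t => ⟨(hs t).1, ?_⟩⟩
    · rw [map_monomial, map_monomial, map_monomial, C_mul_monomial, hx']
    · rw [map_monomial, map_monomial, C_mul_monomial, (hs t).2]

theorem InV.shift {σ : L →+* L} {ev : ℕ → A →+* K} (hsh : Shift σ ev) {y : ℕ → K} {p : L[X]}
    (hp : InV ev y p) (k : ℕ) (hk : p.natDegree ≤ k) (a b : A[X])
    (hy : ∀ t, y (t + 1) * (b.map (ev t)).eval (y t) = (a.map (ev t)).eval (y t)) :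
    InV ev y (Hm (a.map (algebraMap A L)) (b.map (algebraMap A L)) k (p.map σ)) := by
  obtain ⟨s, hs, P, hP, hv⟩ := hp
  obtain ⟨s1, Q, hQ, hs1⟩ := hsh.poly P
  obtain ⟨s2, x', hx', hs2⟩ := hsh s
  have hs' : algebraMap A L s ≠ 0 := by
    rw [Ne, map_eq_zero_iff _ (IsFractionRing.injective A L)]; exact hs
  have hs10 : s1 ≠ 0 := by
    rintro rfl
    exact (hs1 0).1 (map_zero _)
  have hs20 : s2 ≠ 0 := by
    rintro rfl
    exact (hs2 0).1 (map_zero _)
  have hs20' : algebraMap A L s2 ≠ 0 := by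
    rw [Ne, map_eq_zero_iff _ (IsFractionRing.injective A L)]; exact hs20
  have hx'0 : x' ≠ 0 := by
    rintro rfl
    rw [map_zero] at hx'
    exact mul_ne_zero hs20' ((map_ne_zero σ).mpr hs') hx'
  have hR : (C s2 * Q).map (algebraMap A L) = C (algebraMap A L (s1 * x')) * p.map σ := by
    rw [Polynomial.map_mul, map_C, hQ, hP, Polynomial.map_mul, map_C, map_mul, ← hx']
    simp only [C_mul]
    ring
  have hRdeg : (C s2 * Q).natDegree ≤ k := by
    rw [← natDegree_map_eq_of_injective (IsFractionRing.injective A L), hR]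
    exact (natDegree_C_mul_le _ _).trans (natDegree_map_le.trans hk)
  refine ⟨s1 * x', mul_ne_zero hs10 hx'0, Hm a b k (C s2 * Q), ?_, fun t => ?_⟩
  · rw [Hm_map, hR, Hm_smul]
  · have h1 : (Hm a b k (C s2 * Q)).map (ev t) =
        Hm (a.map (ev t)) (b.map (ev t)) k ((C s2 * Q).map (ev t)) := Hm_map _ _ _ _ _
    have h2 := Hm_hom (evalRingHom (y t)) (a.map (ev t)) (b.map (ev t)) k
      ((C s2 * Q).map (ev t)) (natDegree_map_le.trans hRdeg) (y (t + 1)) (hy t)
    rw [h1]
    rw [coe_evalRingHom] at h2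
    rw [h2]
    have h3 : ((C s2 * Q).map (ev t)).eval₂ ((evalRingHom (y t)).comp C) (y (t + 1)) = 0 := by
      have h4 : ((evalRingHom (y t)).comp C : K →+* K) = RingHom.id K := by
        ext x; simp
      rw [h4, Polynomial.eval₂_id, Polynomial.map_mul, eval_mul, (hs1 t).2, eval_mul, hv (t + 1),
        mul_zero, mul_zero]
    rw [h3, mul_zero]

/-- The minimal relation is semi-invariant. -/
theorem exists_min {σ : L →+* L} {ev : ℕ → A →+* K} (hsh : Shift σ ev) {y : ℕ → K}
    (hdens : ∀ a : A, (∀ t, ev t a = 0) → a = 0) (a b : A[X])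
    (hab : Moeb (a.map (algebraMap A L)) (b.map (algebraMap A L)))
    (hy : ∀ t, y (t + 1) * (b.map (ev t)).eval (y t) = (a.map (ev t)).eval (y t))
    (hnd : ∃ P : A[X], P ≠ 0 ∧ ∀ t, (P.map (ev t)).eval (y t) = 0) :
    ∃ p : L[X], 0 < p.natDegree ∧ InV ev y p ∧
      Semi σ (a.map (algebraMap A L)) (b.map (algebraMap A L)) p := by
  classical
  have hex : ∃ k, ∃ p : L[X], p ≠ 0 ∧ InV ev y p ∧ p.natDegree = k := by
    obtain ⟨P, hP0, hP⟩ := hnd
    refine ⟨_, P.map (algebraMap A L), ?_, ⟨1, one_ne_zero, P, by simp, hP⟩, rfl⟩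
    exact (Polynomial.map_ne_zero_iff (IsFractionRing.injective A L)).mpr hP0
  obtain ⟨p, hp0, hpV, hk⟩ := Nat.find_spec hex
  have hmin : ∀ q : L[X], q ≠ 0 → InV ev y q → p.natDegree ≤ q.natDegree := fun q hq hqV =>
    hk ▸ Nat.find_min' hex ⟨q, hq, hqV, rfl⟩
  have hpos : 0 < p.natDegree := hpV.natDegree_pos hp0 hdens
  refine ⟨p, hpos, hpV, ?_⟩
  set T := Hm (a.map (algebraMap A L)) (b.map (algebraMap A L)) p.natDegree (p.map σ) with hT
  have hTV : InV ev y T := hpV.shift hsh _ le_rfl a b hy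
  have hT0 : T ≠ 0 := Hm_ne_zero hab _ _ natDegree_map_le
    ((Polynomial.map_ne_zero_iff σ.injective).mpr hp0)
  have hTdeg : T.natDegree ≤ p.natDegree := Hm_natDegree _ _ hab.natDegree_a hab.natDegree_b _ _
  have hlc : p.leadingCoeff ≠ 0 := leadingCoeff_ne_zero.mpr hp0
  set c : L := T.coeff p.natDegree / p.leadingCoeff with hc
  have hdiff : T - C c * p = 0 := by
    by_contra hne
    have h1 := hmin _ hne (hTV.sub (hpV.smul c))
    have h2 : (T - C c * p).natDegree ≤ p.natDegree :=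
      (natDegree_sub_le _ _).trans (max_le hTdeg (natDegree_C_mul_le _ _))
    have h3 : (T - C c * p).coeff p.natDegree = 0 := by
      rw [coeff_sub, coeff_C_mul, hc, coeff_natDegree, div_mul_cancel₀ _ hlc, sub_self]
    have h4 : (T - C c * p).natDegree = p.natDegree := le_antisymm h2 h1
    rw [← h4, coeff_natDegree, leadingCoeff_eq_zero] at h3
    exact hne h3
  have hTc : T = C c * p := sub_eq_zero.mp hdiff
  refine ⟨hp0, c, ?_, hTc⟩
  rintro h0
  rw [h0, C_0, zero_mul] at hTc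
  exact hT0 hTc

/-- A field in which the whole orbit can be seen at once. -/
theorem exists_big_field {ev : ℕ → A →+* K} (hdens : ∀ a : A, (∀ t, ev t a = 0) → a = 0) :
    ∃ 𝒰 : Ultrafilter ℕ, ∀ a : A, a ≠ 0 → ∀ᶠ t in (𝒰 : Filter ℕ), ev t a ≠ 0 := by
  let F : Filter ℕ :=
    { sets := {s | ∃ a : A, a ≠ 0 ∧ {t | ev t a ≠ 0} ⊆ s}
      univ_sets := ⟨1, one_ne_zero, Set.subset_univ _⟩
      sets_of_superset := by
        rintro s s' ⟨a, ha, hs⟩ hss
        exact ⟨a, ha, hs.trans hss⟩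
      inter_sets := by
        rintro s s' ⟨a, ha, hs⟩ ⟨a', ha', hs'⟩
        refine ⟨a * a', mul_ne_zero ha ha', fun t ht => ⟨hs ?_, hs' ?_⟩⟩
        · intro h
          apply ht
          rw [map_mul, h, zero_mul]
        · intro h
          apply ht
          rw [map_mul, h, mul_zero] }
  have hne : F.NeBot := by
    rw [Filter.neBot_iff]
    intro hbot
    have : (∅ : Set ℕ) ∈ F := by rw [hbot]; exact Filter.mem_bot
    obtain ⟨a, ha, hs⟩ := this
    apply ha
    apply hdens
    intro t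
    by_contra h
    exact hs h
  refine ⟨Ultrafilter.of F, fun a ha => ?_⟩
  exact Ultrafilter.of_le F ⟨a, ha, subset_rfl⟩

end

end Pool.Agent.MP_b6294e
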