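import Mathlib

/-!
# Evaluation of triangular systems and recurrence modulo powers of a maximal ideal
-/

set_option linter.style.haveILetI false

namespace Pool.Agent.MP_b6294e

open MvPolynomial

section Eval

variable {R : Type*} [CommRing R]

/-- Evaluation of a polynomial in the first `i` coordinates. -/
noncomputable def E {A : Type*} [CommRing A] [Algebra R A] (x : ℕ → A) (i : ℕ) :
    MvPolynomial (Fin i) R →ₐ[R] A := aeval fun j : Fin i => x j

/-- Evaluation of a polynomial in the first `i` coordinates and one more variable. -/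
noncomputable def EP {A : Type*} [CommRing A] [Algebra R A] (x : ℕ → A) (i : ℕ)
    (f : Polynomial (MvPolynomial (Fin i) R)) (y : A) : A :=
  (f.map (E (R := R) x i : MvPolynomial (Fin i) R →+* A)).eval y

variable {A A' : Type*} [CommRing A] [Algebra R A] [CommRing A'] [Algebra R A']

theorem map_E (φ : A →ₐ[R] A') (x : ℕ → A) (i : ℕ) (P : MvPolynomial (Fin i) R) :
    φ (E x i P) = E (φ ∘ x) i P := by
  unfold E
  rw [← AlgHom.comp_apply, comp_aeval]
  rfl

theorem map_EP (φ : A →ₐ[R] A') (x : ℕ → A) (i : ℕ) (f : Polynomial (MvPolynomial (Fin i) R))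
    (y : A) : φ (EP x i f y) = EP (φ ∘ x) i f (φ y) := by
  unfold EP
  have h1 : (E (R := R) (φ ∘ x) i : MvPolynomial (Fin i) R →+* A') =
      (φ : A →+* A').comp (E (R := R) x i : MvPolynomial (Fin i) R →+* A) := by
    ext P
    · simp
    · simp [E]
  rw [h1, ← Polynomial.map_map]
  exact ((Polynomial.eval_map _ _).trans (Polynomial.eval₂_at_apply (φ : A →+* A') y)).symm

theorem E_congr {x x' : ℕ → A} {i : ℕ} (h : ∀ j < i, x j = x' j) :
    (E x i : MvPolynomial (Fin i) R →ₐ[R] A) = E x' i := by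
  unfold E
  congr 1
  funext j
  exact h j j.2

theorem EP_congr {x x' : ℕ → A} {i : ℕ} (h : ∀ j < i, x j = x' j)
    (f : Polynomial (MvPolynomial (Fin i) R)) (y : A) : EP x i f y = EP x' i f y := by
  unfold EP
  rw [E_congr h]

end Eval

section Rec

variable {R : Type*} [CommRing R] {A : Type*} [CommRing A] [IsLocalRing A] [Algebra R A]
  {k : Type*} [Field k] [Algebra R k]

/-- The numerator of the derivative of `a / b`. -/
noncomputable def wr {S : Type*} [CommRing S] (a b : Polynomial S) : Polynomial S :=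
  Polynomial.derivative a * b - a * Polynomial.derivative b

theorem backward (ρ : A →ₐ[R] k)
    (hmem : ∀ x, x ∈ IsLocalRing.maximalIdeal A ↔ ρ x = 0)
    (a b : ∀ i : ℕ, Polynomial (MvPolynomial (Fin i) R))
    (s n : ℕ) (x y x' y' : ℕ → A)
    (h1 : ∀ i < n, EP x i (b i) (x i) * y i = EP x i (a i) (x i))
    (h2 : ∀ i < n, EP x' i (b i) (x' i) * y' i = EP x' i (a i) (x' i))
    (hd : ∀ i < n, ρ (EP x i (wr (a i) (b i)) (x i)) ≠ 0)
    (hρ : ∀ i < n, ρ (x i) = ρ (x' i))
    (hy : ∀ i < n, y i - y' i ∈ IsLocalRing.maximalIdeal A ^ s) :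
    ∀ i < n, x i - x' i ∈ IsLocalRing.maximalIdeal A ^ s := by
  intro i
  induction i using Nat.strong_induction_on with
  | _ i ih =>
    intro hi
    let q : A →ₐ[R] A ⧸ (IsLocalRing.maximalIdeal A ^ s) := Ideal.Quotient.mkₐ R _
    have hq : ∀ u v : A, q u = q v ↔ u - v ∈ IsLocalRing.maximalIdeal A ^ s := fun u v =>
      Ideal.Quotient.eq
    have hx : ∀ j < i, (q ∘ x) j = (q ∘ x') j := fun j hj =>
      (hq _ _).mpr (ih j hj (hj.trans hi))
    have hEP : ∀ (f : Polynomial (MvPolynomial (Fin i) R)) (z : A),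
        q (EP x' i f z) = q (EP x i f z) := fun f z => by
      rw [map_EP, map_EP, EP_congr hx]
    have e1 : q (EP x i (a i) (x' i)) = q (EP x i (b i) (x' i)) * q (y i) := by
      rw [← hEP, ← hEP, ← h2 i hi, map_mul, (hq _ _).mpr (hy i hi)]
    have e2 : q (EP x i (a i) (x i)) = q (EP x i (b i) (x i)) * q (y i) := by
      rw [← h1 i hi, map_mul]
    -- the polynomial `F = a(z) b(x) - a(x) b(z)`
    set aa : Polynomial A := (a i).map (E (R := R) x i : MvPolynomial (Fin i) R →+* A) with haa
    set bb : Polynomial A := (b i).map (E (R := R) x i : MvPolynomial (Fin i) R →+* A) with hbb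
    set F : Polynomial A := aa * Polynomial.C (bb.eval (x i)) - Polynomial.C (aa.eval (x i)) * bb
      with hF
    have ea : ∀ z, EP x i (a i) z = aa.eval z := fun z => rfl
    have eb : ∀ z, EP x i (b i) z = bb.eval z := fun z => rfl
    have ew : EP x i (wr (a i) (b i)) (x i) = (Polynomial.derivative F).eval (x i) := by
      unfold EP wr
      rw [hF, haa, hbb]
      simp only [Polynomial.map_sub, Polynomial.map_mul, Polynomial.derivative_map,
        Polynomial.derivative_sub, Polynomial.derivative_mul, Polynomial.derivative_C,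
        Polynomial.eval_sub, Polynomial.eval_mul, Polynomial.eval_C,
        mul_zero, zero_mul, add_zero, zero_add]
    obtain ⟨c, hc⟩ := Polynomial.binomExpansion F (x i) (x' i - x i)
    rw [add_sub_cancel] at hc
    have hF0 : F.eval (x i) = 0 := by
      rw [hF]
      simp only [Polynomial.eval_sub, Polynomial.eval_mul, Polynomial.eval_C]
      ring
    have hF1 : F.eval (x' i) ∈ IsLocalRing.maximalIdeal A ^ s := by
      have h3 : q (F.eval (x' i)) = q 0 := by
        rw [hF]
        simp only [Polynomial.eval_sub, Polynomial.eval_mul, Polynomial.eval_C, map_sub, map_mul,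
          map_zero]
        rw [← ea, ← eb, ← ea, ← eb, e1, e2]
        ring
      simpa using (hq _ _).mp h3
    have e3 : (x' i - x i) * (EP x i (wr (a i) (b i)) (x i) +
        c * (x' i - x i)) ∈ IsLocalRing.maximalIdeal A ^ s := by
      have h4 : (x' i - x i) * (EP x i (wr (a i) (b i)) (x i) + c * (x' i - x i)) =
          F.eval (x' i) := by
        rw [hc, hF0, ew]
        ring
      rw [h4]
      exact hF1
    have hu : IsUnit (EP x i (wr (a i) (b i)) (x i) + c * (x' i - x i)) := by
      by_contra hcon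
      rw [← mem_nonunits_iff, ← IsLocalRing.mem_maximalIdeal, hmem, map_add, map_mul, map_sub,
        hρ i hi, sub_self, mul_zero, add_zero] at hcon
      exact hd i hi hcon
    have e4 := (Ideal.mul_unit_mem_iff_mem _ hu).mp e3
    rw [← neg_sub]
    exact (Ideal.neg_mem_iff _).mpr e4

theorem recurrence (ρ : A →ₐ[R] k)
    (hmem : ∀ x, x ∈ IsLocalRing.maximalIdeal A ↔ ρ x = 0)
    (hfin : ∀ s, Finite (A ⧸ IsLocalRing.maximalIdeal A ^ s))
    (a b : ∀ i : ℕ, Polynomial (MvPolynomial (Fin i) R))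
    (n : ℕ) (X : ℕ → ℕ → A)
    (h1 : ∀ t, ∀ i < n, EP (X t) i (b i) (X t i) * X (t + 1) i = EP (X t) i (a i) (X t i))
    (hd : ∀ t, ∀ i < n, ρ (EP (X t) i (wr (a i) (b i)) (X t i)) ≠ 0)
    (T : ℕ) (hT : 0 < T) (hper : ∀ t, ∀ i < n, ρ (X (t + T) i) = ρ (X t i)) :
    ∀ m s T0 : ℕ, ∃ t, T0 ≤ t ∧ ∀ i < n, X t i - X m i ∈ IsLocalRing.maximalIdeal A ^ s := by
  intro m s T0
  haveI := hfin s
  have hper' : ∀ c t, ∀ i < n, ρ (X (t + c * T) i) = ρ (X t i) := by
    intro c
    induction c with
    | zero => intro t i hi; simp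
    | succ c ih =>
      intro t i hi
      rw [show t + (c + 1) * T = (t + c * T) + T by ring, hper _ i hi, ih t i hi]
  obtain ⟨u, u', huu, heq⟩ := Finite.exists_ne_map_eq_of_infinite
    (fun u : ℕ => fun i : Fin n =>
      Ideal.Quotient.mk (IsLocalRing.maximalIdeal A ^ s) (X (m + u * ((T0 + 1) * T)) i))
  wlog hlt : u < u' generalizing u u'
  · exact this u' u huu.symm heq.symm (lt_of_le_of_ne (not_lt.mp hlt) huu.symm)
  have key : ∀ w, w ≤ u * ((T0 + 1) * T) → ∀ i < n,
      X (m + (u * ((T0 + 1) * T) - w)) i - X (m + (u' * ((T0 + 1) * T) - w)) i ∈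
        IsLocalRing.maximalIdeal A ^ s := by
    intro w
    induction w with
    | zero =>
      intro _ i hi
      have := congrFun heq ⟨i, hi⟩
      simpa using Ideal.Quotient.eq.mp this
    | succ w ih =>
      intro hw
      have hle : u * ((T0 + 1) * T) ≤ u' * ((T0 + 1) * T) := Nat.mul_le_mul_right _ hlt.le
      have ih' := ih (by omega)
      obtain ⟨α, hα⟩ : ∃ α, u * ((T0 + 1) * T) - w = α + 1 := ⟨_, (Nat.succ_pred_eq_of_pos
        (by omega)).symm⟩
      obtain ⟨β, hβ⟩ : ∃ β, u' * ((T0 + 1) * T) - w = β + 1 := ⟨_, (Nat.succ_pred_eq_of_pos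
        (by omega)).symm⟩
      have hα' : u * ((T0 + 1) * T) - (w + 1) = α := by omega
      have hβ' : u' * ((T0 + 1) * T) - (w + 1) = β := by omega
      rw [hα', hβ']
      rw [hα, hβ] at ih'
      have hβα : β = α + ((u' - u) * (T0 + 1)) * T := by
        have h5 : u' * ((T0 + 1) * T) = u * ((T0 + 1) * T) + ((u' - u) * (T0 + 1)) * T := by
          obtain ⟨δ, rfl⟩ := Nat.exists_eq_add_of_le hlt.le
          rw [Nat.add_sub_cancel_left]
          ring
        omega
      refine backward ρ hmem a b s n (X (m + α)) (X (m + α + 1)) (X (m + β)) (X (m + β + 1))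
        (h1 _) (h1 _) (hd _) ?_ ?_
      · intro i hi
        rw [hβα, show m + (α + ((u' - u) * (T0 + 1)) * T) = (m + α) + ((u' - u) * (T0 + 1)) * T by
          ring, hper' _ _ i hi]
      · intro i hi
        exact ih' i hi
  refine ⟨m + (u' - u) * ((T0 + 1) * T), ?_, ?_⟩
  · have h6 : 1 * ((T0 + 1) * 1) ≤ (u' - u) * ((T0 + 1) * T) :=
      Nat.mul_le_mul (by omega) (Nat.mul_le_mul le_rfl hT)
    omega
  · intro i hi
    have h7 := key (u * ((T0 + 1) * T)) le_rfl i hi
    rw [Nat.sub_self, add_zero] at h7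
    have h8 : u' * ((T0 + 1) * T) - u * ((T0 + 1) * T) = (u' - u) * ((T0 + 1) * T) := by
      rw [Nat.sub_mul]
    rw [h8] at h7
    rw [← neg_sub]
    exact (Ideal.neg_mem_iff _).mpr h7

end Rec

end Pool.Agent.MP_b6294e
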