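import Pool.Agent.Lib.MP_b6294e.Rec

/-!
# One more coordinate: superattraction at infinity in the fibre
-/

set_option linter.style.haveILetI false

namespace Pool.Agent.MP_b6294e

open MvPolynomial

section Descend

variable {L K : Type*} [Field L] [Field K] [Algebra L K]

/-- Apply a linear functional to the coefficients. -/
noncomputable def mapCoeff {n : ℕ} (φ : K →ₗ[L] L) (Q : MvPolynomial (Fin n) K) :
    MvPolynomial (Fin n) L :=
  ∑ d ∈ Q.support, monomial d (φ (coeff d Q))

theorem coeff_mapCoeff {n : ℕ} (φ : K →ₗ[L] L) (Q : MvPolynomial (Fin n) K) (d : Fin n →₀ ℕ) :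
    coeff d (mapCoeff φ Q) = φ (coeff d Q) := by
  classical
  unfold mapCoeff
  rw [coeff_sum]
  simp only [coeff_monomial]
  rw [Finset.sum_ite_eq']
  split_ifs with h
  · rfl
  · rw [notMem_support_iff.mp h, map_zero]

theorem eval_mapCoeff {n : ℕ} (φ : K →ₗ[L] L) (Q : MvPolynomial (Fin n) K) (x : Fin n → L) :
    eval x (mapCoeff φ Q) = φ (eval (fun j => algebraMap L K (x j)) Q) := by
  classical
  unfold mapCoeff
  rw [map_sum, eval_eq', map_sum]
  refine Finset.sum_congr rfl fun d _ => ?_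
  rw [eval_monomial]
  have h1 : coeff d Q * ∏ i, (algebraMap L K (x i)) ^ d i =
      (∏ i, x i ^ d i) • coeff d Q := by
    rw [Algebra.smul_def, map_prod, mul_comm]
    simp only [map_pow]
  rw [h1, map_smul, smul_eq_mul, mul_comm, Finsupp.prod_fintype _ _ (fun i => pow_zero _)]

end Descend

section Stage

variable {R A K : Type*} [CommRing R] [CommRing A] [IsDomain A] [Algebra R A] [Field K]
  [Algebra R K]

theorem arith_aux {L : Type*} [Field L] (D c U V W : L) (hW : W ≠ 0) :
    D * c * U * V = W * V * D * (c * (U / W)) := by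
  field_simp

/-- A polynomial relation over `K` between points of `A` and one fraction descends to `A`. -/
theorem descend (ι : A →+* K) (hι : Function.Injective ι) (n : ℕ)
    (P : Polynomial (MvPolynomial (Fin n) K)) (hP : P ≠ 0) :
    ∃ Q : ℕ → MvPolynomial (Fin n) A, Q P.natDegree ≠ 0 ∧
      ∀ (x : Fin n → A) (u v : A) (y : K), v ≠ 0 → y * ι v = ι u →
        (P.map (eval fun j => ι (x j))).eval y = 0 →
        ∑ j ∈ Finset.range (P.natDegree + 1), eval x (Q j) * u ^ j * v ^ (P.natDegree - j) = 0 := by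
  classical
  let L := FractionRing A
  letI : Algebra L K := (IsFractionRing.lift hι : L →+* K).toAlgebra
  have hLK : ∀ a : A, algebraMap L K (algebraMap A L a) = ι a := fun a =>
    IsFractionRing.lift_algebraMap hι a
  have hlc : P.leadingCoeff ≠ 0 := Polynomial.leadingCoeff_ne_zero.mpr hP
  obtain ⟨μ, hμ⟩ := MvPolynomial.exists_coeff_ne_zero hlc
  obtain ⟨φ, hφ⟩ : ∃ φ : K →ₗ[L] L, φ (coeff μ P.leadingCoeff) ≠ 0 := by
    by_contra hcon
    push Not at hcon
    exact hμ ((Module.forall_dual_apply_eq_zero_iff L _).mp hcon)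
  set k := P.natDegree with hk
  let s : Finset L := (Finset.range (k + 1)).biUnion fun j => (mapCoeff φ (P.coeff j)).coeffs
  obtain ⟨D, hD⟩ := IsLocalization.exist_integer_multiples_of_finset (nonZeroDivisors A) s
  have hD0 : algebraMap A L (D : A) ≠ 0 := by
    rw [Ne, map_eq_zero_iff _ (IsFractionRing.injective A L)]
    exact nonZeroDivisors.coe_ne_zero D
  have hQ : ∀ j, ∃ Q : MvPolynomial (Fin n) A, j ∈ Finset.range (k + 1) →
      map (algebraMap A L) Q = C (algebraMap A L (D : A)) * mapCoeff φ (P.coeff j) := by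
    intro j
    by_cases hj : j ∈ Finset.range (k + 1)
    · have h1 : C (algebraMap A L (D : A)) * mapCoeff φ (P.coeff j) ∈
          Set.range (map (σ := Fin n) (algebraMap A L)) := by
        rw [mem_range_map_iff_coeffs_subset]
        intro c hc
        rw [Finset.mem_coe, mem_coeffs_iff] at hc
        obtain ⟨d, hd, rfl⟩ := hc
        rw [coeff_C_mul]
        by_cases h0 : coeff d (mapCoeff φ (P.coeff j)) = 0
        · rw [h0, mul_zero]; exact ⟨0, map_zero _⟩
        · have h2 : coeff d (mapCoeff φ (P.coeff j)) ∈ s := by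
            refine Finset.mem_biUnion.mpr ⟨j, hj, ?_⟩
            exact coeff_mem_coeffs d h0
          obtain ⟨r, hr⟩ := hD _ h2
          exact ⟨r, by rw [hr, Algebra.smul_def]⟩
      obtain ⟨Q, hQ⟩ := h1
      exact ⟨Q, fun _ => hQ⟩
    · exact ⟨0, fun h => absurd h hj⟩
  choose Q hQ using hQ
  refine ⟨Q, ?_, ?_⟩
  · intro h0
    have h1 := hQ k (Finset.mem_range.mpr (Nat.lt_succ_self k))
    rw [h0, map_zero] at h1
    have h2 := congrArg (coeff μ) h1
    rw [coeff_C_mul, coeff_mapCoeff, coeff_zero] at h2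
    rcases mul_eq_zero.mp h2.symm with h3 | h3
    · exact hD0 h3
    · exact hφ h3
  · intro x u v y hv hy hPy
    have hv' : algebraMap A L v ≠ 0 := by
      rw [Ne, map_eq_zero_iff _ (IsFractionRing.injective A L)]
      exact hv
    set y' : L := algebraMap A L u / algebraMap A L v with hy'
    have hyy : algebraMap L K y' = y := by
      rw [hy', map_div₀, hLK, hLK, ← hy, mul_div_assoc, div_self, mul_one]
      intro h0
      exact hv (hι (by rw [h0, map_zero]))
    apply IsFractionRing.injective A L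
    rw [map_zero, map_sum]
    have h1 : ∀ j ∈ Finset.range (k + 1),
        algebraMap A L (eval x (Q j) * u ^ j * v ^ (k - j)) =
        algebraMap A L v ^ k * algebraMap A L D *
          φ (eval (fun j => ι (x j)) (P.coeff j) * y ^ j) := by
      intro j hj
      have hjk : j ≤ k := Nat.lt_succ_iff.mp (Finset.mem_range.mp hj)
      have h2 : algebraMap A L (eval x (Q j)) =
          algebraMap A L D * φ (eval (fun j => ι (x j)) (P.coeff j)) := by
        have h3 : algebraMap A L (eval x (Q j)) =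
            eval (fun i => algebraMap A L (x i)) (map (algebraMap A L) (Q j)) := by
          rw [eval_map]
          exact eval₂_comp _ _ _
        rw [h3, hQ j hj, map_mul, eval_C, eval_mapCoeff]
        simp only [hLK]
      have h4 : φ (eval (fun j => ι (x j)) (P.coeff j) * y ^ j) =
          φ (eval (fun j => ι (x j)) (P.coeff j)) * y' ^ j := by
        rw [← hyy, ← map_pow, mul_comm, ← Algebra.smul_def, map_smul, smul_eq_mul, mul_comm]
      rw [map_mul, map_mul, map_pow, map_pow, h2, h4, hy', div_pow]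
      have h5 : algebraMap A L v ^ k = algebraMap A L v ^ j * algebraMap A L v ^ (k - j) := by
        rw [← pow_add, Nat.add_sub_cancel' hjk]
      rw [h5]
      exact arith_aux _ _ _ _ _ (pow_ne_zero j hv')
    rw [Finset.sum_congr rfl h1, ← Finset.mul_sum, ← map_sum]
    have h6 : ∑ j ∈ Finset.range (k + 1), eval (fun j => ι (x j)) (P.coeff j) * y ^ j = 0 := by
      rw [← hPy, Polynomial.eval_eq_sum_range' (n := k + 1)]
      · simp only [Polynomial.coeff_map]
      · exact Nat.lt_succ_iff.mpr Polynomial.natDegree_map_le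
    rw [h6, map_zero, mul_zero]

/-- The numerator of `f(u / v)`. -/
noncomputable def homEval (x : ℕ → A) (n : ℕ) (f : Polynomial (MvPolynomial (Fin n) R)) (u v : A) :
    A :=
  ∑ s ∈ Finset.range (f.natDegree + 1), E x n (f.coeff s) * u ^ s * v ^ (f.natDegree - s)

omit [IsDomain A] in
theorem homEval_notMem [IsLocalRing A] (x : ℕ → A) (n : ℕ)
    (f : Polynomial (MvPolynomial (Fin n) R)) (u v : A)
    (hl : E x n f.leadingCoeff ∉ IsLocalRing.maximalIdeal A)
    (hu : u ∉ IsLocalRing.maximalIdeal A) (hv : v ∈ IsLocalRing.maximalIdeal A) :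
    homEval x n f u v ∉ IsLocalRing.maximalIdeal A := by
  unfold homEval
  rw [Finset.sum_range_succ]
  intro hcon
  have h1 : ∑ s ∈ Finset.range f.natDegree, E x n (f.coeff s) * u ^ s * v ^ (f.natDegree - s) ∈
      IsLocalRing.maximalIdeal A := by
    refine Ideal.sum_mem _ fun s hs => ?_
    have hs' := Finset.mem_range.mp hs
    exact Ideal.mul_mem_left _ _ (Ideal.pow_mem_of_mem _ hv _ (by omega))
  have h2 := (Ideal.add_mem_iff_right _ h1).mp hcon
  rw [Nat.sub_self, pow_zero, mul_one] at h2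
  rcases (IsLocalRing.maximalIdeal.isMaximal A).isPrime.mem_or_mem h2 with h3 | h3
  · exact hl h3
  · exact hu ((IsLocalRing.maximalIdeal.isMaximal A).isPrime.mem_of_pow_mem _ h3)

omit [IsDomain A] in
theorem homEval_spec (ι : A →ₐ[R] K) (x : ℕ → A) (n : ℕ)
    (f : Polynomial (MvPolynomial (Fin n) R)) (u v : A) (y : K) (h : y * ι v = ι u) :
    EP (ι ∘ x) n f y * ι v ^ f.natDegree = ι (homEval x n f u v) := by
  unfold homEval
  have h1 : EP (ι ∘ x) n f y = ∑ s ∈ Finset.range (f.natDegree + 1),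
      ι (E x n (f.coeff s)) * y ^ s := by
    unfold EP
    rw [Polynomial.eval_eq_sum_range' (n := f.natDegree + 1)
      (Nat.lt_succ_iff.mpr Polynomial.natDegree_map_le)]
    refine Finset.sum_congr rfl fun s _ => ?_
    rw [Polynomial.coeff_map, map_E]
    rfl
  rw [h1, Finset.sum_mul, map_sum]
  refine Finset.sum_congr rfl fun s hs => ?_
  have hs' := Nat.lt_succ_iff.mp (Finset.mem_range.mp hs)
  have h2 : ι v ^ f.natDegree = ι v ^ s * ι v ^ (f.natDegree - s) := by
    rw [← pow_add, Nat.add_sub_cancel' hs']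
  rw [map_mul, map_mul, map_pow, map_pow, ← h, h2]
  ring

theorem fractions [IsLocalRing A] (ι : A →ₐ[R] K) (hι : Function.Injective ι) (n : ℕ)
    (f g : Polynomial (MvPolynomial (Fin n) R)) (hd : g.natDegree + 2 ≤ f.natDegree)
    (X : ℕ → ℕ → A)
    (hl : ∀ t, E (X t) n f.leadingCoeff ∉ IsLocalRing.maximalIdeal A)
    (hg : ∀ t, E (X t) n g.leadingCoeff ∉ IsLocalRing.maximalIdeal A)
    (β δ : A) (hβ : β ∉ IsLocalRing.maximalIdeal A) (hδ : δ ∈ IsLocalRing.maximalIdeal A)
    (hδ0 : δ ≠ 0) (Y : ℕ → K) (hY0 : Y 0 * ι δ = ι β)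
    (hY : ∀ t, EP (ι ∘ X t) n g (Y t) ≠ 0 →
      EP (ι ∘ X t) n g (Y t) * Y (t + 1) = EP (ι ∘ X t) n f (Y t)) (t : ℕ) :
    EP (ι ∘ X t) n g (Y t) ≠ 0 ∧
    ∃ u v : A, u ∉ IsLocalRing.maximalIdeal A ∧ v ∈ IsLocalRing.maximalIdeal A ^ (t + 1) ∧
      v ≠ 0 ∧ Y t * ι v = ι u := by
  have key : ∀ t, (∃ u v : A, u ∉ IsLocalRing.maximalIdeal A ∧
      v ∈ IsLocalRing.maximalIdeal A ^ (t + 1) ∧ v ≠ 0 ∧ Y t * ι v = ι u) →
      EP (ι ∘ X t) n g (Y t) ≠ 0 := by
    rintro t ⟨u, v, hu, hv, hv0, huv⟩ h0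
    have h1 := homEval_spec ι (X t) n g u v (Y t) huv
    rw [h0, zero_mul] at h1
    have h2 : homEval (X t) n g u v = 0 := hι (by rw [← h1, map_zero])
    have h3 := homEval_notMem (X t) n g u v (hg t) hu (Ideal.pow_le_self (Nat.succ_ne_zero t) hv)
    rw [h2] at h3
    exact h3 (Ideal.zero_mem _)
  have main : ∃ u v : A, u ∉ IsLocalRing.maximalIdeal A ∧
      v ∈ IsLocalRing.maximalIdeal A ^ (t + 1) ∧ v ≠ 0 ∧ Y t * ι v = ι u := by
    induction t with
    | zero => exact ⟨β, δ, hβ, by simpa using hδ, hδ0, hY0⟩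
    | succ t ih =>
      have hne := key t ih
      obtain ⟨u, v, hu, hv, hv0, huv⟩ := ih
      have hvm : v ∈ IsLocalRing.maximalIdeal A := Ideal.pow_le_self (Nat.succ_ne_zero t) hv
      have hw := homEval_notMem (X t) n g u v (hg t) hu hvm
      have hw0 : homEval (X t) n g u v ≠ 0 := by
        intro h0; rw [h0] at hw; exact hw (Ideal.zero_mem _)
      refine ⟨homEval (X t) n f u v, v ^ (f.natDegree - g.natDegree) * homEval (X t) n g u v,
        homEval_notMem (X t) n f u v (hl t) hu hvm, ?_, mul_ne_zero (pow_ne_zero _ hv0) hw0, ?_⟩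
      · refine Ideal.mul_mem_right _ _ ?_
        have h1 : v ^ (f.natDegree - g.natDegree) ∈
            IsLocalRing.maximalIdeal A ^ ((t + 1) * (f.natDegree - g.natDegree)) := by
          rw [pow_mul]
          exact Ideal.pow_mem_pow hv _
        refine Ideal.pow_le_pow_right ?_ h1
        have h2 : 2 ≤ f.natDegree - g.natDegree := by omega
        nlinarith
      · have h1 := homEval_spec ι (X t) n g u v (Y t) huv
        have h2 := homEval_spec ι (X t) n f u v (Y t) huv
        have h3 : ι v ^ f.natDegree = ι v ^ (f.natDegree - g.natDegree) * ι v ^ g.natDegree := by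
          rw [← pow_add, Nat.sub_add_cancel (by omega)]
        rw [map_mul, map_pow, ← h1, ← h2, h3, ← hY t hne]
        ring
  exact ⟨key t main, main⟩

theorem stage [IsLocalRing A] [IsNoetherianRing A] (ι : A →ₐ[R] K)
    (hι : Function.Injective ι) (n : ℕ)
    (X : ℕ → ℕ → A)
    (hrec : ∀ m s T0 : ℕ, ∃ t, T0 ≤ t ∧ ∀ i < n, X t i - X m i ∈ IsLocalRing.maximalIdeal A ^ s)
    (Y : ℕ → K)
    (hfr : ∀ t, ∃ u v : A, u ∉ IsLocalRing.maximalIdeal A ∧
      v ∈ IsLocalRing.maximalIdeal A ^ (t + 1) ∧ v ≠ 0 ∧ Y t * ι v = ι u)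
    (dens : ∀ Q : MvPolynomial (Fin n) K,
      (∀ t, eval (fun j : Fin n => ι (X t j)) Q = 0) → Q = 0)
    (P : Polynomial (MvPolynomial (Fin n) K))
    (hP : ∀ t, (P.map (eval fun j : Fin n => ι (X t j))).eval (Y t) = 0) : P = 0 := by
  by_contra hP0
  obtain ⟨Q, hQ0, hQ⟩ := descend (A := A) (ι : A →+* K) hι n P hP0
  set k := P.natDegree with hk
  -- leading coefficient is small along the orbit
  have h1 : ∀ t, eval (fun j : Fin n => X t j) (Q k) ∈ IsLocalRing.maximalIdeal A ^ (t + 1) := by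
    intro t
    obtain ⟨u, v, hu, hv, hv0, huv⟩ := hfr t
    have h2 := hQ (fun j : Fin n => X t j) u v (Y t) hv0 huv (hP t)
    rw [Finset.sum_range_succ, Nat.sub_self, pow_zero, mul_one] at h2
    have h3 : ∑ j ∈ Finset.range k, eval (fun j : Fin n => X t j) (Q j) * u ^ j * v ^ (k - j) ∈
        IsLocalRing.maximalIdeal A ^ (t + 1) := by
      refine Ideal.sum_mem _ fun j hj => ?_
      have hj' := Finset.mem_range.mp hj
      exact Ideal.mul_mem_left _ _ (Ideal.pow_mem_of_mem _ hv _ (by omega))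
    have h4 : eval (fun j : Fin n => X t j) (Q k) * u ^ k ∈
        IsLocalRing.maximalIdeal A ^ (t + 1) := by
      have h5 : eval (fun j : Fin n => X t j) (Q k) * u ^ k =
        - ∑ j ∈ Finset.range k, eval (fun j : Fin n => X t j) (Q j) * u ^ j * v ^ (k - j) :=
        eq_neg_of_add_eq_zero_right h2
      rw [h5]
      exact (Ideal.neg_mem_iff _).mpr h3
    have hu' : IsUnit (u ^ k) := by
      refine IsUnit.pow _ ?_
      by_contra hcon
      exact hu ((IsLocalRing.mem_maximalIdeal u).mpr hcon)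
    exact (Ideal.mul_unit_mem_iff_mem _ hu').mp h4
  -- recurrence
  have h2 : ∀ m, eval (fun j : Fin n => X m j) (Q k) = 0 := by
    intro m
    have h3 : eval (fun j : Fin n => X m j) (Q k) ∈ ⨅ s : ℕ, IsLocalRing.maximalIdeal A ^ s := by
      rw [Submodule.mem_iInf]
      intro s
      obtain ⟨t, hts, ht⟩ := hrec m s s
      have h4 : eval (fun j : Fin n => X t j) (Q k) - eval (fun j : Fin n => X m j) (Q k) ∈
          IsLocalRing.maximalIdeal A ^ s := by
        rw [← Ideal.Quotient.eq]
        have h5 : ∀ x : Fin n → A, Ideal.Quotient.mk (IsLocalRing.maximalIdeal A ^ s)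
            (eval x (Q k)) = eval₂ (Ideal.Quotient.mk (IsLocalRing.maximalIdeal A ^ s))
              (Ideal.Quotient.mk (IsLocalRing.maximalIdeal A ^ s) ∘ x) (Q k) := fun x =>
          eval₂_comp _ _ _
        rw [h5, h5]
        congr 1
        funext j
        exact Ideal.Quotient.eq.mpr (ht j j.2)
      have h6 := Ideal.pow_le_pow_right (show s ≤ t + 1 by omega) (h1 t)
      have h7 := Ideal.sub_mem _ h6 h4
      rwa [sub_sub_cancel] at h7
    rwa [Ideal.iInf_pow_eq_bot_of_isLocalRing _ (IsLocalRing.maximalIdeal.isMaximal A).ne_top,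
      Ideal.mem_bot] at h3
  apply hQ0
  have h8 : map (ι : A →+* K) (Q k) = 0 := by
    apply dens
    intro t
    have h9 : eval (fun j : Fin n => ι (X t j)) (map (ι : A →+* K) (Q k)) =
        ι (eval (fun j : Fin n => X t j) (Q k)) := by
      rw [eval_map]
      exact (eval₂_comp (ι : A →+* K) _ _).symm
    rw [h9, h2, map_zero]
  exact (map_eq_zero_iff _ (map_injective (ι : A →+* K) hι)).mp h8

end Stage

end Pool.Agent.MP_b6294e
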