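import Pool.Agent.Lib.MP_b6294e.Stage
import Pool.Agent.Lib.MP_b6294e.ResPoint

/-!
# Adding one coordinate, given a good local model
-/

set_option linter.style.haveILetI false

namespace Pool.Agent.MP_b6294e

open MvPolynomial

section Step

variable {R K : Type*} [CommRing R] [Field K] [Algebra R K]

/-- The triangular rational map. -/
noncomputable def Phi (a b : ∀ i : ℕ, Polynomial (MvPolynomial (Fin i) R)) (x : ℕ → K) : ℕ → K :=
  fun i => EP x i (a i) (x i) / EP x i (b i) (x i)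

theorem Phi_apply (a b : ∀ i : ℕ, Polynomial (MvPolynomial (Fin i) R)) (x : ℕ → K) (i : ℕ) :
    Phi a b x i = EP x i (a i) (x i) / EP x i (b i) (x i) := rfl

theorem Phi_congr (a b : ∀ i : ℕ, Polynomial (MvPolynomial (Fin i) R)) (n : ℕ) {x x' : ℕ → K}
    (h : ∀ i < n, x i = x' i) : ∀ i < n, Phi a b x i = Phi a b x' i := by
  intro i hi
  unfold Phi
  rw [EP_congr (fun j hj => h j (hj.trans hi)), EP_congr (fun j hj => h j (hj.trans hi)), h i hi]

theorem Phi_iter_congr (a b : ∀ i : ℕ, Polynomial (MvPolynomial (Fin i) R)) (n : ℕ)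
    {x x' : ℕ → K} (h : ∀ i < n, x i = x' i) (t : ℕ) :
    ∀ i < n, (Phi a b)^[t] x i = (Phi a b)^[t] x' i := by
  induction t with
  | zero => exact h
  | succ t ih =>
    rw [Function.iterate_succ_apply', Function.iterate_succ_apply']
    exact Phi_congr a b n ih

variable {A k : Type*} [CommRing A] [IsDomain A] [IsLocalRing A] [IsNoetherianRing A]
  [Algebra R A] [Field k] [Algebra R k]

omit [CommRing A] [IsDomain A] [IsLocalRing A] [IsNoetherianRing A] [Algebra R A] in
theorem iter_ne_zero (F : k →ₐ[R] k) (t : ℕ) (z : k) (hz : z ≠ 0) : F^[t] z ≠ 0 := by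
  induction t with
  | zero => exact hz
  | succ t ih =>
    rw [Function.iterate_succ_apply']
    intro h
    exact ih ((F : k →+* k).injective (by rw [map_zero]; exact h))

omit [CommRing A] [IsDomain A] [IsLocalRing A] [IsNoetherianRing A] [Algebra R A] in
theorem iter_E (F : k →ₐ[R] k) (xb : ℕ → k) (t i : ℕ) (Q : MvPolynomial (Fin i) R) :
    E (fun j => F^[t] (xb j)) i Q = F^[t] (E xb i Q) := by
  induction t with
  | zero => rfl
  | succ t ih =>
    rw [Function.iterate_succ_apply', ← ih, map_E]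
    congr 1
    congr 1
    funext j
    simp [Function.iterate_succ_apply']

omit [CommRing A] [IsDomain A] [IsLocalRing A] [IsNoetherianRing A] [Algebra R A] in
theorem iter_EP (F : k →ₐ[R] k) (xb : ℕ → k) (t i : ℕ) (Q : Polynomial (MvPolynomial (Fin i) R))
    (z : k) : EP (fun j => F^[t] (xb j)) i Q (F^[t] z) = F^[t] (EP xb i Q z) := by
  induction t with
  | zero => rfl
  | succ t ih =>
    rw [Function.iterate_succ_apply', Function.iterate_succ_apply', ← ih, map_EP]
    congr 1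
    funext j
    simp [Function.iterate_succ_apply']

omit [CommRing A] [IsDomain A] [IsLocalRing A] [IsNoetherianRing A] [Algebra R A] in
theorem iter_mul (F : k →ₐ[R] k) (t : ℕ) (u v : k) : F^[t] (u * v) = F^[t] u * F^[t] v := by
  induction t with
  | zero => rfl
  | succ t ih' =>
    rw [Function.iterate_succ_apply', Function.iterate_succ_apply',
      Function.iterate_succ_apply', ih', map_mul]

omit [IsDomain A] [IsNoetherianRing A] in
/-- The orbit lives in the local model. -/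
theorem local_orbit (a b : ∀ i : ℕ, Polynomial (MvPolynomial (Fin i) R)) (n : ℕ)
    (ι : A →ₐ[R] K) (ρ : A →ₐ[R] k)
    (hmem : ∀ x, x ∈ IsLocalRing.maximalIdeal A ↔ ρ x = 0)
    (F : k →ₐ[R] k) (xb : ℕ → k)
    (hx1 : ∀ i < n, EP xb i (b i) (xb i) * F (xb i) = EP xb i (a i) (xb i))
    (hx2 : ∀ i < n, EP xb i (b i) (xb i) ≠ 0)
    (α : ℕ → K) (x0 : ℕ → A) (hx0 : ∀ i < n, ι (x0 i) = α i) (hx0' : ∀ i < n, ρ (x0 i) = xb i) :
    ∃ X : ℕ → ℕ → A, (∀ t, ∀ i < n, ι (X t i) = (Phi a b)^[t] α i) ∧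
      (∀ t, ∀ i < n, ρ (X t i) = F^[t] (xb i)) := by
  classical
  have horb : ∀ t : ℕ, ∃ X : ℕ → A, (∀ i < n, ι (X i) = (Phi a b)^[t] α i) ∧
      (∀ i < n, ρ (X i) = F^[t] (xb i)) := by
    intro t
    induction t with
    | zero => exact ⟨x0, hx0, hx0'⟩
    | succ t ih =>
      obtain ⟨X, hX1, hX2⟩ := ih
      have hρEP : ∀ i < n, ∀ (Q : Polynomial (MvPolynomial (Fin i) R)),
          ρ (EP X i Q (X i)) = F^[t] (EP xb i Q (xb i)) := by
        intro i hi Q
        rw [map_EP, hX2 i hi, ← iter_EP]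
        exact EP_congr (fun j hj => hX2 j (hj.trans hi)) _ _
      have hιEP : ∀ i < n, ∀ (Q : Polynomial (MvPolynomial (Fin i) R)),
          ι (EP X i Q (X i)) = EP ((Phi a b)^[t] α) i Q ((Phi a b)^[t] α i) := by
        intro i hi Q
        rw [map_EP, hX1 i hi]
        exact EP_congr (fun j hj => hX1 j (hj.trans hi)) _ _
      have hunit : ∀ i < n, IsUnit (EP X i (b i) (X i)) := by
        intro i hi
        by_contra hcon
        rw [← mem_nonunits_iff, ← IsLocalRing.mem_maximalIdeal, hmem, hρEP i hi] at hcon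
        exact iter_ne_zero F t _ (hx2 i hi) hcon
      have hex : ∀ i, ∃ y : A, i < n → EP X i (b i) (X i) * y = EP X i (a i) (X i) := by
        intro i
        by_cases hi : i < n
        · obtain ⟨w, hw⟩ := hunit i hi
          exact ⟨(↑w⁻¹ : A) * EP X i (a i) (X i), fun _ => by rw [← hw, Units.mul_inv_cancel_left]⟩
        · exact ⟨0, fun h => absurd h hi⟩
      choose X' hX' using hex
      refine ⟨X', fun i hi => ?_, fun i hi => ?_⟩
      · have h1 := congrArg ι (hX' i hi)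
        rw [map_mul, hιEP i hi, hιEP i hi] at h1
        rw [Function.iterate_succ_apply', Phi_apply]
        have h2 : EP ((Phi a b)^[t] α) i (b i) ((Phi a b)^[t] α i) ≠ 0 := by
          rw [← hιEP i hi]
          exact ((hunit i hi).map ι).ne_zero
        rw [eq_div_iff h2, mul_comm]
        exact h1
      · have h1 := congrArg ρ (hX' i hi)
        rw [map_mul, hρEP i hi, hρEP i hi] at h1
        have h2 : F^[t] (EP xb i (b i) (xb i)) ≠ 0 := iter_ne_zero F t _ (hx2 i hi)
        apply mul_left_cancel₀ h2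
        rw [h1, ← hx1 i hi, iter_mul, Function.iterate_succ_apply]
  choose X hX1 hX2 using horb
  exact ⟨X, hX1, hX2⟩

omit [IsDomain A] [IsNoetherianRing A] in
/-- Nonvanishing along the orbit is detected by residues. -/
theorem local_ne_zero (a b : ∀ i : ℕ, Polynomial (MvPolynomial (Fin i) R)) (n : ℕ)
    (ι : A →ₐ[R] K) (hι : Function.Injective ι) (ρ : A →ₐ[R] k)
    (hmem : ∀ x, x ∈ IsLocalRing.maximalIdeal A ↔ ρ x = 0)
    (F : k →ₐ[R] k) (xb : ℕ → k)
    (hx1 : ∀ i < n, EP xb i (b i) (xb i) * F (xb i) = EP xb i (a i) (xb i))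
    (hx2 : ∀ i < n, EP xb i (b i) (xb i) ≠ 0)
    (α : ℕ → K) (x0 : ℕ → A) (hx0 : ∀ i < n, ι (x0 i) = α i) (hx0' : ∀ i < n, ρ (x0 i) = xb i)
    (G : MvPolynomial (Fin n) R) (hG : E xb n G ≠ 0) (t : ℕ) :
    E ((Phi a b)^[t] α) n G ≠ 0 := by
  obtain ⟨X, hX1, hX2⟩ := local_orbit a b n ι ρ hmem F xb hx1 hx2 α x0 hx0 hx0'
  intro h0
  have h1 : ι (E (X t) n G) = E ((Phi a b)^[t] α) n G := by
    rw [map_E]
    congr 1
    exact E_congr (fun j hj => hX1 t j hj)
  have h2 : E (X t) n G = 0 := hι (by rw [h1, h0, map_zero])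
  have h3 : ρ (E (X t) n G) = F^[t] (E xb n G) := by
    rw [map_E, ← iter_E]
    congr 1
    exact E_congr (fun j hj => hX2 t j hj)
  rw [h2, map_zero] at h3
  exact iter_ne_zero F t _ hG h3.symm

theorem local_step (a b : ∀ i : ℕ, Polynomial (MvPolynomial (Fin i) R)) (n : ℕ)
    (hdeg : (b n).natDegree + 2 ≤ (a n).natDegree)
    (ι : A →ₐ[R] K) (hι : Function.Injective ι) (ρ : A →ₐ[R] k)
    (hmem : ∀ x, x ∈ IsLocalRing.maximalIdeal A ↔ ρ x = 0)
    (hfin : Finite (A ⧸ IsLocalRing.maximalIdeal A))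
    (F : k →ₐ[R] k) (xb : ℕ → k)
    (hx1 : ∀ i < n, EP xb i (b i) (xb i) * F (xb i) = EP xb i (a i) (xb i))
    (hx2 : ∀ i < n, EP xb i (b i) (xb i) ≠ 0)
    (hx3 : ∀ i < n, EP xb i (wr (a i) (b i)) (xb i) ≠ 0)
    (hx4 : E xb n (a n).leadingCoeff ≠ 0) (hx5 : E xb n (b n).leadingCoeff ≠ 0)
    (T0 : ℕ) (hT0 : 0 < T0) (hper : ∀ i < n, F^[T0] (xb i) = xb i)
    (α : ℕ → K) (x0 : ℕ → A) (hx0 : ∀ i < n, ι (x0 i) = α i) (hx0' : ∀ i < n, ρ (x0 i) = xb i)
    (β δ : A) (hβ : ρ β ≠ 0) (hδ : ρ δ = 0) (hδ0 : δ ≠ 0) (hαn : α n * ι δ = ι β)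
    (dens : ∀ Q : MvPolynomial (Fin n) K,
      (∀ t, eval (fun j : Fin n => (Phi a b)^[t] α j) Q = 0) → Q = 0)
    (g : Polynomial (MvPolynomial (Fin n) R)) (hg : E xb n g.leadingCoeff ≠ 0) :
    (∀ t, EP ((Phi a b)^[t] α) n (b n) ((Phi a b)^[t] α n) ≠ 0) ∧
    (∀ t, EP ((Phi a b)^[t] α) n g ((Phi a b)^[t] α n) ≠ 0) ∧
    ∀ P : MvPolynomial (Fin (n + 1)) K,
      (∀ t, eval (fun j : Fin (n + 1) => (Phi a b)^[t] α j) P = 0) → P = 0 := by
  classical
  obtain ⟨X, hX1, hX2⟩ := local_orbit a b n ι ρ hmem F xb hx1 hx2 α x0 hx0 hx0'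
  have hρE : ∀ (t : ℕ) (Q : MvPolynomial (Fin n) R), ρ (E (X t) n Q) = F^[t] (E xb n Q) := by
    intro t Q
    rw [map_E, ← iter_E]
    congr 1
    exact E_congr (fun j hj => hX2 t j hj)
  have hρEP : ∀ t, ∀ i < n, ∀ (Q : Polynomial (MvPolynomial (Fin i) R)),
      ρ (EP (X t) i Q (X t i)) = F^[t] (EP xb i Q (xb i)) := by
    intro t i hi Q
    rw [map_EP, hX2 t i hi, ← iter_EP]
    exact EP_congr (fun j hj => hX2 t j (hj.trans hi)) _ _
  have hιEP : ∀ t, ∀ i < n, ∀ (Q : Polynomial (MvPolynomial (Fin i) R)),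
      ι (EP (X t) i Q (X t i)) = EP ((Phi a b)^[t] α) i Q ((Phi a b)^[t] α i) := by
    intro t i hi Q
    rw [map_EP, hX1 t i hi]
    exact EP_congr (fun j hj => hX1 t j (hj.trans hi)) _ _
  have hfin' : ∀ s, Finite (A ⧸ IsLocalRing.maximalIdeal A ^ s) := fun s =>
    Ideal.finite_quotient_pow (IsNoetherian.noetherian _) s
  have hrec := recurrence ρ hmem hfin' a b n X
    (by
      intro t i hi
      apply hι
      have h1 : EP ((Phi a b)^[t] α) i (b i) ((Phi a b)^[t] α i) ≠ 0 := by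
        rw [← hιEP t i hi]
        intro h0
        have h2 : EP (X t) i (b i) (X t i) = 0 := hι (by rw [h0, map_zero])
        have h3 := hρEP t i hi (b i)
        rw [h2, map_zero] at h3
        exact iter_ne_zero F t _ (hx2 i hi) h3.symm
      rw [map_mul, hιEP t i hi, hιEP t i hi, hX1 (t + 1) i hi, Function.iterate_succ_apply',
        Phi_apply, mul_div_cancel₀ _ h1])
    (by
      intro t i hi
      rw [hρEP t i hi]
      exact iter_ne_zero F t _ (hx3 i hi))
    T0 hT0
    (by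
      intro t i hi
      rw [hX2 _ i hi, hX2 _ i hi, Function.iterate_add_apply, hper i hi])
  have hEPn : ∀ (t : ℕ) (Q : Polynomial (MvPolynomial (Fin n) R)) (z : K),
      EP (ι ∘ X t) n Q z = EP ((Phi a b)^[t] α) n Q z := fun t Q z =>
    EP_congr (fun j hj => hX1 t j hj) _ _
  have hfr := fractions ι hι n (a n) (b n) hdeg X
    (by
      intro t h
      rw [hmem, hρE] at h
      exact iter_ne_zero F t _ hx4 h)
    (by
      intro t h
      rw [hmem, hρE] at h
      exact iter_ne_zero F t _ hx5 h)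
    β δ (fun h => hβ ((hmem β).mp h)) ((hmem δ).mpr hδ) hδ0 (fun t => (Phi a b)^[t] α n) hαn
    (by
      intro t ht
      rw [hEPn] at ht
      rw [hEPn, hEPn, Function.iterate_succ_apply', Phi_apply, mul_div_cancel₀ _ ht])
  have hevX : ∀ t, (fun j : Fin n => ι (X t j)) = fun j : Fin n => (Phi a b)^[t] α j := fun t => by
    funext j
    exact hX1 t j j.2
  refine ⟨fun t => ?_, fun t => ?_, fun P hP => ?_⟩
  · have := (hfr t).1
    rwa [hEPn] at this
  · intro h0
    obtain ⟨u, v, hu, hv, hv0, huv⟩ := (hfr t).2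
    have h1 := homEval_spec ι (X t) n g u v _ huv
    rw [hEPn, h0, zero_mul] at h1
    have h2 : homEval (X t) n g u v = 0 := hι (by rw [← h1, map_zero])
    have h3 := homEval_notMem (X t) n g u v (by
      intro h
      rw [hmem, hρE] at h
      exact iter_ne_zero F t _ hg h) hu (Ideal.pow_le_self (Nat.succ_ne_zero t) hv)
    rw [h2] at h3
    exact h3 (Ideal.zero_mem _)
  · by_contra hP0
    refine lastVar_ne_zero hP0 ?_
    refine stage ι hι n X hrec (fun t => (Phi a b)^[t] α n) (fun t => (hfr t).2) ?_ _ ?_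
    · intro Q hQ
      apply dens
      intro t
      rw [← hevX]
      exact hQ t
    · intro t
      rw [hevX, ← eval_lastVar]
      exact hP t

end Step

end Pool.Agent.MP_b6294e
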