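import Pool.Agent.Lib.MP_b6294e.Base

/-!
# Adding a coordinate on which the map is superattracting at infinity
-/

set_option linter.style.haveILetI false

namespace Pool.Agent.MP_b6294e

open MvPolynomial

universe u

section

variable (R K : Type u) [CommRing R] [Algebra.FiniteType ℤ R] [Field K]
  [Algebra R K] (T : Type u) [CommRing T] [IsDomain T] [Algebra R T] [Algebra.IsIntegral R T]
  (iT : T →ₐ[R] K)

omit [Algebra.FiniteType ℤ R] [Algebra.IsIntegral R T] [IsDomain T] in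
theorem cong_div (M0 : Ideal T) (hM0 : M0.IsMaximal) (β δ z : T) (h5 : δ - 1 ∈ M0)
    (h6 : β - z ∈ M0) (hiδ : iT δ ≠ 0) : Cong R K T iT M0 (iT β / iT δ) z := by
  refine ⟨β, δ, ?_, ?_, ?_⟩
  · intro h7
    have h8 := Ideal.sub_mem _ h7 h5
    rw [sub_sub_cancel] at h8
    exact hM0.ne_top ((Ideal.eq_top_iff_one _).mpr h8)
  · rw [div_mul_cancel₀ _ hiδ]
  · have h9 : β - z * δ = (β - z) - z * (δ - 1) := by ring
    rw [h9]
    exact Ideal.sub_mem _ h6 (Ideal.mul_mem_left _ _ h5)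

theorem good_succ_A (hiT : Function.Injective iT) [IsJacobsonRing T] (hTF : ¬ IsField T)
    (hcl : ∀ (M : Ideal T) [hM : M.IsMaximal],
      letI := Ideal.Quotient.field M; IsAlgClosed (T ⧸ M))
    (a b : ∀ i : ℕ, Polynomial (MvPolynomial (Fin i) R)) (n : ℕ)
    (hdeg : (b n).natDegree + 2 ≤ (a n).natDegree)
    (ha : ∃ μ, IsUnit (coeff μ (a n).leadingCoeff))
    (hbn : ∃ μ, IsUnit (coeff μ (b n).leadingCoeff))
    (hb : ∀ i < n, ∃ j μ, IsUnit (coeff μ ((b i).coeff j)))
    (hw : ∀ i < n, ∃ j μ, IsUnit (coeff μ ((wr (a i) (b i)).coeff j)))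
    (G : MvPolynomial (Fin (n + 1)) R)
    (hG2 : ∃ μ, IsUnit (coeff μ (lastVar n G).leadingCoeff))
    (hn : Good R K T iT a b n) : GoodAt R K T iT a b (n + 1) G := by
  classical
  intro S hS z
  obtain ⟨M, M', k, _, _, π, F, xb, T0, α', hM, hM', hMS, hM'S, hMM', hπM, hπs, hx1, hx2, hx3, hG,
    hT0, hper, hα1, hα2, hα3, hL⟩ := base_data R K T iT hiT hTF hcl a b n n le_rfl hb hw
    ((a n).leadingCoeff * (b n).leadingCoeff * (lastVar n G).leadingCoeff)
    (fun k _ _ => by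
      rw [map_mul, map_mul]
      exact mul_ne_zero (mul_ne_zero (map_ne_zero_of_isUnit _ ha) (map_ne_zero_of_isUnit _ hbn))
        (map_ne_zero_of_isUnit _ hG2)) hn S hS z
  rw [map_mul, map_mul] at hG
  obtain ⟨β, hβM, -, hβS⟩ := crt T S hS M M' hM hM' hMS hM'S hMM' (fun M0 => z M0 n) 1 1
  obtain ⟨δ, hδM, hδM', hδS⟩ := crt T S hS M M' hM hM' hMS hM'S hMM' (fun _ => 1) 0 1
  have hδ0 : δ ≠ 0 := by
    rintro rfl
    rw [zero_sub] at hδM'
    exact hM'.ne_top ((Ideal.eq_top_iff_one _).mpr ((Ideal.neg_mem_iff _).mp hδM'))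
  rw [sub_zero] at hδM
  have hiδ : iT δ ≠ 0 := fun h => hδ0 (hiT (by rw [h, map_zero]))
  set α : ℕ → K := Function.update α' n (iT β / iT δ) with hα
  have hlow : ∀ i < n, α i = α' i := fun i hi => Function.update_of_ne (by omega) _ _
  have hαn : α n = iT β / iT δ := Function.update_self _ _ _
  have hΦ : ∀ t, ∀ i < n, (Phi a b)^[t] α i = (Phi a b)^[t] α' i := fun t =>
    Phi_iter_congr a b n hlow t
  obtain ⟨L, x0, hx0, hLs⟩ := hL {β, δ, 1}
  obtain ⟨βA, hβA, hβA'⟩ := hLs β (by simp) 1 (by simp) (by rw [map_one]; exact one_ne_zero)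
  obtain ⟨δA, hδA, hδA'⟩ := hLs δ (by simp) 1 (by simp) (by rw [map_one]; exact one_ne_zero)
  rw [map_one, mul_one] at hβA hδA
  rw [map_one, mul_one] at hβA' hδA'
  have hstep := local_step a b n hdeg L.ι L.inj L.ρ L.mem L.fin F xb hx1 hx2 hx3
    (left_ne_zero_of_mul (left_ne_zero_of_mul hG)) (right_ne_zero_of_mul (left_ne_zero_of_mul hG))
    _ hT0 hper α x0 (fun i hi => by rw [(hx0 i hi).1, hlow i hi]) (fun i hi => (hx0 i hi).2)
    βA δA
    (by
      rw [hβA']
      have h1 := (hπM _).mp hβM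
      rw [map_sub, map_one, sub_eq_zero] at h1
      rw [h1]
      exact one_ne_zero)
    (by
      rw [hδA']
      exact (hπM _).mp hδM)
    (by
      rintro rfl
      rw [map_zero] at hδA
      exact hiδ hδA.symm)
    (by rw [hαn, hδA, hβA, div_mul_cancel₀ _ hiδ])
    (by
      intro Q hQ
      apply hα3
      intro t
      rw [← hQ t]
      congr 2
      funext j
      exact (hΦ t j j.2).symm)
    (lastVar n G) (right_ne_zero_of_mul hG)
  refine ⟨α, ?_, ?_, hstep.2.2, fun t => by rw [E_lastVar]; exact hstep.2.1 t⟩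
  · intro M0 hM0 j hj
    rcases Nat.lt_succ_iff_lt_or_eq.mp hj with h | h
    · rw [hlow j h]
      exact hα1 M0 hM0 j h
    · subst h
      rw [hαn]
      exact cong_div R K T iT M0 (hS M0 hM0) β δ _ (hδS M0 hM0) (hβS M0 hM0) hiδ
  · intro t i hi
    rcases Nat.lt_succ_iff_lt_or_eq.mp hi with h | h
    · have h4 := hα2 t i h
      rw [EP_congr (fun j hj => hΦ t j (hj.trans h)), hΦ t i h]
      exact h4
    · subst h
      exact hstep.1 t

end

end Pool.Agent.MP_b6294e
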